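import Pool.Agent.Helper47.Wan.Riemann

open scoped WithZero NNReal Polynomial
open WithZero IsLocalRing

namespace Pool.Agent.Helper47.Wan

variable (p : ℕ) [hp : Fact p.Prime] {F : Type*} [Field F] [Algebra (ZMod p) F]

/-- The value of an additive function on a divisor. -/
noncomputable def wt (f : Place F → ℤ) (D : Place F →₀ ℤ) : ℤ := D.sum (fun v n => n * f v)

omit [Algebra (ZMod p) F] hp in
theorem wt_zero (f : Place F → ℤ) : wt f (0 : Place F →₀ ℤ) = 0 := by simp [wt]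

theorem wt_add (f : Place F → ℤ) (D E : Place F →₀ ℤ) : wt f (D + E) = wt f D + wt f E := by
  classical
  rw [wt, wt, wt, Finsupp.sum_add_index']
  · simp
  · intro v a b; ring

theorem wt_neg (f : Place F → ℤ) (D : Place F →₀ ℤ) : wt f (-D) = - wt f D := by
  have := wt_add f D (-D)
  rw [add_neg_cancel, wt_zero] at this
  linarith

theorem wt_sub (f : Place F → ℤ) (D E : Place F →₀ ℤ) : wt f (D - E) = wt f D - wt f E := by
  rw [sub_eq_add_neg, wt_add, wt_neg]; ring

theorem wt_single (f : Place F → ℤ) (v : Place F) (n : ℤ) : wt f (Finsupp.single v n) = n * f v := by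
  simp [wt]

theorem wt_smul (f : Place F → ℤ) (n : ℕ) (D : Place F →₀ ℤ) : wt f (n • D) = n * wt f D := by
  induction n with
  | zero => simp [wt_zero]
  | succ n ih => rw [succ_nsmul, wt_add, ih]; push_cast; ring

theorem mem_LL_sub_iff (S : Finset (Place F)) (m : Place F →₀ ℤ) (hm' : ∀ v ∉ S, m v = 0)
    (hm : ∀ v ∈ S, 0 ≤ m v)
    (D : Place F →₀ ℤ) (hD : ∀ v ∈ S, D v = 0) (z : F) :
    z ∈ LL p (D - m) ↔ z ∈ LL p D ∧ ∀ v ∈ S, v.val z ≤ exp (-m v) := by
  constructor
  · intro h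
    refine ⟨fun v hv => (h v hv).trans ?_, fun v hv => ?_⟩
    · rw [exp_le_exp, Finsupp.sub_apply]
      by_cases hvS : v ∈ S
      · have := hm v hvS; linarith
      · rw [hm' v hvS]; linarith
    · have := h v (Set.mem_univ v)
      rw [Finsupp.sub_apply, hD v hv, zero_sub] at this
      exact this
  · rintro ⟨h1, h2⟩ v hv
    rw [Finsupp.sub_apply]
    by_cases hvS : v ∈ S
    · rw [hD v hvS, zero_sub]; exact h2 v hvS
    · rw [hm' v hvS, sub_zero]; exact h1 v hv

/-- Approximation of a function, integral at `S`, by a section of a divisor of large degree. -/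
theorem exists_base (hF : IsFunctionField (ZMod p) F) {γ c : ℤ}
    (hc : ∀ D : Place F →₀ ℤ, c ≤ degD p D → (ell p D : ℤ) = degD p D - γ)
    (S : Finset (Place F)) (m : Place F →₀ ℤ) (hm' : ∀ v ∉ S, m v = 0)
    (hm : ∀ v ∈ S, 0 ≤ m v)
    (D : Place F →₀ ℤ) (hD : ∀ v ∈ S, D v = 0) (hdeg : c + degD p m ≤ degD p D) (h : F)
    (hh : ∀ v ∈ S, v.val h ≤ 1) :
    ∃ z ∈ LL p D, ∀ v ∈ S, v.val (z - h) ≤ exp (-m v) := by
  classical
  have hm0 : ∀ v, 0 ≤ m v := by
    intro v
    by_cases hvS : v ∈ S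
    · exact hm v hvS
    · rw [hm' v hvS]
  have hdm := degD_nonneg p hm0
  set H := (LL p D).toAddSubgroup with hH
  set K := (RR p (S : Set (Place F)) (-m)).toAddSubgroup with hK
  set V := (RR p (S : Set (Place F)) 0).toAddSubgroup with hV
  have hp1 : (1 : ℝ) < p := by exact_mod_cast hp.out.one_lt
  have hp0 : (0 : ℝ) < p := by linarith
  have hHV : H ≤ V := by
    intro z hz v hv
    have := hz v (Set.mem_univ v)
    rw [hD v hv] at this
    exact this
  have hKV : K ≤ V := RR_mono p (fun v _ => by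
    rw [Finsupp.neg_apply, Finsupp.coe_zero, Pi.zero_apply]; have := hm0 v; linarith)
  -- the index of K in V
  obtain ⟨n, hn, hn0, -, -, hn1⟩ := relIndex_eq p hF (S : Set (Place F)) (-m) 0 (by
      intro v
      rw [Finsupp.neg_apply, Finsupp.coe_zero, Pi.zero_apply]; have := hm0 v; linarith) (by
      intro v hv
      by_contra h
      exact hv (by rw [Finsupp.neg_apply, hm' v h]; simp))
  have hn2 := hn1 S.finite_toSet
  rw [degD_zero, degD_neg, zero_sub, neg_neg] at hn2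
  -- the index of K in H
  have hKH : (K.relIndex H : ℝ) = (p : ℝ) ^ (degD p m) := by
    have h1 : K ⊓ H = (LL p (D - m)).toAddSubgroup := by
      ext z
      rw [AddSubgroup.mem_inf]
      have := mem_LL_sub_iff p S m hm' hm D hD z
      constructor
      · rintro ⟨h2, h3⟩
        exact this.2 ⟨h3, fun v hv => by simpa using h2 v hv⟩
      · intro h2
        exact ⟨fun v hv => by simpa using (this.1 h2).2 v hv, (this.1 h2).1⟩
    rw [← AddSubgroup.inf_relIndex_right, h1]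
    have h2 := AddSubgroup.card_mul_index ((LL p (D - m)).toAddSubgroup.addSubgroupOf H)
    have hle : (LL p (D - m)).toAddSubgroup ≤ H := by rw [← h1]; exact inf_le_right
    have h3 : Nat.card ((LL p (D - m)).toAddSubgroup.addSubgroupOf H) =
        Nat.card (LL p (D - m)) :=
      Nat.card_congr (AddSubgroup.addSubgroupOfEquivOfLe (H := (LL p (D - m)).toAddSubgroup)
        (K := H) hle).toEquiv
    rw [h3, card_LL p hF] at h2
    have h4 : Nat.card H = p ^ ell p D := card_LL p hF D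
    rw [h4] at h2
    have h5 := hc D (by linarith)
    have h6 := hc (D - m) (by rw [degD_sub]; linarith)
    rw [degD_sub] at h6
    have h7 : (p : ℝ) ^ (ell p (D - m) : ℤ) * ((LL p (D - m)).toAddSubgroup.relIndex H : ℝ) =
        (p : ℝ) ^ (ell p D : ℤ) := by
      rw [zpow_natCast, zpow_natCast]
      exact_mod_cast h2
    have h8 : (p : ℝ) ^ (ell p D : ℤ) = (p : ℝ) ^ (ell p (D - m) : ℤ) * (p : ℝ) ^ (degD p m) := by
      rw [← zpow_add₀ hp0.ne']; congr 1; linarith
    rw [h8] at h7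
    exact mul_left_cancel₀ (zpow_ne_zero _ hp0.ne') h7
  have hKn : K.relIndex H = n := by
    have : (K.relIndex H : ℝ) = (n : ℝ) := by rw [hKH, hn2]
    exact_mod_cast this
  have h1 := AddSubgroup.relIndex_mul_relIndex K (H ⊔ K) V le_sup_right (sup_le hHV hKV)
  rw [AddSubgroup.relIndex_sup_right, hKn, hn] at h1
  have h2 : (H ⊔ K).relIndex V = 1 := by
    have : 0 < n := Nat.pos_of_ne_zero hn0
    nlinarith
  rw [AddSubgroup.relIndex_eq_one] at h2
  have h3 : h ∈ V := fun v hv => by simpa using hh v hv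
  obtain ⟨z, hz, k, hk, hzk⟩ := AddSubgroup.mem_sup.1 (h2 h3)
  refine ⟨z, hz, fun v hv => ?_⟩
  have h4 : z - h = -k := by rw [← hzk]; ring
  rw [h4, Valuation.map_neg]
  simpa using hk v hv

theorem sum_eq_zero_aux (hF : IsFunctionField (ZMod p) F) (S : Finset (Place F))
    (hS : S.Nonempty) (m : Place F →₀ ℤ) (hm' : ∀ v ∉ S, m v = 0)
    (hm : ∀ v ∈ S, 1 ≤ m v) (N : ℤ) (f : Place F → ℤ)
    (hR : ∀ u : F, u ≠ 0 → (∀ v ∈ S, v.val (u - 1) ≤ exp (-m v)) → N ∣ wt f (divF p hF u))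
    (h : F) (hh : ∀ v ∈ S, v.val h = 1) :
    ∃ d₀ : ℤ, ∀ d ≥ d₀, ∀ (A : Finset (Place F →₀ ℤ)),
      (∀ D, D ∈ A ↔ (∀ v, 0 ≤ D v) ∧ (∀ v ∈ S, D v = 0) ∧ degD p D = d) →
      ∀ {E : Type*} [Field E] [CharZero E] (ω : E), ω ≠ 0 → ω ^ N = 1 →
        ω ^ (wt f (divF p hF h)) ≠ 1 → ∑ D ∈ A, ω ^ (wt f D) = 0 := by
  classical
  obtain ⟨γ, c, hc⟩ := exists_riemann p hF
  have hm0 : ∀ v ∈ S, 0 ≤ m v := fun v hv => (by have := hm v hv; linarith)
  refine ⟨c + degD p m, fun d hd A hA E _ _ ω hω0 hωN hωh => ?_⟩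
  -- the finite sets of functions
  have hfin : ∀ (D : Place F →₀ ℤ) (g : F),
      {z : F | z ∈ LL p D ∧ ∀ v ∈ S, v.val (z - g) ≤ exp (-m v)}.Finite := by
    intro D g
    have := finite_LL p hF D
    exact Set.Finite.subset (Set.toFinite (LL p D : Set F)) (fun z hz => hz.1)
  let G : (Place F →₀ ℤ) → F → Finset F := fun D g => (hfin D g).toFinset
  have hG : ∀ D g z, z ∈ G D g ↔ z ∈ LL p D ∧ ∀ v ∈ S, v.val (z - g) ≤ exp (-m v) := by
    intro D g z
    simp [G]
  obtain ⟨v₀, hv₀⟩ := hS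
  have hlt1 : ∀ v ∈ S, exp (-m v) < (1 : ℤᵐ⁰) := by
    intro v hv
    rw [← exp_zero, exp_lt_exp]
    have := hm v hv
    linarith
  have hunit : ∀ g : F, (∀ v ∈ S, v.val g = 1) → ∀ z : F,
      (∀ v ∈ S, v.val (z - g) ≤ exp (-m v)) → ∀ v ∈ S, v.val z = 1 := by
    intro g hg z hz v hv
    have h1 : v.val (z - g) < v.val g := by
      rw [hg v hv]; exact (hz v hv).trans_lt (hlt1 v hv)
    have h2 : z = g + (z - g) := by ring
    rw [h2, Valuation.map_add_eq_of_lt_left _ h1, hg v hv]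
  have hne : ∀ g : F, (∀ v ∈ S, v.val g = 1) → ∀ z : F,
      (∀ v ∈ S, v.val (z - g) ≤ exp (-m v)) → z ≠ 0 := by
    rintro g hg z hz rfl
    have := hunit g hg 0 hz v₀ hv₀
    rw [map_zero] at this
    exact zero_ne_one this
  -- cardinalities
  have hcard : ∀ D ∈ A, ∀ g : F, (∀ v ∈ S, v.val g = 1) →
      ((G D g).card : ℤ) = (p : ℤ) ^ (d - degD p m - γ).toNat := by
    intro D hD g hg
    rw [hA] at hD
    obtain ⟨hD0, hDS, hDd⟩ := hD
    obtain ⟨z₀, hz₀, hz₀'⟩ := exists_base p hF hc S m hm' hm0 D hDS (by rw [hDd]; exact hd) g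
      (fun v hv => (hg v hv).le)
    have h1 : Nat.card (LL p (D - m)) = (G D g).card := by
      have h10 : (G D g).card = Nat.card {z : F | z ∈ LL p D ∧ ∀ v ∈ S, v.val (z - g) ≤ exp (-m v)} :=
        (Nat.card_eq_card_finite_toFinset (hfin D g)).symm
      rw [h10]
      refine Nat.card_congr ?_
      refine ⟨fun z => ⟨z.1 + z₀, ?_⟩, fun z => ⟨z.1 - z₀, ?_⟩, ?_, ?_⟩
      · rw [Set.mem_ofPred_eq]
        obtain ⟨h2, h3⟩ := (mem_LL_sub_iff p S m hm' hm0 D hDS z.1).1 z.2
        refine ⟨(LL p D).add_mem h2 hz₀, fun v hv => ?_⟩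
        have h4 : z.1 + z₀ - g = z.1 + (z₀ - g) := by ring
        rw [h4]
        exact (v.val.map_add _ _).trans (max_le (h3 v hv) (hz₀' v hv))
      · rw [mem_LL_sub_iff p S m hm' hm0 D hDS]
        have h5 := z.2
        rw [Set.mem_ofPred_eq] at h5
        refine ⟨(LL p D).sub_mem h5.1 hz₀, fun v hv => ?_⟩
        have h4 : z.1 - z₀ = (z.1 - g) - (z₀ - g) := by ring
        rw [h4]
        exact (v.val.map_sub _ _).trans (max_le (h5.2 v hv) (hz₀' v hv))
      · intro z; ext; simp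
      · intro z; ext; simp
    rw [← h1, card_LL p hF]
    have h2 := hc (D - m) (by rw [degD_sub, hDd]; linarith)
    rw [degD_sub, hDd] at h2
    rw [← h2]
    push_cast
    simp
  set M : ℕ := p ^ (d - degD p m - γ).toNat with hM
  have hcardE : ∀ D ∈ A, ∀ g : F, (∀ v ∈ S, v.val g = 1) → (((G D g).card : ℕ) : E) = (M : E) := by
    intro D hD g hg
    have := hcard D hD g hg
    have h2 : (G D g).card = M := by
      rw [hM]; exact_mod_cast this
    rw [h2]
  have hM0 : (M : E) ≠ 0 := by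
    rw [hM]
    push_cast
    exact pow_ne_zero _ (by exact_mod_cast hp.out.ne_zero)
  -- the key bijection
  have htrans : ∀ g : F, (∀ v ∈ S, v.val g = 1) → ∀ D ∈ A, ∀ z ∈ G D g,
      D + divF p hF z ∈ A ∧ z⁻¹ ∈ G (D + divF p hF z) g⁻¹ := by
    intro g hg D hD z hz
    rw [hG] at hz
    have hz0 := hne g hg z hz.2
    have hzu := hunit g hg z hz.2
    rw [hA] at hD ⊢
    obtain ⟨hD0, hDS, hDd⟩ := hD
    refine ⟨⟨fun v => ?_, fun v hv => ?_, ?_⟩, ?_⟩
    · have h3 := hz.1 v (Set.mem_univ v)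
      rw [v.val_le_exp_iff hz0] at h3
      rw [Finsupp.add_apply, divF_apply]
      linarith
    · rw [Finsupp.add_apply, divF_apply, hDS v hv, (v.val_eq_one_iff hz0).1 (hzu v hv), zero_add]
    · rw [degD_add_divF, hDd]
    · rw [hG]
      refine ⟨fun v _ => ?_, fun v hv => ?_⟩
      · rw [v.val_le_exp_iff (inv_ne_zero hz0), Finsupp.add_apply, divF_apply, v.ord_inv]
        have := hD0 v
        linarith
      · have hg0 : g ≠ 0 := by
          rintro rfl
          have := hg v hv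
          rw [map_zero] at this
          exact zero_ne_one this
        have h4 : z⁻¹ - g⁻¹ = -(z - g) * (z⁻¹ * g⁻¹) := by field_simp; ring
        rw [h4, map_mul, map_mul, Valuation.map_neg, map_inv₀, map_inv₀, hzu v hv, hg v hv]
        simpa using hz.2 v hv
  have hhinv : ∀ v ∈ S, v.val h⁻¹ = 1 := by
    intro v hv; rw [map_inv₀, hh v hv, inv_one]
  -- double counting
  have hswap : ∑ D ∈ A, ∑ z ∈ G D h, ω ^ (wt f (D + divF p hF z)) =
      ∑ D ∈ A, ∑ z ∈ G D h⁻¹, ω ^ (wt f D) := by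
    rw [Finset.sum_sigma', Finset.sum_sigma']
    refine Finset.sum_bij' (fun q _ => ⟨q.1 + divF p hF q.2, q.2⁻¹⟩)
      (fun q _ => ⟨q.1 + divF p hF q.2, q.2⁻¹⟩) ?_ ?_ ?_ ?_ ?_
    · rintro ⟨D, z⟩ hq
      rw [Finset.mem_sigma] at hq ⊢
      exact htrans h hh D hq.1 z hq.2
    · rintro ⟨D, z⟩ hq
      rw [Finset.mem_sigma] at hq ⊢
      have := htrans h⁻¹ hhinv D hq.1 z hq.2
      rw [inv_inv] at this
      exact this
    · rintro ⟨D, z⟩ _
      simp [divF_inv]
    · rintro ⟨D, z⟩ _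
      simp [divF_inv]
    · rintro ⟨D, z⟩ _
      rfl
  have hLHS : ∑ D ∈ A, ∑ z ∈ G D h, ω ^ (wt f (D + divF p hF z)) =
      (M : E) * ω ^ (wt f (divF p hF h)) * ∑ D ∈ A, ω ^ (wt f D) := by
    rw [Finset.mul_sum]
    apply Finset.sum_congr rfl
    intro D hD
    have h1 : ∀ z ∈ G D h, ω ^ (wt f (D + divF p hF z)) =
        ω ^ (wt f (divF p hF h)) * ω ^ (wt f D) := by
      intro z hz
      rw [hG] at hz
      have hz0 := hne h hh z hz.2
      have hh0 : h ≠ 0 := by
        rintro rfl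
        have := hh v₀ hv₀
        rw [map_zero] at this
        exact zero_ne_one this
      have h2 : N ∣ wt f (divF p hF (z / h)) := by
        apply hR _ (div_ne_zero hz0 hh0)
        intro v hv
        have h3 : z / h - 1 = (z - h) * h⁻¹ := by field_simp
        rw [h3, map_mul, map_inv₀, hh v hv, inv_one, mul_one]
        exact hz.2 v hv
      rw [div_eq_mul_inv, divF_mul p hF hz0 (inv_ne_zero hh0), divF_inv, wt_add, wt_neg] at h2
      obtain ⟨k, hk⟩ := h2
      have h3 : wt f (divF p hF z) = N * k + wt f (divF p hF h) := by linarith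
      rw [wt_add, h3, zpow_add₀ hω0, zpow_add₀ hω0, zpow_mul, hωN, one_zpow, one_mul, mul_comm]
    rw [Finset.sum_congr rfl h1, Finset.sum_const, nsmul_eq_mul, hcardE D hD h hh]
    ring
  have hRHS : ∑ D ∈ A, ∑ z ∈ G D h⁻¹, ω ^ (wt f D) = (M : E) * ∑ D ∈ A, ω ^ (wt f D) := by
    rw [Finset.mul_sum]
    apply Finset.sum_congr rfl
    intro D hD
    rw [Finset.sum_const, nsmul_eq_mul, hcardE D hD h⁻¹ hhinv]
  rw [hLHS, hRHS] at hswap
  have h1 : (M : E) * (ω ^ (wt f (divF p hF h)) - 1) * ∑ D ∈ A, ω ^ (wt f D) = 0 := by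
    linear_combination hswap
  rcases mul_eq_zero.1 h1 with h2 | h2
  · rcases mul_eq_zero.1 h2 with h3 | h3
    · exact absurd h3 hM0
    · exact absurd (sub_eq_zero.1 h3) hωh
  · exact h2

end Pool.Agent.Helper47.Wan
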