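import Pool.Agent.Helper47.Wan.GalPlace

open scoped WithZero NNReal Polynomial
open WithZero IsLocalRing

namespace Pool.Agent.Helper47.Wan

theorem card_le_of_pow_eq {k : Type*} [Field k] [Finite k] {N : ℕ} (hN : 1 < N)
    (h : ∀ y : k, y ^ N = y) : Nat.card k ≤ N := by
  classical
  have : Fintype k := Fintype.ofFinite k
  have hne : (Polynomial.X ^ N - Polynomial.X : k[X]) ≠ 0 := by
    intro h0
    have := FiniteField.X_pow_card_sub_X_natDegree_eq k hN
    rw [h0, Polynomial.natDegree_zero] at this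
    omega
  have h1 : (Finset.univ : Finset k) ⊆ (Polynomial.X ^ N - Polynomial.X : k[X]).roots.toFinset := by
    intro y _
    rw [Multiset.mem_toFinset, Polynomial.mem_roots hne, Polynomial.IsRoot]
    simp [h y]
  have h2 := Finset.card_le_card h1
  have h3 := Multiset.toFinset_card_le (Polynomial.X ^ N - Polynomial.X : k[X]).roots
  have h4 := Polynomial.card_roots' (Polynomial.X ^ N - Polynomial.X : k[X])
  rw [FiniteField.X_pow_card_sub_X_natDegree_eq k hN] at h4
  rw [Nat.card_eq_fintype_card, ← Finset.card_univ]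
  omega

section
variable (p : ℕ) [hp : Fact p.Prime] {K L : Type*} [Field K] [Field L] [Algebra (ZMod p) K]
  [Algebra (ZMod p) L]

/-- The degree of a place below divides the degree of a place above. -/
theorem Over.exists_deg_eq (hK : IsFunctionField (ZMod p) K) (hL : IsFunctionField (ZMod p) L)
    {φ : K →+* L} {w : Place L} {v : Place K} (h : Over φ w v) :
    letI := h.res.toAlgebra
    w.deg p = Module.finrank v.Res w.Res * v.deg p ∧ 0 < Module.finrank v.Res w.Res := by
  let _ := h.res.toAlgebra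
  have := v.finite_res p hK
  have := w.finite_res p hL
  have : Module.Finite v.Res w.Res := Module.Finite.of_finite
  have h1 := Module.natCard_eq_pow_finrank (K := v.Res) (V := w.Res)
  rw [(v.card_res p hK).1, (w.card_res p hL).1, ← pow_mul] at h1
  have h2 := Nat.pow_right_injective hp.out.two_le h1
  refine ⟨by rw [mul_comm]; exact h2, Module.finrank_pos⟩

theorem Over.deg_dvd (hK : IsFunctionField (ZMod p) K) (hL : IsFunctionField (ZMod p) L)
    {φ : K →+* L} {w : Place L} {v : Place K} (h : Over φ w v) : v.deg p ∣ w.deg p :=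
  Dvd.intro_left _ (h.exists_deg_eq p hK hL).1.symm

end

section
variable {K L : Type*} [Field K] [Field L] [Algebra K L]

/-- An inertia element. -/
def IsInert (τ : L ≃ₐ[K] L) (w : Place L) : Prop := ∀ z, w.val z ≤ 1 → w.val (τ z - z) < 1

theorem IsInert.smul_eq {τ : L ≃ₐ[K] L} {w : Place L} (h : IsInert τ w) : τ • w = w := by
  apply smul_eq_of_forall
  intro z hz
  have h1 : τ z = (τ z - z) + z := by ring
  rw [h1]
  exact (w.val.map_add _ _).trans (max_le (h z hz).le hz)

theorem isInert_of_frob {σ σ' : L ≃ₐ[K] L} {w : Place L} {v : Place K} (h : IsFrob σ w v)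
    (h' : IsFrob σ' w v) : IsInert (σ⁻¹ * σ') w := by
  intro z hz
  have h1 : w.val (σ' z - σ z) < 1 := by
    have : σ' z - σ z = (σ' z - z ^ Nat.card v.Res) - (σ z - z ^ Nat.card v.Res) := by ring
    rw [this]
    exact (w.val.map_sub _ _).trans_lt (max_lt (h' z hz) (h z hz))
  have h2 : σ⁻¹ • w = w := by
    conv_lhs => rw [← h.smul_eq]
    rw [inv_smul_smul]
  have h3 : (σ⁻¹ * σ') z - z = σ⁻¹ (σ' z - σ z) := by
    rw [map_sub, AlgEquiv.mul_apply]
    congr 1
    exact (AlgEquiv.symm_apply_apply σ z).symm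
  rw [h3, val_apply_of_smul_eq h2]
  exact h1

theorem IsFrob.conj {σ : L ≃ₐ[K] L} {w : Place L} {v : Place K} (h : IsFrob σ w v)
    (g : L ≃ₐ[K] L) : IsFrob (g * σ * g⁻¹) (g • w) v := by
  intro z hz
  rw [smul_val] at hz ⊢
  have h1 := h (g⁻¹ z) hz
  have h2 : g⁻¹ ((g * σ * g⁻¹) z - z ^ Nat.card v.Res) =
      σ (g⁻¹ z) - (g⁻¹ z) ^ Nat.card v.Res := by
    rw [map_sub, map_pow]
    congr 1
    change g.symm (g (σ (g⁻¹ z))) = _
    rw [AlgEquiv.symm_apply_apply]
  rw [h2]
  exact h1

theorem IsFrob.pow {σ : L ≃ₐ[K] L} {w : Place L} {v : Place K} (h : IsFrob σ w v) (i : ℕ) :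
    ∀ z, w.val z ≤ 1 → w.val ((σ ^ i) z - z ^ ((Nat.card v.Res) ^ i)) < 1 := by
  induction i with
  | zero => intro z _; simp
  | succ i ih =>
    intro z hz
    have h1 := ih z hz
    have h2 : w.val (σ ((σ ^ i) z - z ^ ((Nat.card v.Res) ^ i))) < 1 := by
      rw [val_apply_of_smul_eq h.smul_eq]; exact h1
    have h3 := h (z ^ ((Nat.card v.Res) ^ i)) (by rw [map_pow]; exact pow_le_one' hz _)
    have h4 : (σ ^ (i + 1)) z - z ^ ((Nat.card v.Res) ^ (i + 1)) =
        σ ((σ ^ i) z - z ^ ((Nat.card v.Res) ^ i)) +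
        (σ (z ^ ((Nat.card v.Res) ^ i)) - (z ^ ((Nat.card v.Res) ^ i)) ^ (Nat.card v.Res)) := by
      rw [map_sub, pow_succ' σ i, AlgEquiv.mul_apply, ← pow_mul, ← pow_succ]
      ring
    rw [h4]
    exact (w.val.map_add _ _).trans_lt (max_lt h2 h3)

end

section
variable (p : ℕ) [hp : Fact p.Prime] {K L : Type*} [Field K] [Field L] [Algebra (ZMod p) K]
  [Algebra (ZMod p) L] [Algebra K L]

/-- If a power of Frobenius is an inertia element, the residue field is small. -/
theorem IsFrob.deg_le (hK : IsFunctionField (ZMod p) K) (hL : IsFunctionField (ZMod p) L)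
    {σ : L ≃ₐ[K] L} {w : Place L} {v : Place K} (h : IsFrob σ w v) {i : ℕ} (hi : 0 < i)
    (hin : IsInert (σ ^ i) w) : w.deg p ≤ i * v.deg p := by
  have := w.finite_res p hL
  obtain ⟨hcv, hdv⟩ := v.card_res p hK
  obtain ⟨hcw, hdw⟩ := w.card_res p hL
  have h1 : ∀ y : w.Res, y ^ ((Nat.card v.Res) ^ i) = y := by
    intro y
    obtain ⟨z, rfl⟩ := IsLocalRing.residue_surjective y
    rw [← map_pow, ← sub_eq_zero, ← map_sub, IsLocalRing.residue_eq_zero_iff,
      Valuation.mem_maximalIdeal_iff]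
    change w.val ((z : L) ^ ((Nat.card v.Res) ^ i) - (z : L)) < 1
    have h2 : (z : L) ^ ((Nat.card v.Res) ^ i) - (z : L) =
      ((σ ^ i) (z : L) - (z : L)) - ((σ ^ i) (z : L) - (z : L) ^ ((Nat.card v.Res) ^ i)) := by ring
    rw [h2]
    exact (w.val.map_sub _ _).trans_lt (max_lt (hin z z.2) (h.pow i z z.2))
  have h2 : 1 < (Nat.card v.Res) ^ i := by
    rw [hcv, ← pow_mul]
    exact Nat.one_lt_pow (by positivity) hp.out.one_lt
  have h3 := card_le_of_pow_eq h2 h1
  rw [hcv, hcw, ← pow_mul] at h3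
  have h4 := (Nat.pow_le_pow_iff_right hp.out.one_lt).1 h3
  rw [mul_comm]
  exact h4

variable [IsScalarTower (ZMod p) K L] [FiniteDimensional K L] [IsGalois K L]

theorem orderOf_frob_eq (hK : IsFunctionField (ZMod p) K) {v : Place K} {w : Place L}
    (h : Over (algebraMap K L) w v) (he : ramE (algebraMap K L) w v = 1) {σ : L ≃ₐ[K] L}
    (hσ : IsFrob σ w v) : orderOf σ = Nat.card (MulAction.stabilizer (L ≃ₐ[K] L) w) := by
  have hL := hK.of_finite p (L := L)
  have h1 := card_stabilizer p hK h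
  rw [he, one_mul] at h1
  obtain ⟨hcv, hdv⟩ := v.card_res p hK
  have ho : 0 < orderOf σ := orderOf_pos σ
  have h2 := hσ.deg_le p hK hL ho (by
    rw [pow_orderOf_eq_one]
    intro z _
    simp)
  apply le_antisymm
  · rw [← Nat.card_zpowers]
    apply Nat.card_le_card_of_injective
      (Subgroup.inclusion (H := Subgroup.zpowers σ)
        (K := MulAction.stabilizer (L ≃ₐ[K] L) w) (by
          rw [Subgroup.zpowers_le, MulAction.mem_stabilizer_iff]
          exact hσ.smul_eq))
    exact Subgroup.inclusion_injective _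
  · rw [← h1] at h2
    exact Nat.le_of_mul_le_mul_right h2 hdv

theorem orderOf_frob (hK : IsFunctionField (ZMod p) K) {v : Place K} {w : Place L}
    (h : Over (algebraMap K L) w v) (he : ramE (algebraMap K L) w v = 1) {σ : L ≃ₐ[K] L}
    (hσ : IsFrob σ w v) : orderOf σ * v.deg p = w.deg p := by
  rw [orderOf_frob_eq p hK h he hσ, card_stabilizer p hK h, he, one_mul]

include p in
theorem inertia_eq_one (hK : IsFunctionField (ZMod p) K) {v : Place K} {w : Place L}
    (h : Over (algebraMap K L) w v) (he : ramE (algebraMap K L) w v = 1) {τ : L ≃ₐ[K] L}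
    (hτ : ∀ z, w.val z ≤ 1 → w.val (τ z - z) < 1) : τ = 1 := by
  classical
  have hL := hK.of_finite p (L := L)
  obtain ⟨σ, hσ⟩ := exists_isFrob p hK h
  have h1 := orderOf_frob_eq p hK h he hσ
  have h2 := orderOf_frob p hK h he hσ
  obtain ⟨hcv, hdv⟩ := v.card_res p hK
  have hin : IsInert τ w := hτ
  have hle : Subgroup.zpowers σ ≤ MulAction.stabilizer (L ≃ₐ[K] L) w := by
    rw [Subgroup.zpowers_le, MulAction.mem_stabilizer_iff]
    exact hσ.smul_eq
  have heq : Subgroup.zpowers σ = MulAction.stabilizer (L ≃ₐ[K] L) w := by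
    apply Subgroup.eq_of_le_of_card_ge hle
    rw [Nat.card_zpowers, h1]
  have h3 : τ ∈ Subgroup.zpowers σ := by
    rw [heq, MulAction.mem_stabilizer_iff]
    exact hin.smul_eq
  rw [← mem_powers_iff_mem_zpowers, mem_powers_iff_mem_range_orderOf, Finset.mem_image] at h3
  obtain ⟨j, hj, rfl⟩ := h3
  rw [Finset.mem_range] at hj
  rcases Nat.eq_zero_or_pos j with h0 | h0
  · rw [h0]; simp
  · exfalso
    have h4 := hσ.deg_le p hK hL h0 hin
    rw [← h2] at h4
    have := Nat.le_of_mul_le_mul_right h4 hdv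
    omega

include p in
theorem isFrob_unique (hK : IsFunctionField (ZMod p) K) {v : Place K} {w : Place L}
    (h : Over (algebraMap K L) w v) (he : ramE (algebraMap K L) w v = 1) {σ σ' : L ≃ₐ[K] L}
    (hσ : IsFrob σ w v) (hσ' : IsFrob σ' w v) : σ = σ' := by
  have h1 := inertia_eq_one p hK h he (isInert_of_frob hσ hσ')
  exact inv_mul_eq_one.1 h1

include p in
theorem isFrob_unique' (hK : IsFunctionField (ZMod p) K) (hcomm : ∀ g h : L ≃ₐ[K] L, g * h = h * g)
    {v : Place K} {w w' : Place L} (h : Over (algebraMap K L) w v)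
    (h' : Over (algebraMap K L) w' v)
    (he : ramE (algebraMap K L) w v = 1) {σ σ' : L ≃ₐ[K] L}
    (hσ : IsFrob σ w v) (hσ' : IsFrob σ' w' v) : σ = σ' := by
  obtain ⟨g, rfl⟩ := exists_smul_eq p hK h' h
  have h1 := hσ'.conj g
  rw [hcomm g σ', mul_assoc, mul_inv_cancel, mul_one] at h1
  exact isFrob_unique p hK h he hσ h1

omit [Algebra (ZMod p) K] [Algebra (ZMod p) L] [IsScalarTower (ZMod p) K L]
  [FiniteDimensional K L] [IsGalois K L] hp in
theorem over_of_smul_eq {δ : L ≃ₐ[K] L} {w : Place L} (h : δ • w = w) :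
    Over (δ : L →+* L) w w := by
  intro z
  change w.val (δ z) ≤ 1 ↔ _
  rw [val_apply_of_smul_eq h]

include p in
/-- At a ramified place there is a nontrivial inertia element. -/
theorem exists_isInert (hK : IsFunctionField (ZMod p) K) {v : Place K} {w : Place L}
    (h : Over (algebraMap K L) w v) (he : 1 < ramE (algebraMap K L) w v) :
    ∃ τ : L ≃ₐ[K] L, τ ≠ 1 ∧ IsInert τ w := by
  classical
  have hL := hK.of_finite p (L := L)
  obtain ⟨hf1, hf2⟩ := h.exists_deg_eq p hK hL
  let _ := h.res.toAlgebra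
  have := v.finite_res p hK
  have := w.finite_res p hL
  have : Module.Finite v.Res w.Res := Module.Finite.of_finite
  obtain ⟨hcv, hdv⟩ := v.card_res p hK
  have h1 := card_stabilizer p hK h
  rw [hf1, ← mul_assoc] at h1
  have h2 := Nat.eq_of_mul_eq_mul_right hdv h1
  have h3 : Fintype.card (w.Res →ₐ[v.Res] w.Res) ≤ Module.finrank v.Res w.Res :=
    AlgHom.card_le
  have h4 : Fintype.card (w.Res →ₐ[v.Res] w.Res) <
      Fintype.card (MulAction.stabilizer (L ≃ₐ[K] L) w) := by
    rw [← Nat.card_eq_fintype_card (α := MulAction.stabilizer (L ≃ₐ[K] L) w), h2]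
    refine lt_of_le_of_lt h3 ?_
    nlinarith
  let ρ : MulAction.stabilizer (L ≃ₐ[K] L) w → (w.Res →ₐ[v.Res] w.Res) := fun δ =>
    { (over_of_smul_eq (MulAction.mem_stabilizer_iff.1 δ.2)).res with
      commutes' := by
        intro y
        obtain ⟨z, rfl⟩ := IsLocalRing.residue_surjective y
        change (over_of_smul_eq (MulAction.mem_stabilizer_iff.1 δ.2)).res (h.res _) = h.res _
        rw [Over.res_residue, Over.res_residue]
        congr 1
        ext
        rw [Over.coe_ringMap, Over.coe_ringMap]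
        exact δ.1.commutes _ }
  have hρ : ¬ Function.Injective ρ := fun hinj =>
    absurd (Fintype.card_le_of_injective ρ hinj) (not_le.2 h4)
  rw [Function.Injective] at hρ
  push Not at hρ
  obtain ⟨δ₁, δ₂, hδ, hne⟩ := hρ
  have hs1 := MulAction.mem_stabilizer_iff.1 δ₁.2
  have hs2 := MulAction.mem_stabilizer_iff.1 δ₂.2
  refine ⟨(δ₁ : L ≃ₐ[K] L)⁻¹ * δ₂, ?_, ?_⟩
  · intro h0
    exact hne (Subtype.ext (inv_mul_eq_one.1 h0))
  · intro z hz
    have h5 : (over_of_smul_eq hs1).res (IsLocalRing.residue w.ring ⟨z, hz⟩) =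
        (over_of_smul_eq hs2).res (IsLocalRing.residue w.ring ⟨z, hz⟩) :=
      DFunLike.congr_fun hδ _
    rw [Over.res_residue, Over.res_residue, eq_comm, ← sub_eq_zero, ← map_sub,
      IsLocalRing.residue_eq_zero_iff, Valuation.mem_maximalIdeal_iff] at h5
    have h6 : w.val (δ₂.1 z - δ₁.1 z) < 1 := h5
    have h7 : (δ₁ : L ≃ₐ[K] L)⁻¹ • w = w := inv_smul_eq_iff.2 hs1.symm
    have h8 : ((δ₁ : L ≃ₐ[K] L)⁻¹ * δ₂) z - z = (δ₁ : L ≃ₐ[K] L)⁻¹ (δ₂.1 z - δ₁.1 z) := by
      rw [map_sub, AlgEquiv.mul_apply]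
      congr 1
      exact (AlgEquiv.symm_apply_apply δ₁.1 z).symm
    rw [h8, val_apply_of_smul_eq h7]
    exact h6

end

end Pool.Agent.Helper47.Wan
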