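import Pool.Agent.Helper47.Wan.Unram

open scoped WithZero NNReal Polynomial
open WithZero IsLocalRing

namespace Pool.Agent.Helper47.Wan

/-- A function field over a finite field `k` is a function field over the prime field. -/
theorem IsFunctionField.of_k (p : ℕ) [hp : Fact p.Prime] {k F : Type*} [Field k] [Finite k]
    [Field F] [Algebra k F] [Algebra (ZMod p) k] [Algebra (ZMod p) F] [IsScalarTower (ZMod p) k F]
    (hF : IsFunctionField k F) : IsFunctionField (ZMod p) F := by
  obtain ⟨t, ht, hfin⟩ := hF
  have ht' : Transcendental (ZMod p) t := fun h => ht (h.tower_top k)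
  refine ⟨t, ht', ?_⟩
  set E₀ := IntermediateField.adjoin (ZMod p) {t} with hE₀
  set E₁ := IntermediateField.adjoin E₀ (Set.range (algebraMap k F)) with hE₁
  have hfinS : Finite (Set.range (algebraMap k F)) := Set.finite_range _
  have h1 : FiniteDimensional E₀ E₁ := by
    apply IntermediateField.finiteDimensional_adjoin
    rintro _ ⟨c, rfl⟩
    have hfk : FiniteDimensional (ZMod p) k := Module.Finite.of_finite
    have h2 : IsIntegral (ZMod p) c := Algebra.IsIntegral.isIntegral c
    have h3 : IsIntegral (ZMod p) (algebraMap k F c) := h2.algebraMap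
    exact h3.tower_top
  have h2 : FiniteDimensional E₁ F := by
    obtain ⟨s, hs⟩ := (hfin : Module.Finite (IntermediateField.adjoin k {t}) F).fg_top
    refine ⟨⟨s, ?_⟩⟩
    rw [eq_top_iff]
    intro z _
    have hz : z ∈ Submodule.span (IntermediateField.adjoin k {t}) (s : Set F) := by
      rw [hs]; trivial
    have hle : ∀ c ∈ IntermediateField.adjoin k {t}, c ∈ E₁ := by
      intro c hc
      -- `E₁` as a field containing `k` and `t`
      have hkE : ∀ a : k, algebraMap k F a ∈ E₁ := fun a =>
        IntermediateField.subset_adjoin E₀ _ ⟨a, rfl⟩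
      let E₂ : IntermediateField k F := E₁.toSubfield.toIntermediateField hkE
      have htE : t ∈ E₁ := by
        have : algebraMap E₀ F ⟨t, IntermediateField.mem_adjoin_simple_self (ZMod p) t⟩ ∈ E₁ :=
          E₁.algebraMap_mem _
        exact this
      have h4 : IntermediateField.adjoin k {t} ≤ E₂ := by
        rw [IntermediateField.adjoin_le_iff, Set.singleton_subset_iff]
        exact htE
      exact h4 hc
    induction hz using Submodule.span_induction with
    | mem y hy => exact Submodule.subset_span hy
    | zero => exact Submodule.zero_mem _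
    | add y z _ _ hy hz => exact Submodule.add_mem _ (hy trivial) (hz trivial)
    | smul c y _ hy =>
      exact Submodule.smul_mem _ (⟨(c : F), hle c c.2⟩ : E₁) (hy trivial)
  exact Module.Finite.trans (R := E₀) E₁ F

end Pool.Agent.Helper47.Wan
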