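import Mathlib

open scoped WithZero

namespace Pool.Agent.Helper47.Wan

/-- A place of a field `F`: a normalised discrete valuation of `F`, that is, a valuation onto
`{0} ∪ exp ℤ`. For the function field of a smooth projective curve over a finite field these are
the closed points of the curve. -/
structure Place (F : Type*) [Field F] where
  /-- the normalised discrete valuation -/
  val : Valuation F ℤᵐ⁰
  surj : Function.Surjective val

/-- The valuation ring of a place. -/
abbrev Place.ring {F : Type*} [Field F] (v : Place F) : ValuationSubring F :=
  v.val.valuationSubring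

/-- The residue field of a place. -/
abbrev Place.Res {F : Type*} [Field F] (v : Place F) : Type _ :=
  IsLocalRing.ResidueField v.ring

/-- `F` is a function field in one variable over `k`: there is `t` in `F`, transcendental over
`k`, such that `F` is a finite extension of `k(t)`. -/
def IsFunctionField (k F : Type*) [Field k] [Field F] [Algebra k F] : Prop :=
  ∃ t : F, Transcendental k t ∧ FiniteDimensional (IntermediateField.adjoin k {t}) F

/-- The degree over the finite field `k` of a place `v`: the integer `d` such that the residue
field of `v` has `|k| ^ d` elements. -/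
noncomputable def placeDegree (k : Type*) {F : Type*} [Field F] (v : Place F) : ℕ :=
  Nat.log (Nat.card k) (Nat.card v.Res)

open scoped PowerSeries.WithPiTopology in
/-- `P` is the numerator of the zeta function of the curve over the finite field `k` with
function field `F`: the product `Z` of `(1 - X ^ deg v)⁻¹` over all places `v` converges
(coefficientwise), and `P = (1 - X) (1 - |k| X) Z`. -/
def IsZetaNumerator (k F : Type*) [Field F] (P : Polynomial ℤ) : Prop :=
  ∃ Z : PowerSeries ℤ,
    HasProd (fun v : Place F =>
      PowerSeries.invOfUnit (1 - PowerSeries.X ^ placeDegree k v : PowerSeries ℤ) 1) Z ∧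
    (P : PowerSeries ℤ) =
      (1 - PowerSeries.X) * (1 - (Nat.card k : PowerSeries ℤ) * PowerSeries.X) * Z

/-- The place `v` of `K` is unramified in the extension `L`: every place `w` of `L` above `v`
(the valuation ring of `w` meets `K` in that of `v`) restricts to `v`, as a normalised
valuation. -/
def IsUnramifiedIn {K : Type*} [Field K] (L : Type*) [Field L] [Algebra K L] (v : Place K) :
    Prop :=
  ∀ w : Place L, (∀ z : K, w.val (algebraMap K L z) ≤ 1 ↔ v.val z ≤ 1) →
    ∀ z : K, w.val (algebraMap K L z) = v.val z

/-- The `n`-th layer of a `ℤ_p`-extension `Ω / K`: the fixed field of `p ^ n ℤ_p`. -/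
noncomputable def towerLayer {p : ℕ} [Fact p.Prime] {K Ω : Type*} [Field K] [Field Ω]
    [Algebra K Ω] (e : Gal(Ω/K) ≃ₜ* Multiplicative ℤ_[p]) (n : ℕ) : IntermediateField K Ω :=
  IntermediateField.fixedField
    (Subgroup.comap (e : Gal(Ω/K) →* Multiplicative ℤ_[p])
      (AddSubgroup.toSubgroup (Ideal.span {(p : ℤ_[p]) ^ n}).toAddSubgroup))

/-- The splitting field over `ℚ_p`, inside an algebraic closure, of a polynomial with integer
coefficients. -/
noncomputable def padicSplittingField (p : ℕ) [Fact p.Prime] (P : Polynomial ℤ) :
    IntermediateField ℚ_[p] (AlgebraicClosure ℚ_[p]) :=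
  IntermediateField.adjoin ℚ_[p]
    ((P.map (Int.castRingHom ℚ_[p])).rootSet (AlgebraicClosure ℚ_[p]))

/-- The ramification index over `ℚ_p` of a field `L` between `ℚ_p` and its algebraic closure:
the ramification index over `p ℤ_p` of the prime above it of the integral closure of `ℤ_p` in
`L`. -/
noncomputable def padicRamIdx (p : ℕ) [Fact p.Prime]
    (L : IntermediateField ℚ_[p] (AlgebraicClosure ℚ_[p])) : ℕ :=
  (IsLocalRing.maximalIdeal ℤ_[p]).ramificationIdxIn (integralClosure ℤ_[p] L)

end Pool.Agent.Helper47.Wan
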