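import Pool.Agent.Helper47.Wan.DegZero

open scoped WithZero NNReal Polynomial
open WithZero IsLocalRing

namespace Pool.Agent.Helper47.Wan

variable (p : ℕ) [hp : Fact p.Prime] {F : Type*} [Field F] [Algebra (ZMod p) F]

theorem adjoin_inv (x : F) : IntermediateField.adjoin (ZMod p) {x⁻¹} =
    IntermediateField.adjoin (ZMod p) {x} := by
  apply le_antisymm
  · rw [IntermediateField.adjoin_le_iff, Set.singleton_subset_iff]
    exact inv_mem (IntermediateField.mem_adjoin_simple_self _ x)
  · rw [IntermediateField.adjoin_le_iff, Set.singleton_subset_iff]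
    have := inv_mem (IntermediateField.mem_adjoin_simple_self (ZMod p) x⁻¹)
    rwa [inv_inv] at this

theorem degD_sum {ι : Type*} (s : Finset ι) (D : ι → Place F →₀ ℤ) :
    degD p (∑ i ∈ s, D i) = ∑ i ∈ s, degD p (D i) := by
  classical
  induction s using Finset.induction with
  | empty => simp [degD_zero]
  | insert a s ha ih => rw [Finset.sum_insert ha, Finset.sum_insert ha, degD_add, ih]

theorem degD_smul (n : ℕ) (D : Place F →₀ ℤ) : degD p (n • D) = n * degD p D := by
  induction n with
  | zero => simp [degD_zero]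
  | succ n ih => rw [succ_nsmul, degD_add, ih]; push_cast; ring

theorem degD_nonneg {D : Place F →₀ ℤ} (hD : ∀ v, 0 ≤ D v) : 0 ≤ degD p D := by
  rw [degD, Finsupp.sum]
  apply Finset.sum_nonneg
  intro v _
  exact mul_nonneg (hD v) (Int.natCast_nonneg _)

theorem exists_bound (hF : IsFunctionField (ZMod p) F) {x : F}
    (hx : Transcendental (ZMod p) x) :
    ∃ C : Place F →₀ ℤ, (∀ v, 0 ≤ C v) ∧ ∀ l : ℕ,
      (Module.finrank (IntermediateField.adjoin (ZMod p) {x}) F : ℤ) * (l + 1) ≤
        ell p (l • zeroD p hF x⁻¹ + C) := by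
  classical
  have hfd := hF.finiteDimensional hx
  have hx0 : x ≠ 0 := by rintro rfl; exact hx isAlgebraic_zero
  set n := Module.finrank (IntermediateField.adjoin (ZMod p) {x}) F with hn
  let b := Module.finBasis (IntermediateField.adjoin (ZMod p) {x}) F
  set B := zeroD p hF x⁻¹ with hB
  set C : Place F →₀ ℤ := ∑ i, zeroD p hF (b i)⁻¹ with hC
  have hCv : ∀ v, 0 ≤ C v := by
    intro v
    rw [hC, Finsupp.finsetSum_apply]
    apply Finset.sum_nonneg
    intro i _
    rw [zeroD_apply]; exact le_max_right _ _
  have hCi : ∀ v i, - v.ord (b i) ≤ C v := by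
    intro v i
    rw [hC, Finsupp.finsetSum_apply]
    have h1 : - v.ord (b i) ≤ zeroD p hF (b i)⁻¹ v := by
      rw [zeroD_apply, v.ord_inv]; exact le_max_left _ _
    refine h1.trans ?_
    exact Finset.single_le_sum (f := fun i => zeroD p hF (b i)⁻¹ v)
      (fun j _ => by rw [zeroD_apply]; exact le_max_right _ _) (Finset.mem_univ i)
  refine ⟨C, hCv, ?_⟩
  · intro l
    have hmem : ∀ (j : Fin (l + 1)) (i : Fin n), x ^ (j : ℕ) * b i ∈ LL p (l • B + C) := by
      intro j i v _
      have hxb : x ^ (j : ℕ) * b i ≠ 0 := mul_ne_zero (pow_ne_zero _ hx0) (b.ne_zero i)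
      rw [v.val_le_exp_iff hxb, v.ord_mul (pow_ne_zero _ hx0) (b.ne_zero i), v.ord_pow,
        Finsupp.add_apply, Finsupp.smul_apply, nsmul_eq_mul, hB, zeroD_apply, v.ord_inv]
      have h1 := hCi v i
      have h2 : -((l : ℤ) * max (- v.ord x) 0) ≤ (j : ℕ) * v.ord x := by
        have hj : ((j : ℕ) : ℤ) ≤ l := by have := j.2; omega
        have h3 : 0 ≤ max (- v.ord x) 0 := le_max_right _ _
        have h4 : - v.ord x ≤ max (- v.ord x) 0 := le_max_left _ _
        have h5 : ((j : ℕ) : ℤ) * (max (- v.ord x) 0) ≤ l * max (- v.ord x) 0 :=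
          mul_le_mul_of_nonneg_right hj h3
        have h6 : ((j : ℕ) : ℤ) * (- v.ord x) ≤ (j : ℕ) * max (- v.ord x) 0 :=
          mul_le_mul_of_nonneg_left h4 (Int.natCast_nonneg _)
        linarith
      linarith
    have hli0 : LinearIndependent (ZMod p) (fun j : Fin (l + 1) =>
        (⟨x, IntermediateField.mem_adjoin_simple_self _ x⟩ :
          IntermediateField.adjoin (ZMod p) {x}) ^ (j : ℕ)) := by
      have h1 : Transcendental (ZMod p) (⟨x, IntermediateField.mem_adjoin_simple_self _ x⟩ :
          IntermediateField.adjoin (ZMod p) {x}) := by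
        intro h
        apply hx
        exact h.algebraMap (A := F)
      have h2 := (transcendental_iff_injective.1 h1)
      have h3 : LinearIndependent (ZMod p) (fun j : ℕ =>
        (⟨x, IntermediateField.mem_adjoin_simple_self _ x⟩ :
          IntermediateField.adjoin (ZMod p) {x}) ^ j) := by
        have h4 := (Polynomial.basisMonomials (ZMod p)).linearIndependent.map' 
          (Polynomial.aeval (⟨x, IntermediateField.mem_adjoin_simple_self _ x⟩ :
          IntermediateField.adjoin (ZMod p) {x})).toLinearMap (LinearMap.ker_eq_bot.2 h2)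
        have h5 : (fun j : ℕ => (⟨x, IntermediateField.mem_adjoin_simple_self _ x⟩ :
            IntermediateField.adjoin (ZMod p) {x}) ^ j) =
          (Polynomial.aeval (⟨x, IntermediateField.mem_adjoin_simple_self _ x⟩ :
          IntermediateField.adjoin (ZMod p) {x})).toLinearMap ∘
            (Polynomial.basisMonomials (ZMod p)) := by
          funext j
          simp
        rw [h5]
        exact h4
      exact h3.comp (fun j : Fin (l + 1) => (j : ℕ)) (fun a b h => Fin.ext h)
    have hli := linearIndependent_smul hli0 b.linearIndependent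
    have hli2 : LinearIndependent (ZMod p) (fun q : Fin (l + 1) × Fin n =>
        (⟨x ^ (q.1 : ℕ) * b q.2, hmem q.1 q.2⟩ : LL p (l • B + C))) := by
      apply LinearIndependent.of_comp (LL p (l • B + C)).subtype
      have h6 : (⇑(LL p (l • B + C)).subtype ∘ fun q : Fin (l + 1) × Fin n =>
          (⟨x ^ (q.1 : ℕ) * b q.2, hmem q.1 q.2⟩ : LL p (l • B + C))) =
          fun q : Fin (l + 1) × Fin n => (⟨x, IntermediateField.mem_adjoin_simple_self _ x⟩ :
          IntermediateField.adjoin (ZMod p) {x}) ^ (q.1 : ℕ) • b q.2 := by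
        funext q
        rfl
      rw [h6]
      exact hli
    have hfin := finite_LL p hF (l • B + C)
    have : Module.Finite (ZMod p) (LL p (l • B + C)) := Module.Finite.of_finite
    have h7 := hli2.fintype_card_le_finrank
    rw [Fintype.card_prod, Fintype.card_fin, Fintype.card_fin] at h7
    have : (((l + 1) * n : ℕ) : ℤ) ≤ (ell p (l • B + C) : ℤ) := by
      exact_mod_cast h7
    push_cast at this
    linarith

theorem zeroD_nonneg (hF : IsFunctionField (ZMod p) F) (x : F) (v : Place F) :
    0 ≤ zeroD p hF x v := by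
  rw [zeroD_apply]; exact le_max_right _ _

theorem finrank_le_degD_zeroD (hF : IsFunctionField (ZMod p) F) {x : F}
    (hx : Transcendental (ZMod p) x) :
    (Module.finrank (IntermediateField.adjoin (ZMod p) {x}) F : ℤ) ≤
      degD p (zeroD p hF x⁻¹) := by
  obtain ⟨C, hCv, hC⟩ := exists_bound p hF hx
  set n := Module.finrank (IntermediateField.adjoin (ZMod p) {x}) F with hn
  set B := zeroD p hF x⁻¹ with hB
  have key : ∀ l : ℕ, (n : ℤ) * (l + 1) ≤ ell p (0 : Place F →₀ ℤ) + degD p C + l * degD p B := by
    intro l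
    have h8 := (ell_mono p hF (D := 0) (D' := l • B + C) (fun v => by
      rw [Finsupp.add_apply, Finsupp.smul_apply, nsmul_eq_mul, Finsupp.coe_zero, Pi.zero_apply]
      have h9 : 0 ≤ B v := zeroD_nonneg p hF _ v
      have := hCv v
      have := mul_nonneg (Int.natCast_nonneg l) h9
      linarith)).2
    rw [degD_zero, degD_add, degD_smul] at h8
    have h9 := hC l
    linarith
  by_contra hcon
  push Not at hcon
  have h1 : degD p B + 1 ≤ n := hcon
  set c : ℤ := ell p (0 : Place F →₀ ℤ) + degD p C with hc
  have hc0 : 0 ≤ c := by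
    have := degD_nonneg p hCv
    positivity
  have h2 := key (c.toNat)
  have h3 : ((c.toNat : ℕ) : ℤ) = c := Int.toNat_of_nonneg hc0
  rw [h3] at h2
  have h4 : 0 ≤ degD p B := degD_nonneg p (zeroD_nonneg p hF _)
  nlinarith

theorem degD_zeroD (hF : IsFunctionField (ZMod p) F) {x : F}
    (hx : Transcendental (ZMod p) x) :
    degD p (zeroD p hF x) = (Module.finrank (IntermediateField.adjoin (ZMod p) {x}) F : ℤ) := by
  apply le_antisymm (degD_zeroD_le p hF hx)
  have h1 := finrank_le_degD_zeroD p hF (transcendental_inv p hx)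
  rw [inv_inv, adjoin_inv p x] at h1
  exact h1

/-- Principal divisors have degree zero. -/
theorem degD_divF (hF : IsFunctionField (ZMod p) F) (x : F) : degD p (divF p hF x) = 0 := by
  by_cases hx : Transcendental (ZMod p) x
  · rw [divF_eq_sub, degD_sub, degD_zeroD p hF hx, degD_zeroD p hF (transcendental_inv p hx),
      adjoin_inv p x, sub_self]
  · have : divF p hF x = 0 := by
      ext v
      rw [divF_apply, ord_eq_zero_of_isAlgebraic p v (not_not.1 hx)]; rfl
    rw [this, degD_zero]

/-- Multiplication by a function identifies Riemann-Roch spaces. -/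
theorem mem_LL_mul_iff (hF : IsFunctionField (ZMod p) F) {x : F} (hx : x ≠ 0) (D : Place F →₀ ℤ)
    (f : F) : x * f ∈ LL p D ↔ f ∈ LL p (D + divF p hF x) := by
  constructor
  · intro h v hv
    have h1 := h v hv
    rw [map_mul, v.val_eq hx] at h1
    rw [Finsupp.add_apply, divF_apply, exp_add, mul_comm]
    have h2 : v.val f = exp (v.ord x) * (exp (-v.ord x) * v.val f) := by
      rw [← mul_assoc, ← exp_add]; simp
    rw [h2]
    exact mul_le_mul_right h1 _
  · intro h v hv
    have h1 := h v hv
    rw [Finsupp.add_apply, divF_apply] at h1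
    rw [map_mul, v.val_eq hx]
    calc exp (-v.ord x) * v.val f ≤ exp (-v.ord x) * exp (D v + v.ord x) := mul_le_mul_right h1 _
      _ = exp (D v) := by rw [← exp_add]; congr 1; ring

theorem ell_add_divF (hF : IsFunctionField (ZMod p) F) {x : F} (hx : x ≠ 0) (D : Place F →₀ ℤ) :
    ell p (D + divF p hF x) = ell p D := by
  let e : LL p (D + divF p hF x) ≃ₗ[ZMod p] LL p D :=
    { toFun := fun f => ⟨x * f, (mem_LL_mul_iff p hF hx D f).2 f.2⟩
      invFun := fun g => ⟨x⁻¹ * g, (mem_LL_mul_iff p hF hx D _).1 (by
        rw [← mul_assoc, mul_inv_cancel₀ hx, one_mul]; exact g.2)⟩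
      left_inv := fun f => by ext; simp [← mul_assoc, inv_mul_cancel₀ hx]
      right_inv := fun g => by ext; simp [← mul_assoc, mul_inv_cancel₀ hx]
      map_add' := fun a b => by ext; simp [mul_add]
      map_smul' := fun c a => by ext; simp }
  exact e.finrank_eq

theorem degD_add_divF (hF : IsFunctionField (ZMod p) F) (x : F) (D : Place F →₀ ℤ) :
    degD p (D + divF p hF x) = degD p D := by
  rw [degD_add, degD_divF, add_zero]

/-- A divisor of negative degree has no nonzero sections. -/
theorem ell_eq_zero_of_neg (hF : IsFunctionField (ZMod p) F) {D : Place F →₀ ℤ}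
    (hD : degD p D < 0) {f : F} (hf : f ∈ LL p D) : f = 0 := by
  by_contra h0
  have h1 : ∀ v, 0 ≤ (D + divF p hF f) v := by
    intro v
    have := hf v (Set.mem_univ v)
    rw [v.val_le_exp_iff h0] at this
    rw [Finsupp.add_apply, divF_apply]
    linarith
  have h2 := degD_nonneg p h1
  rw [degD_add_divF] at h2
  linarith

end Pool.Agent.Helper47.Wan
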