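import Pool.Agent.Helper47.Wan.Exist

open scoped WithZero NNReal Polynomial
open WithZero IsLocalRing

namespace Pool.Agent.Helper47.Wan

variable (p : ℕ) [hp : Fact p.Prime] {F : Type*} [Field F] [Algebra (ZMod p) F]

/-- The zeros of `x`, counted with multiplicity and degree, number at most `[F : F_p(x)]`. -/
theorem sum_ord_le (hF : IsFunctionField (ZMod p) F) {x : F} (hx : Transcendental (ZMod p) x)
    (T : Finset (Place F)) (hT : ∀ v ∈ T, 0 < v.ord x) :
    ∑ v ∈ T, v.ord x * (v.deg p : ℤ) ≤
      (Module.finrank (IntermediateField.adjoin (ZMod p) {x}) F : ℤ) := by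
  classical
  have hx0 : x ≠ 0 := by rintro rfl; exact hx isAlgebraic_zero
  have hfd := hF.finiteDimensional hx
  set Dx : Place F →₀ ℤ := ∑ v ∈ T, Finsupp.single v (v.ord x) with hDx
  have hDx1 : ∀ v ∈ T, Dx v = v.ord x := by
    intro v hv
    rw [hDx, Finsupp.finsetSum_apply, Finset.sum_eq_single v]
    · simp
    · intro w _ hw; simp [hw]
    · intro h; exact absurd hv h
  have hDx2 : ∀ v ∉ T, Dx v = 0 := by
    intro v hv
    rw [hDx, Finsupp.finsetSum_apply]
    apply Finset.sum_eq_zero
    intro w hw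
    have : w ≠ v := fun h => hv (h ▸ hw)
    simp [this]
  have hdeg : degD p Dx = ∑ v ∈ T, v.ord x * (v.deg p : ℤ) := by
    have h1 : ∀ (T : Finset (Place F)), degD p (∑ v ∈ T, Finsupp.single v (v.ord x)) =
        ∑ v ∈ T, v.ord x * (v.deg p : ℤ) := by
      intro T
      induction T using Finset.induction with
      | empty => simp [degD_zero]
      | insert a s ha ih => rw [Finset.sum_insert ha, Finset.sum_insert ha, degD_add, ih, degD_single]
    exact h1 T
  set W := RR p (T : Set (Place F)) (0 : Place F →₀ ℤ) with hW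
  set W' := RR p (T : Set (Place F)) (-Dx) with hW'
  obtain ⟨n, hn, hn0, -, -, hn1⟩ := relIndex_eq p hF (T : Set (Place F)) (-Dx) 0 (by
      intro v
      by_cases hv : v ∈ T
      · rw [Finsupp.neg_apply, hDx1 v hv]
        have := hT v hv
        simp only [Finsupp.coe_zero, Pi.zero_apply]; omega
      · rw [Finsupp.neg_apply, hDx2 v hv]; simp) (by
      intro v hv
      by_contra h
      exact hv (by rw [Finsupp.neg_apply, hDx2 v h]; simp))
  have hn2 := hn1 T.finite_toSet
  rw [degD_zero, degD_neg, zero_sub, neg_neg, hdeg] at hn2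
  have hrank := rank_quotient_le x hx W W' (by
      intro w hw v hv
      have h1 := hw v hv
      have h2 := hT v hv
      rw [map_mul, v.val_eq hx0]
      simp only [Finsupp.coe_zero, Pi.zero_apply, exp_zero] at h1 ⊢
      calc exp (-v.ord x) * v.val w ≤ 1 * 1 :=
            mul_le_mul' (by rw [← exp_zero, exp_le_exp]; omega) h1
        _ = 1 := one_mul 1) (by
      intro w
      constructor
      · intro h
        refine ⟨x⁻¹ * w, ?_, by field_simp⟩
        intro v hv
        have h1 := h v hv
        rw [Finsupp.neg_apply, hDx1 v hv] at h1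
        rw [map_mul, map_inv₀, v.val_eq hx0]
        simp only [Finsupp.coe_zero, Pi.zero_apply, exp_zero]
        calc (exp (-v.ord x))⁻¹ * v.val w ≤ (exp (-v.ord x))⁻¹ * exp (-v.ord x) :=
              mul_le_mul_right h1 _
          _ = 1 := inv_mul_cancel₀ exp_ne_zero
      · rintro ⟨w', hw', rfl⟩ v hv
        have h1 := hw' v hv
        simp only [Finsupp.coe_zero, Pi.zero_apply, exp_zero] at h1
        rw [Finsupp.neg_apply, hDx1 v hv, map_mul, v.val_eq hx0]
        calc exp (-v.ord x) * v.val w' ≤ exp (-v.ord x) * 1 := mul_le_mul_right h1 _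
          _ = exp (-v.ord x) := mul_one _)
  have hfd2 : Module.Finite (ZMod p) (W ⧸ W'.submoduleOf W) := by
    rw [← Module.rank_lt_aleph0_iff]
    exact lt_of_le_of_lt hrank (Cardinal.natCast_lt_aleph0)
  have hfin : Finite (W ⧸ W'.submoduleOf W) := Module.finite_of_finite (ZMod p)
  have hcard : Nat.card (W ⧸ W'.submoduleOf W) = n := by
    rw [← hn]; rfl
  have hcard2 : Nat.card (W ⧸ W'.submoduleOf W) =
      p ^ Module.finrank (ZMod p) (W ⧸ W'.submoduleOf W) := by
    rw [Module.natCard_eq_pow_finrank (K := ZMod p), Nat.card_zmod]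
  have hle : Module.finrank (ZMod p) (W ⧸ W'.submoduleOf W) ≤
      Module.finrank (IntermediateField.adjoin (ZMod p) {x}) F := by
    have := hrank
    rw [← Module.finrank_eq_rank] at this
    exact_mod_cast this
  have h3 : (p : ℝ) ^ (∑ v ∈ T, v.ord x * (v.deg p : ℤ)) =
      (p : ℝ) ^ (Module.finrank (ZMod p) (W ⧸ W'.submoduleOf W) : ℤ) := by
    rw [← hn2, ← hcard, hcard2]
    push_cast
    rw [zpow_natCast]
  have hp1 : (1 : ℝ) < p := by exact_mod_cast hp.out.one_lt
  have h4 := zpow_right_injective₀ (by linarith) hp1.ne' h3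
  rw [h4]
  exact_mod_cast hle

theorem finite_zeros (hF : IsFunctionField (ZMod p) F) {x : F} (hx : Transcendental (ZMod p) x) :
    {v : Place F | 0 < v.ord x}.Finite := by
  by_contra hinf
  obtain ⟨s, hs, hcard⟩ := Set.Infinite.exists_subset_card_eq hinf
      (Module.finrank (IntermediateField.adjoin (ZMod p) {x}) F + 1)
  have h1 := sum_ord_le p hF hx s (fun v hv => hs hv)
  have h2 : (s.card : ℤ) ≤ ∑ v ∈ s, v.ord x * (v.deg p : ℤ) := by
    rw [Finset.card_eq_sum_ones]
    push_cast
    apply Finset.sum_le_sum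
    intro v hv
    have h3 : 0 < v.ord x := hs hv
    have h4 := (v.card_res p hF).2
    nlinarith
  rw [hcard] at h2
  push_cast at h2
  linarith

theorem ord_eq_zero_of_isAlgebraic (v : Place F) {x : F} (hx : IsAlgebraic (ZMod p) x) :
    v.ord x = 0 := by
  by_cases h0 : x = 0
  · subst h0; simp [Place.ord]
  · exact (v.val_eq_one_iff h0).1 (v.val_of_isAlgebraic h0 hx)

theorem transcendental_inv {x : F} (hx : Transcendental (ZMod p) x) :
    Transcendental (ZMod p) x⁻¹ := by
  intro h
  have := h.inv
  rw [inv_inv] at this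
  exact hx this

theorem finite_ord_ne_zero (hF : IsFunctionField (ZMod p) F) (x : F) :
    {v : Place F | v.ord x ≠ 0}.Finite := by
  by_cases hx : IsAlgebraic (ZMod p) x
  · convert Set.finite_empty
    ext v
    simp [ord_eq_zero_of_isAlgebraic p v hx]
  · apply Set.Finite.subset ((finite_zeros p hF hx).union
      (finite_zeros p hF (transcendental_inv p hx)))
    intro v hv
    simp only [Set.mem_union, Set.mem_ofPred_eq, Place.ord_inv] at hv ⊢
    omega

/-- The divisor of a function. -/
noncomputable def divF (hF : IsFunctionField (ZMod p) F) (x : F) : Place F →₀ ℤ :=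
  Finsupp.ofSupportFinite (fun v => v.ord x) (finite_ord_ne_zero p hF x)

theorem divF_apply (hF : IsFunctionField (ZMod p) F) (x : F) (v : Place F) :
    divF p hF x v = v.ord x := rfl

theorem divF_mul (hF : IsFunctionField (ZMod p) F) {x y : F} (hx : x ≠ 0) (hy : y ≠ 0) :
    divF p hF (x * y) = divF p hF x + divF p hF y := by
  ext v
  rw [Finsupp.add_apply, divF_apply, divF_apply, divF_apply, v.ord_mul hx hy]

theorem divF_inv (hF : IsFunctionField (ZMod p) F) (x : F) :
    divF p hF x⁻¹ = - divF p hF x := by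
  ext v
  rw [Finsupp.neg_apply, divF_apply, divF_apply, v.ord_inv]

/-- The zero divisor of a function. -/
noncomputable def zeroD (hF : IsFunctionField (ZMod p) F) (x : F) : Place F →₀ ℤ :=
  (divF p hF x).mapRange (fun n => max n 0) (by simp)

theorem zeroD_apply (hF : IsFunctionField (ZMod p) F) (x : F) (v : Place F) :
    zeroD p hF x v = max (v.ord x) 0 := rfl

theorem divF_eq_sub (hF : IsFunctionField (ZMod p) F) (x : F) :
    divF p hF x = zeroD p hF x - zeroD p hF x⁻¹ := by
  ext v
  rw [Finsupp.sub_apply, zeroD_apply, zeroD_apply, divF_apply, v.ord_inv]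
  omega

theorem degD_zeroD_le (hF : IsFunctionField (ZMod p) F) {x : F} (hx : Transcendental (ZMod p) x) :
    degD p (zeroD p hF x) ≤ (Module.finrank (IntermediateField.adjoin (ZMod p) {x}) F : ℤ) := by
  classical
  have h1 := sum_ord_le p hF hx (zeroD p hF x).support (fun v hv => by
    rw [Finsupp.mem_support_iff, zeroD_apply] at hv
    omega)
  refine le_trans (le_of_eq ?_) h1
  rw [degD, Finsupp.sum]
  apply Finset.sum_congr rfl
  intro v hv
  rw [Finsupp.mem_support_iff, zeroD_apply] at hv
  rw [zeroD_apply]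
  have : max (v.ord x) 0 = v.ord x := by omega
  rw [this]

/-- The Riemann-Roch space of a divisor. -/
noncomputable abbrev LL (D : Place F →₀ ℤ) : Submodule (ZMod p) F := RR p Set.univ D

theorem finite_LL (hF : IsFunctionField (ZMod p) F) (D : Place F →₀ ℤ) : Finite (LL p D) := by
  classical
  -- enlarge `D` to an effective divisor
  let D' : Place F →₀ ℤ := D.mapRange (fun n => max n 0) (by simp)
  have hD' : ∀ v, D' v = max (D v) 0 := fun v => rfl
  obtain ⟨n, hn, hn0, -⟩ := relIndex_eq p hF Set.univ 0 D' (fun v => by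
    rw [hD']; simp) (fun v _ => Set.mem_univ v)
  have h0 := finite_RR_zero p hF
  have hle : (LL p (0 : Place F →₀ ℤ)).toAddSubgroup ≤ (LL p D').toAddSubgroup :=
    RR_mono p (fun v _ => by rw [hD']; simp)
  have hfin : Finite (LL p D').toAddSubgroup := by
    have h1 : (LL p (0 : Place F →₀ ℤ)).toAddSubgroup.relIndex (LL p D').toAddSubgroup ≠ 0 := by
      rw [hn]; exact hn0
    have h2 := AddSubgroup.card_mul_index ((LL p (0 : Place F →₀ ℤ)).toAddSubgroup.addSubgroupOf
      (LL p D').toAddSubgroup)
    apply Nat.finite_of_card_ne_zero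
    rw [← h2]
    apply mul_ne_zero
    · have h3 : Finite (((LL p (0 : Place F →₀ ℤ)).toAddSubgroup.addSubgroupOf
        (LL p D').toAddSubgroup)) := by
        have : Finite ((LL p (0 : Place F →₀ ℤ)).toAddSubgroup) := h0
        exact Finite.of_equiv _ (AddSubgroup.addSubgroupOfEquivOfLe hle).symm.toEquiv
      exact Nat.card_pos.ne'
    · exact h1
  have hle2 : LL p D ≤ LL p D' := RR_mono p (fun v _ => by rw [hD']; simp)
  have : Finite (LL p D') := hfin
  exact Finite.of_injective _ (Submodule.inclusion_injective hle2)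

/-- The dimension of the Riemann-Roch space over the prime field. -/
noncomputable def ell (D : Place F →₀ ℤ) : ℕ := Module.finrank (ZMod p) (LL p D)

theorem card_LL (hF : IsFunctionField (ZMod p) F) (D : Place F →₀ ℤ) :
    Nat.card (LL p D) = p ^ ell p D := by
  have := finite_LL p hF D
  rw [ell, Module.natCard_eq_pow_finrank (K := ZMod p), Nat.card_zmod]

theorem ell_mono (hF : IsFunctionField (ZMod p) F) {D D' : Place F →₀ ℤ} (h : ∀ v, D v ≤ D' v) :
    ell p D ≤ ell p D' ∧ (ell p D' : ℤ) - ell p D ≤ degD p D' - degD p D := by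
  have hle : LL p D ≤ LL p D' := RR_mono p (fun v _ => h v)
  have hf1 := finite_LL p hF D
  have hf2 := finite_LL p hF D'
  have : Module.Finite (ZMod p) (LL p D') := Module.Finite.of_finite
  refine ⟨Submodule.finrank_mono hle, ?_⟩
  obtain ⟨n, hn, hn0, hn1, hn2, -⟩ := relIndex_eq p hF Set.univ D D' h (fun v _ => Set.mem_univ v)
  have hp1 : (1 : ℝ) < p := by exact_mod_cast hp.out.one_lt
  have hp0 : (0 : ℝ) < p := by linarith
  have hc : Nat.card (LL p D) * n = Nat.card (LL p D') := by
    rw [← hn]
    have h2 := AddSubgroup.card_mul_index ((LL p D).toAddSubgroup.addSubgroupOf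
      (LL p D').toAddSubgroup)
    have h3 : Nat.card ((LL p D).toAddSubgroup.addSubgroupOf (LL p D').toAddSubgroup) =
        Nat.card (LL p D) :=
      Nat.card_congr (AddSubgroup.addSubgroupOfEquivOfLe (H := (LL p D).toAddSubgroup)
        (K := (LL p D').toAddSubgroup) hle).toEquiv
    rw [h3] at h2
    exact h2
  rw [card_LL p hF, card_LL p hF] at hc
  have h4 : (p : ℝ) ^ (ell p D' : ℤ) ≤ (p : ℝ) ^ ((ell p D : ℤ) + (degD p D' - degD p D)) := by
    rw [zpow_add₀ hp0.ne', zpow_natCast, zpow_natCast]
    have h5 : (p : ℝ) ^ ell p D' = (p : ℝ) ^ ell p D * n := by exact_mod_cast hc.symm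
    rw [h5]
    exact mul_le_mul_of_nonneg_left hn1 (by positivity)
  have h6 := (zpow_le_zpow_iff_right₀ hp1).1 h4
  linarith

end Pool.Agent.Helper47.Wan
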