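import Pool.Agent.Helper47.Wan.Indep

open scoped WithZero NNReal Polynomial
open WithZero IsLocalRing

namespace Pool.Agent.Helper47.Wan

variable (p : ℕ) [hp : Fact p.Prime] {F : Type*} [Field F] [Algebra (ZMod p) F]

include p in
theorem Place.transcendental_of_val_ne_one (v : Place F) {x : F} (hx0 : x ≠ 0)
    (hx : v.val x ≠ 1) : Transcendental (ZMod p) x :=
  fun h => hx (v.val_of_isAlgebraic hx0 h)

theorem Place.finite_res (hF : IsFunctionField (ZMod p) F) (v : Place F) : Finite v.Res := by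
  classical
  obtain ⟨π, hπ0, hπ⟩ := v.exists_uniformizer
  have hπt : Transcendental (ZMod p) π := by
    apply v.transcendental_of_val_ne_one p hπ0
    rw [Ne, v.val_eq_one_iff hπ0, hπ]; norm_num
  have := hF.finiteDimensional hπt
  set W := RR p {v} (0 : Place F →₀ ℤ) with hW
  set W' := RR p {v} (Finsupp.single v (-1) : Place F →₀ ℤ) with hW'
  have hWmem : ∀ w, w ∈ W ↔ v.val w ≤ 1 := by
    intro w
    rw [hW, mem_RR]
    simp
  have hW'mem : ∀ w, w ∈ W' ↔ v.val w ≤ exp (-1 : ℤ) := by
    intro w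
    rw [hW', mem_RR]
    simp
  have hvπ : v.val π = exp (-1 : ℤ) := by rw [v.val_eq hπ0, hπ]
  have hrank := rank_quotient_le π hπt W W' (by
      intro w hw
      rw [hWmem] at hw ⊢
      rw [map_mul, hvπ]
      calc exp (-1 : ℤ) * v.val w ≤ 1 * 1 := mul_le_mul' (by rw [← exp_zero, exp_le_exp]; norm_num) hw
        _ = 1 := one_mul 1) (by
      intro w
      rw [hW'mem]
      constructor
      · intro h
        refine ⟨π⁻¹ * w, ?_, by field_simp⟩
        rw [hWmem, map_mul, map_inv₀, hvπ]
        calc (exp (-1 : ℤ))⁻¹ * v.val w ≤ (exp (-1 : ℤ))⁻¹ * exp (-1 : ℤ) := mul_le_mul_right h _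
          _ = 1 := inv_mul_cancel₀ exp_ne_zero
      · rintro ⟨w', hw', rfl⟩
        rw [hWmem] at hw'
        rw [map_mul, hvπ]
        calc exp (-1 : ℤ) * v.val w' ≤ exp (-1 : ℤ) * 1 := mul_le_mul_right hw' _
          _ = exp (-1 : ℤ) := mul_one _)
  have hfd : Module.Finite (ZMod p) (W ⧸ W'.submoduleOf W) := by
    rw [← Module.rank_lt_aleph0_iff]
    exact lt_of_le_of_lt hrank (Cardinal.natCast_lt_aleph0)
  have hfin : Finite (W ⧸ W'.submoduleOf W) := Module.finite_of_finite (ZMod p)
  obtain ⟨φ, hφ, hφs⟩ := exists_lead' p (T := {v}) (v := v) rfl (Finsupp.single v (-1) : Place F →₀ ℤ)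
    (0 : Place F →₀ ℤ) (by rw [← Finsupp.single_add]; simp)
  have hφs := hφs (Set.finite_singleton v)
  -- choose lifts
  choose g hg using (W'.submoduleOf W).mkQ_surjective
  refine Finite.of_surjective (fun q => φ (g q)) ?_
  intro y
  obtain ⟨w, hw⟩ := hφs y
  refine ⟨(W'.submoduleOf W).mkQ w, ?_⟩
  have h1 : (W'.submoduleOf W).mkQ (g ((W'.submoduleOf W).mkQ w)) = (W'.submoduleOf W).mkQ w := hg _
  have h2 : g ((W'.submoduleOf W).mkQ w) - w ∈ W'.submoduleOf W := by
    rw [← Submodule.Quotient.mk_eq_zero, ← Submodule.mkQ_apply, map_sub, h1, sub_self]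
  have h3 : φ (g ((W'.submoduleOf W).mkQ w) - w) = 0 := by
    rw [hφ]; exact h2
  rw [map_sub, sub_eq_zero] at h3
  simp only
  rw [h3]
  exact hw

/-- The degree of a place over the prime field. -/
noncomputable def Place.deg (v : Place F) : ℕ := Nat.log p (Nat.card v.Res)

include p in
theorem Place.charP_res (v : Place F) : CharP v.Res p := by
  have h1 : CharP F p := by
    have := charP_of_injective_algebraMap (algebraMap (ZMod p) F).injective p
    exact this
  rw [CharP.charP_iff_prime_eq_zero hp.out]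
  have h2 : (p : v.ring) = 0 := by
    ext
    push_cast
    exact CharP.cast_eq_zero F p
  have h3 : ((IsLocalRing.residue v.ring) (p : v.ring)) = 0 := by rw [h2, map_zero]
  simpa using h3

theorem Place.card_res (hF : IsFunctionField (ZMod p) F) (v : Place F) :
    Nat.card v.Res = p ^ (v.deg p) ∧ 0 < v.deg p := by
  have := v.finite_res p hF
  have := v.charP_res p
  have : Fintype v.Res := Fintype.ofFinite _
  obtain ⟨n, _, hn⟩ := FiniteField.card v.Res p
  have h1 : Nat.card v.Res = p ^ (n : ℕ) := by rw [Nat.card_eq_fintype_card, hn]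
  have h2 : v.deg p = n := by
    rw [Place.deg, h1, Nat.log_pow hp.out.one_lt]
  rw [h2]
  exact ⟨h1, n.pos⟩

end Pool.Agent.Helper47.Wan
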