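import Pool.Agent.Helper47.Wan.Poly

open scoped WithZero NNReal Polynomial
open WithZero IsLocalRing

namespace Pool.Agent.Helper47.Wan

variable (p : ℕ) [hp : Fact p.Prime] {F : Type*} [Field F] [Algebra (ZMod p) F]

/-- The divisor, with integer coefficients, attached to an effective divisor prime to `S`. -/
noncomputable def toDiv (S : Set (Place F)) (D : {v : Place F // v ∉ S} →₀ ℕ) : Place F →₀ ℤ :=
  (D.mapRange (fun n : ℕ => (n : ℤ)) (by simp)).embDomain ⟨Subtype.val, Subtype.val_injective⟩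

theorem toDiv_apply (S : Set (Place F)) (D : {v : Place F // v ∉ S} →₀ ℕ)
    (x : {v : Place F // v ∉ S}) : toDiv S D x.1 = D x := by
  rw [toDiv]
  have := Finsupp.embDomain_apply_self (⟨Subtype.val, Subtype.val_injective⟩ :
    {v : Place F // v ∉ S} ↪ Place F) (D.mapRange (fun n : ℕ => (n : ℤ)) (by simp)) x
  simpa using this

theorem toDiv_apply_of_mem (S : Set (Place F)) (D : {v : Place F // v ∉ S} →₀ ℕ)
    {v : Place F} (hv : v ∈ S) : toDiv S D v = 0 := by
  rw [toDiv]
  apply Finsupp.embDomain_notin_range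
  rintro ⟨x, rfl⟩
  exact x.2 hv

theorem wt_toDiv (S : Set (Place F)) (f : Place F → ℤ) (D : {v : Place F // v ∉ S} →₀ ℕ) :
    wt f (toDiv S D) = D.sum (fun x m => (m : ℤ) * f x.1) := by
  rw [wt, toDiv, Finsupp.sum_embDomain, Finsupp.sum_mapRange_index]
  · rfl
  · intro a; simp

theorem degD_toDiv (S : Set (Place F)) (D : {v : Place F // v ∉ S} →₀ ℕ) :
    degD p (toDiv S D) = D.sum (fun x m => (m : ℤ) * (x.1.deg p : ℤ)) := by
  rw [degD, toDiv, Finsupp.sum_embDomain, Finsupp.sum_mapRange_index]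
  · rfl
  · intro a; simp

theorem toDiv_injective (S : Set (Place F)) : Function.Injective (toDiv S) := by
  intro D E h
  ext x
  have := DFunLike.congr_fun h x.1
  rw [toDiv_apply, toDiv_apply] at this
  exact_mod_cast this

theorem exists_toDiv (S : Set (Place F)) (D : Place F →₀ ℤ) (h0 : ∀ v, 0 ≤ D v)
    (hS : ∀ v ∈ S, D v = 0) : ∃ D' : {v : Place F // v ∉ S} →₀ ℕ, toDiv S D' = D := by
  refine ⟨(D.comapDomain (Subtype.val : {v : Place F // v ∉ S} → Place F)
    (Subtype.val_injective.injOn)).mapRange Int.toNat (by simp), ?_⟩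
  ext v
  by_cases hv : v ∈ S
  · rw [toDiv_apply_of_mem S _ hv, hS v hv]
  · have := toDiv_apply S ((D.comapDomain (Subtype.val : {v : Place F // v ∉ S} → Place F)
      (Subtype.val_injective.injOn)).mapRange Int.toNat (by simp)) ⟨v, hv⟩
    rw [this]
    simp [h0 v]

/-- Polynomiality of the `L`-functions, in terms of sums over effective divisors. -/
theorem finsum_eq_zero (hF : IsFunctionField (ZMod p) F) (S : Set (Place F)) (hSf : S.Finite)
    (hS : S.Nonempty) (m : Place F →₀ ℤ) (hm' : ∀ v ∉ S, m v = 0)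
    (hm : ∀ v ∈ S, 1 ≤ m v) (n : ℕ) (f : Place F → ℕ)
    (hR : ∀ u : F, u ≠ 0 → (∀ v ∈ S, v.val (u - 1) ≤ exp (-m v)) →
      (p ^ n : ℤ) ∣ wt (fun v => (f v : ℤ)) (divF p hF u))
    (h : F) (hh : ∀ v ∈ S, v.val h = 1)
    (hNT : ¬ (p ^ n : ℤ) ∣ wt (fun v => (f v : ℤ)) (divF p hF h))
    {E : Type*} [Field E] [CharZero E] (ζ : E) (hζ : IsPrimitiveRoot ζ (p ^ n))
    (dX : {v : Place F // v ∉ S} → ℕ) (r : ℕ) (hr : 0 < r) (hdX : ∀ x, x.1.deg p = r * dX x) :
    ∃ d₀ : ℕ, ∀ a : ℕ, a.Coprime p → ∀ d ≥ d₀,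
      ∑ᶠ D ∈ {D : {v : Place F // v ∉ S} →₀ ℕ | D.sum (fun x m => m * dX x) = d},
        D.prod (fun x m => (ζ ^ (a * f x.1)) ^ m) = 0 := by
  classical
  obtain ⟨d₀, hd₀⟩ := sum_eq_zero_aux p hF hSf.toFinset (by
      obtain ⟨v, hv⟩ := hS
      exact ⟨v, (Set.Finite.mem_toFinset hSf).2 hv⟩) m (fun v hv => hm' v (by
        rwa [Set.Finite.mem_toFinset] at hv)) (fun v hv => hm v (by
        rwa [Set.Finite.mem_toFinset] at hv)) (p ^ n : ℤ) (fun v => (f v : ℤ)) (fun u hu0 hu =>
          hR u hu0 (fun v hv => hu v ((Set.Finite.mem_toFinset hSf).2 hv))) h (fun v hv => hh v (by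
        rwa [Set.Finite.mem_toFinset] at hv))
  refine ⟨d₀.toNat, fun a ha d hd => ?_⟩
  have hζ0 : ζ ≠ 0 := hζ.ne_zero (pow_ne_zero _ hp.out.ne_zero)
  have hω : IsPrimitiveRoot (ζ ^ a) (p ^ n) := hζ.pow_of_coprime a (ha.pow_right n)
  have hAfin : {D : Place F →₀ ℤ | (∀ v, 0 ≤ D v) ∧ (∀ v ∈ S, D v = 0) ∧
      degD p D = (r * d : ℕ)}.Finite := by
    apply Set.Finite.subset (finite_effective p hF (r * d : ℕ))
    rintro D ⟨h1, h2, h3⟩
    exact ⟨h1, h3.le⟩
  have h1 := hd₀ (r * d : ℕ) (by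
      have h2 : d₀ ≤ d₀.toNat := Int.self_le_toNat d₀
      have h3 : (d₀.toNat : ℤ) ≤ d := by exact_mod_cast hd
      have h4 : (d : ℤ) ≤ (r * d : ℕ) := by
        push_cast
        have : (1 : ℤ) ≤ r := by omega
        nlinarith
      linarith) hAfin.toFinset (fun D => by
        rw [Set.Finite.mem_toFinset, Set.mem_ofPred_eq]
        constructor
        · rintro ⟨a1, a2, a3⟩
          exact ⟨a1, fun v hv => a2 v ((Set.Finite.mem_toFinset hSf).1 hv), a3⟩
        · rintro ⟨a1, a2, a3⟩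
          exact ⟨a1, fun v hv => a2 v ((Set.Finite.mem_toFinset hSf).2 hv), a3⟩) (ζ ^ a)
      (pow_ne_zero _ hζ0) (by
        have := hω.pow_eq_one
        exact_mod_cast this) (by
        intro h2
        apply hNT
        have := (hω.zpow_eq_one_iff_dvd _).1 h2
        exact_mod_cast this)
  rw [← finsum_mem_finset_eq_sum] at h1
  rw [← h1]
  apply finsum_mem_eq_of_bijOn (toDiv S)
  · refine ⟨?_, (toDiv_injective S).injOn, ?_⟩
    · intro D hD
      rw [Set.mem_ofPred_eq] at hD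
      rw [SetLike.mem_coe, Set.Finite.mem_toFinset, Set.mem_ofPred_eq]
      refine ⟨fun v => ?_, fun v hv => toDiv_apply_of_mem S D hv, ?_⟩
      · by_cases hv : v ∈ S
        · rw [toDiv_apply_of_mem S D hv]
        · have := toDiv_apply S D ⟨v, hv⟩
          rw [this]; positivity
      · rw [degD_toDiv, ← hD, Finsupp.sum, Finsupp.sum, Finset.mul_sum]
        push_cast
        apply Finset.sum_congr rfl
        intro x _
        rw [hdX x]; push_cast; ring
    · intro D hD
      rw [SetLike.mem_coe, Set.Finite.mem_toFinset, Set.mem_ofPred_eq] at hD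
      obtain ⟨h2, h3, h4⟩ := hD
      obtain ⟨D', rfl⟩ := exists_toDiv S D h2 h3
      refine ⟨D', ?_, rfl⟩
      rw [Set.mem_ofPred_eq]
      rw [degD_toDiv] at h4
      have h5 : (r : ℤ) * (D'.sum (fun x m => m * dX x) : ℕ) = (r : ℤ) * d := by
        rw [Finsupp.sum]
        push_cast
        rw [Finset.mul_sum]
        push_cast at h4
        rw [← h4, Finsupp.sum]
        apply Finset.sum_congr rfl
        intro x _
        rw [hdX x]; push_cast; ring
      have h6 : ((D'.sum (fun x m => m * dX x) : ℕ) : ℤ) = d :=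
        mul_left_cancel₀ (by exact_mod_cast hr.ne') h5
      exact_mod_cast h6
  · intro D _
    rw [wt_toDiv, Finsupp.prod, Finsupp.sum]
    have h2 : ∀ (s : Finset {v : Place F // v ∉ S}) (g : {v : Place F // v ∉ S} → ℤ),
        (ζ ^ a) ^ (∑ x ∈ s, g x) = ∏ x ∈ s, (ζ ^ a) ^ (g x) := by
      intro s g
      induction s using Finset.induction with
      | empty => simp
      | insert b t hb ih =>
        rw [Finset.sum_insert hb, Finset.prod_insert hb, zpow_add₀ (pow_ne_zero _ hζ0), ih]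
    rw [h2]
    apply Finset.prod_congr rfl
    intro x _
    rw [← Nat.cast_mul, zpow_natCast, ← pow_mul, ← pow_mul]
    congr 1
    ring

end Pool.Agent.Helper47.Wan
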