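import Pool.Agent.Helper47.Wan.GalPlace
import Pool.Agent.Helper47.Wan.Poly

open scoped WithZero
open WithZero IsLocalRing

namespace Pool.Agent.Helper47.Wan

section count

variable (p : ℕ) [hp : Fact p.Prime] {E K M : Type*} [Field E] [Field K] [Field M]
    [Algebra (ZMod p) E] [Algebra (ZMod p) K] [Algebra (ZMod p) M]
    [Algebra E K] [Algebra E M] [IsScalarTower (ZMod p) E K] [IsScalarTower (ZMod p) E M]
    [FiniteDimensional E K] [FiniteDimensional E M] [IsGalois E M]

theorem val_inv_smul {K L : Type*} [Field K] [Field L] [Algebra K L] (σ : L ≃ₐ[K] L)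
    (w : Place L) (z : L) : (σ⁻¹ • w).val z = w.val (σ z) := by
  rw [smul_val, inv_inv]

/-- The number of embeddings compatible with given places. -/
theorem card_embeddings (hE : IsFunctionField (ZMod p) E) (P : Place E) (hP : P.deg p = 1)
    (x : Place M) (hx : Over (algebraMap E M) x P) (v : Place K)
    (hv : Over (algebraMap E K) v P) (τ₀ : K →ₐ[E] M) :
    Nat.card {τ : K →ₐ[E] M // Over (τ : K →+* M) x v} =
      ramE (algebraMap E K) v P * v.deg p := by
  classical
  let _ : Algebra K M := (τ₀ : K →+* M).toAlgebra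
  have halg : ∀ y : K, algebraMap K M y = τ₀ y := fun _ => rfl
  have : IsScalarTower E K M := IsScalarTower.of_algebraMap_eq (fun y => by
    rw [halg, τ₀.commutes])
  have : IsScalarTower (ZMod p) K M := IsScalarTower.of_algebraMap_eq' (Subsingleton.elim _ _)
  have : FiniteDimensional K M := FiniteDimensional.right E K M
  have : IsGalois K M := IsGalois.tower_top_of_isGalois E K M
  have hK : IsFunctionField (ZMod p) K := hE.of_finite p (L := K)
  have hM : IsFunctionField (ZMod p) M := hE.of_finite p (L := M)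
  set G := (M ≃ₐ[E] M) with hG
  set Fib := (finite_fiber (L := M) p hK v).toFinset with hFib
  have hFibm : ∀ w : Place M, w ∈ Fib ↔ Over (algebraMap K M) w v := by
    intro w; rw [hFib, Set.Finite.mem_toFinset]; rfl
  have hcomp : (algebraMap K M).comp (algebraMap E K) = algebraMap E M :=
    (IsScalarTower.algebraMap_eq E K M).symm
  have hFibP : ∀ w ∈ Fib, Over (algebraMap E M) w P := by
    intro w hw
    rw [hFibm] at hw
    rw [← hcomp]
    exact hw.comp hv
  set D := MulAction.stabilizer G x with hD
  have hDcard : Nat.card D = ramE (algebraMap E M) x P * x.deg p := by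
    rw [← card_stabilizer p hE hx, hP, mul_one]
  -- (A)
  have hA : Fib.card * Nat.card D =
      Module.finrank K M * (ramE (algebraMap E K) v P * v.deg p) := by
    have h1 := sum_fiber (L := M) p hK v
    have h2 : ∀ w ∈ Fib, ramE (algebraMap E K) v P * (ramE (algebraMap K M) w v * w.deg p) =
        Nat.card D := by
      intro w hw
      obtain ⟨σ, rfl⟩ := exists_smul_eq p hE hx (hFibP w hw)
      rw [hFibm] at hw
      have h3 := hw.ramE_comp hv
      rw [hcomp, ramE_smul] at h3
      rw [hDcard, h3, deg_smul]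
      ring
    have h3 : Fib.card * Nat.card D = ∑ w ∈ Fib, Nat.card D := by
      rw [Finset.sum_const, smul_eq_mul]
    rw [h3, ← Finset.sum_congr rfl h2, ← Finset.mul_sum, hFib, h1]
    ring
  -- the set of automorphisms
  set SS : Finset G := Finset.univ.filter (fun σ : G => Over (algebraMap K M) (σ⁻¹ • x) v) with hS
  have hSm : ∀ σ : G, σ ∈ SS ↔ Over (algebraMap K M) (σ⁻¹ • x) v := by
    intro σ; simp [hS]
  -- first count
  have hC1 : SS.card = Fib.card * Nat.card D := by
    rw [Finset.card_eq_sum_card_fiberwise (f := fun σ : G => σ⁻¹ • x) (t := Fib)]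
    · rw [Finset.sum_congr rfl (g := fun _ => Nat.card D), Finset.sum_const, smul_eq_mul]
      intro w hw
      obtain ⟨σ₀, hσ₀⟩ := exists_smul_eq p hE hx (hFibP w hw)
      rw [← Fintype.card_coe, ← Nat.card_eq_fintype_card]
      refine Nat.card_congr ⟨fun σ => ⟨(σ : G) * σ₀, ?_⟩, fun δ => ⟨(δ : G) * σ₀⁻¹, ?_⟩, ?_, ?_⟩
      · rw [MulAction.mem_stabilizer_iff]
        have h1 := (Finset.mem_filter.mp σ.2).2
        rw [mul_smul, hσ₀]
        exact (inv_smul_eq_iff.mp h1).symm
      · rw [Finset.mem_filter, hSm]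
        have h1 := MulAction.mem_stabilizer_iff.mp δ.2
        have h2 : ((δ : G) * σ₀⁻¹)⁻¹ • x = w := by
          rw [mul_inv_rev, inv_inv, mul_smul, ← hσ₀]
          congr 1
          rw [inv_smul_eq_iff, h1]
        rw [h2]
        exact ⟨(hFibm w).mp hw, rfl⟩
      · intro σ; ext; simp
      · intro δ; ext; simp
    · intro σ hσ
      rw [Finset.mem_coe, hSm] at hσ
      rw [Finset.mem_coe, hFibm]
      exact hσ
  -- second count
  have hover : ∀ (σ : G) (τ : K →ₐ[E] M), (∀ y, σ (τ₀ y) = τ y) →
      (Over (algebraMap K M) (σ⁻¹ • x) v ↔ Over (τ : K →+* M) x v) := by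
    intro σ τ h
    refine forall_congr' fun z => ?_
    rw [val_inv_smul, halg, h]
    rfl
  have : Fintype (K →ₐ[E] M) := Fintype.ofFinite _
  have hC2 : SS.card = Nat.card {τ : K →ₐ[E] M // Over (τ : K →+* M) x v} *
      Module.finrank K M := by
    rw [Finset.card_eq_sum_card_fiberwise (f := fun σ : G => ((σ : M →ₐ[E] M).comp τ₀))
      (t := Finset.univ.filter (fun τ : K →ₐ[E] M => Over (τ : K →+* M) x v))]
    · rw [Finset.sum_congr rfl (g := fun _ => Module.finrank K M), Finset.sum_const, smul_eq_mul]
      · congr 1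
        rw [← Fintype.card_subtype, Nat.card_eq_fintype_card]
      · intro τ hτ
        have hτ' := (Finset.mem_filter.mp hτ).2
        -- an extension of `τ`
        let φ : M →ₐ[E] M := AlgHom.liftNormal τ M
        have hφ : ∀ y, φ (τ₀ y) = τ y := fun y => AlgHom.liftNormal_commutes τ M y
        let σ₀ : G := AlgEquiv.ofBijective φ (Algebra.IsAlgebraic.algHom_bijective φ)
        have hσ₀ : ∀ y, σ₀ (τ₀ y) = τ y := hφ
        rw [← Fintype.card_coe, ← Nat.card_eq_fintype_card, ← IsGalois.card_aut_eq_finrank K M]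
        refine Nat.card_congr ⟨fun σ => AlgEquiv.ofRingEquiv
          (f := ((σ₀⁻¹ * (σ : G) : G) : M ≃+* M)) ?_, fun g => ⟨σ₀ * (g.restrictScalars E), ?_⟩, ?_, ?_⟩
        · intro y
          have h1 := (Finset.mem_filter.mp σ.2).2
          have h2 : (σ : G) (τ₀ y) = τ y := DFunLike.congr_fun h1 y
          change σ₀.symm ((σ : G) (τ₀ y)) = τ₀ y
          rw [h2, ← hσ₀, AlgEquiv.symm_apply_apply]
        · have h1 : ∀ y, (σ₀ * (g.restrictScalars E) : G) (τ₀ y) = τ y := by
            intro y
            change σ₀ (g (algebraMap K M y)) = τ y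
            rw [g.commutes, halg, hσ₀]
          rw [Finset.mem_filter, hSm]
          refine ⟨(hover _ τ h1).mpr hτ', ?_⟩
          ext y
          exact h1 y
        · intro σ
          ext y
          change σ₀ (σ₀.symm ((σ : G) y)) = (σ : G) y
          rw [AlgEquiv.apply_symm_apply]
        · intro g
          ext y
          change σ₀.symm (σ₀ (g y)) = g y
          rw [AlgEquiv.symm_apply_apply]
    · intro σ hσ
      rw [Finset.mem_coe, hSm] at hσ
      rw [Finset.mem_coe, Finset.mem_filter]
      exact ⟨Finset.mem_univ _, (hover σ _ (fun y => rfl)).mp hσ⟩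
  have hfr : 0 < Module.finrank K M := Module.finrank_pos
  have h1 : Nat.card {τ : K →ₐ[E] M // Over (τ : K →+* M) x v} * Module.finrank K M =
      (ramE (algebraMap E K) v P * v.deg p) * Module.finrank K M := by
    rw [← hC2, hC1, hA]; ring
  exact Nat.eq_of_mul_eq_mul_right hfr h1

end count


section homs

/-- All homomorphisms between finite fields are obtained from one of them and Frobenius. -/
theorem exists_hom_eq (p : ℕ) [hp : Fact p.Prime] {κ l : Type*} [Field κ] [Field l] [Finite κ]
    [Finite l] [CharP κ p] [CharP l p] (d : ℕ) (hd : Nat.card κ = p ^ d) (ρ ι : κ →+* l) :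
    ∃ i < d, ρ = (iterateFrobenius l p i).comp ι := by
  classical
  have : Fintype κ := Fintype.ofFinite κ
  have : Fintype l := Fintype.ofFinite l
  have hd' : Fintype.card κ = p ^ d := by rw [← Nat.card_eq_fintype_card, hd]
  have hd0 : d ≠ 0 := by
    rintro rfl
    have := Fintype.one_lt_card (α := κ)
    rw [hd', pow_zero] at this
    exact lt_irrefl _ this
  -- the images agree
  have himg : ∀ (ρ : κ →+* l), Finset.univ.image ρ =
      (Polynomial.X ^ (p ^ d) - Polynomial.X : Polynomial l).roots.toFinset := by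
    intro ρ
    have hne : (Polynomial.X ^ (p ^ d) - Polynomial.X : Polynomial l) ≠ 0 :=
      FiniteField.X_pow_card_sub_X_ne_zero l (Nat.one_lt_pow hd0 hp.out.one_lt)
    apply Finset.eq_of_subset_of_card_le
    · intro y hy
      rw [Finset.mem_image] at hy
      obtain ⟨a, _, rfl⟩ := hy
      rw [Multiset.mem_toFinset, Polynomial.mem_roots hne, Polynomial.IsRoot]
      have h1 : a ^ (p ^ d) = a := by rw [← hd']; exact FiniteField.pow_card a
      simp [← map_pow, h1]
    · rw [Finset.card_image_of_injective _ ρ.injective, Finset.card_univ, hd']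
      refine (Multiset.toFinset_card_le _).trans ((Polynomial.card_roots' _).trans ?_)
      rw [FiniteField.X_pow_card_sub_X_natDegree_eq l (Nat.one_lt_pow hd0 hp.out.one_lt)]
  have hex : ∀ a : κ, ∃ b : κ, ι b = ρ a := by
    intro a
    have h1 : ρ a ∈ Finset.univ.image ι := by
      rw [himg ι, ← himg ρ]
      exact Finset.mem_image_of_mem _ (Finset.mem_univ a)
    rw [Finset.mem_image] at h1
    obtain ⟨b, _, hb⟩ := h1
    exact ⟨b, hb⟩
  choose ψ hψ using hex
  let Ψ : κ →+* κ :=
    { toFun := ψ
      map_one' := ι.injective (by rw [hψ, map_one, map_one])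
      map_zero' := ι.injective (by rw [hψ, map_zero, map_zero])
      map_mul' := fun a b => ι.injective (by rw [map_mul, hψ, hψ, hψ, map_mul])
      map_add' := fun a b => ι.injective (by rw [map_add, hψ, hψ, hψ, map_add]) }
  let _ : Algebra (ZMod p) κ := ZMod.algebra κ p
  let Ψ' : κ →ₐ[ZMod p] κ := { Ψ with
    commutes' := fun c => by
      change Ψ (algebraMap (ZMod p) κ c) = algebraMap (ZMod p) κ c
      have : (Ψ.comp (algebraMap (ZMod p) κ)) = algebraMap (ZMod p) κ := Subsingleton.elim _ _
      exact DFunLike.congr_fun this c }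
  have hfr : Module.finrank (ZMod p) κ = d := by
    have h1 := Module.natCard_eq_pow_finrank (K := ZMod p) (V := κ)
    rw [hd, Nat.card_zmod] at h1
    exact (Nat.pow_right_injective hp.out.two_le h1).symm
  obtain ⟨i, hi⟩ := (FiniteField.bijective_frobeniusAlgHom_pow (ZMod p) κ).2 Ψ'
  refine ⟨i.1, by rw [← hfr]; exact i.2, ?_⟩
  ext a
  rw [RingHom.comp_apply, iterateFrobenius_def, ← map_pow, ← hψ a]
  congr 1
  have h1 : (FiniteField.frobeniusAlgHom (ZMod p) κ ^ (i : ℕ)) a = Ψ' a := by rw [← hi]
  have h2 : ∀ (j : ℕ) (a : κ), (FiniteField.frobeniusAlgHom (ZMod p) κ ^ j) a = a ^ (p ^ j) := by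
    intro j
    induction j with
    | zero => intro a; simp
    | succ j ih =>
      intro a
      rw [pow_succ, AlgHom.mul_apply, ih, FiniteField.coe_frobeniusAlgHom, ZMod.card, ← pow_mul,
        pow_succ, mul_comm]
  rw [h2] at h1
  exact h1.symm

theorem hom_injOn (p : ℕ) [hp : Fact p.Prime] {κ l : Type*} [Field κ] [Field l] [Finite κ]
    [CharP l p] (d : ℕ) (hd : Nat.card κ = p ^ d) (ι : κ →+* l) {i j : ℕ} (hi : i < d) (hj : j < d)
    (h : (iterateFrobenius l p i).comp ι = (iterateFrobenius l p j).comp ι) : i = j := by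
  classical
  have : Fintype κ := Fintype.ofFinite κ
  have key : ∀ i j : ℕ, i < d → j < d → i ≤ j →
      (iterateFrobenius l p i).comp ι = (iterateFrobenius l p j).comp ι → i = j := by
    intro i j hi hj hij h
    by_contra hne
    have hlt : i < j := lt_of_le_of_ne hij hne
    -- all `a` satisfy `a ^ (p ^ (j - i)) = a`
    have h1 : ∀ a : κ, a ^ (p ^ (j - i)) = a := by
      intro a
      have h2 := DFunLike.congr_fun h a
      rw [RingHom.comp_apply, RingHom.comp_apply, iterateFrobenius_def, iterateFrobenius_def] at h2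
      have h3 : ι a ^ (p ^ j) = (ι a ^ (p ^ (j - i))) ^ (p ^ i) := by
        rw [← pow_mul, ← pow_add, Nat.sub_add_cancel hij]
      rw [h3] at h2
      have h4 : iterateFrobenius l p i (ι a) = iterateFrobenius l p i (ι a ^ (p ^ (j - i))) := by
        rw [iterateFrobenius_def, iterateFrobenius_def]; exact h2
      have h5 := (iterateFrobenius l p i).injective h4
      rw [← map_pow] at h5
      exact (ι.injective h5).symm
    have hne0 : (Polynomial.X ^ (p ^ (j - i)) - Polynomial.X : Polynomial κ) ≠ 0 :=
      FiniteField.X_pow_card_sub_X_ne_zero κ (Nat.one_lt_pow (by omega) hp.out.one_lt)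
    have h6 : (Finset.univ : Finset κ) ⊆
        (Polynomial.X ^ (p ^ (j - i)) - Polynomial.X : Polynomial κ).roots.toFinset := by
      intro y _
      rw [Multiset.mem_toFinset, Polynomial.mem_roots hne0, Polynomial.IsRoot]
      simp [h1 y]
    have h7 := (Finset.card_le_card h6).trans
      ((Multiset.toFinset_card_le _).trans (Polynomial.card_roots' _))
    rw [FiniteField.X_pow_card_sub_X_natDegree_eq κ (Nat.one_lt_pow (by omega) hp.out.one_lt),
      Finset.card_univ, ← Nat.card_eq_fintype_card, hd] at h7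
    have h8 := (Nat.pow_le_pow_iff_right hp.out.one_lt).1 h7
    omega
  rcases le_total i j with hij | hij
  · exact key i j hi hj hij h
  · exact (key j i hj hi hij h.symm).symm

end homs

/-- Module E : counting embeddings. -/
theorem sum_embeddings (p : ℕ) [hp : Fact p.Prime] {E K M : Type*} [Field E] [Field K] [Field M]
    [Algebra (ZMod p) E] [Algebra (ZMod p) K] [Algebra (ZMod p) M]
    [Algebra E K] [Algebra E M] [IsScalarTower (ZMod p) E K] [IsScalarTower (ZMod p) E M]
    [FiniteDimensional E K] [FiniteDimensional E M] [IsGalois E M]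
    (hE : IsFunctionField (ZMod p) E) (P : Place E) (hP : P.deg p = 1) (x : Place M)
    (hx : Over (algebraMap E M) x P) (v : Place K) (hv : Over (algebraMap E K) v P)
    (ι : v.Res →+* x.Res) {A : Type*} [AddCommMonoid A] (Φ : (v.Res →+* x.Res) → A)
    [Fintype {τ : K →ₐ[E] M // Over (τ : K →+* M) x v}]
    [Nonempty (K →ₐ[E] M)] :
    haveI := x.charP_res p
    ∑ τ : {τ : K →ₐ[E] M // Over (τ : K →+* M) x v}, Φ τ.2.res =
      ramE (algebraMap E K) v P •
        ∑ i ∈ Finset.range (v.deg p), Φ ((iterateFrobenius x.Res p i).comp ι) := by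
  classical
  have hcx := x.charP_res p
  have hcv := v.charP_res p
  have hK : IsFunctionField (ZMod p) K := hE.of_finite p (L := K)
  have hM : IsFunctionField (ZMod p) M := hE.of_finite p (L := M)
  have := v.finite_res p hK
  have := x.finite_res p hM
  obtain ⟨hcard, hdpos⟩ := v.card_res p hK
  obtain ⟨τ₀⟩ := ‹Nonempty (K →ₐ[E] M)›
  have hcount := card_embeddings p hE P hP x hx v hv τ₀
  set T := {τ : K →ₐ[E] M // Over (τ : K →+* M) x v} with hT
  set d := v.deg p with hd
  set H : ℕ → (v.Res →+* x.Res) := fun i => (iterateFrobenius x.Res p i).comp ι with hH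
  -- Frobenius
  obtain ⟨φ, hφ⟩ := exists_isFrob p hE hx
  have hφx : φ • x = x := hφ.smul_eq
  have hPc : Nat.card P.Res = p := by rw [(P.card_res p hE).1, hP, pow_one]
  let π : T → T := fun τ => ⟨(φ : M →ₐ[E] M).comp τ.1, fun z => by
    change x.val (φ (τ.1 z)) ≤ 1 ↔ _
    rw [val_apply_of_smul_eq hφx]
    exact τ.2 z⟩
  have hπinj : Function.Injective π := by
    intro τ τ' h
    apply Subtype.ext
    ext y
    have h1 : φ (τ.1 y) = φ (τ'.1 y) := DFunLike.congr_fun (congrArg Subtype.val h) y
    exact φ.injective h1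
  have hπbij : Function.Bijective π := hπinj.bijective_of_finite
  have hπres : ∀ τ : T, (π τ).2.res = (frobenius x.Res p).comp τ.2.res := by
    intro τ
    ext y
    obtain ⟨z, rfl⟩ := IsLocalRing.residue_surjective y
    rw [RingHom.comp_apply, Over.res_residue, Over.res_residue, frobenius_def, ← map_pow,
      ← sub_eq_zero, ← map_sub, IsLocalRing.residue_eq_zero_iff, Valuation.mem_maximalIdeal_iff]
    have h1 := hφ (τ.1 (z : K)) ((τ.2 (z : K)).2 z.2)
    rw [hPc] at h1
    exact h1
  -- fibres
  set N : ℕ → ℕ := fun i => (Finset.univ.filter (fun τ : T => τ.2.res = H i)).card with hN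
  have hHsucc : ∀ i, H (i + 1) = (frobenius x.Res p).comp (H i) := by
    intro i
    ext y
    simp only [hH, RingHom.comp_apply, iterateFrobenius_def, frobenius_def, ← pow_mul, ← pow_succ]
  have hNsucc : ∀ i, N (i + 1) = N i := by
    intro i
    symm
    refine Finset.card_bij (fun τ _ => π τ) ?_ ?_ ?_
    · intro τ hτ
      rw [Finset.mem_filter] at hτ ⊢
      exact ⟨Finset.mem_univ _, by rw [hπres, hτ.2, hHsucc]⟩
    · intro τ _ τ' _ h
      exact hπinj h
    · intro τ hτ
      rw [Finset.mem_filter] at hτ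
      obtain ⟨τ', hτ'⟩ := hπbij.2 τ
      refine ⟨τ', ?_, hτ'⟩
      rw [Finset.mem_filter]
      refine ⟨Finset.mem_univ _, ?_⟩
      have h1 := hπres τ'
      rw [hτ', hτ.2, hHsucc] at h1
      ext y
      have h2 := DFunLike.congr_fun h1 y
      exact ((frobenius x.Res p).injective h2).symm
  have hN0 : ∀ i, N i = N 0 := by
    intro i
    induction i with
    | zero => rfl
    | succ i ih => rw [hNsucc, ih]
  have hex : ∀ τ : T, ∃ i < d, τ.2.res = H i := fun τ => exists_hom_eq p d hcard τ.2.res ι
  choose idx hidx1 hidx2 using hex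
  have hfib : ∀ i ∈ Finset.range d, (Finset.univ.filter (fun τ : T => idx τ = i)) =
      (Finset.univ.filter (fun τ : T => τ.2.res = H i)) := by
    intro i hi
    rw [Finset.mem_range] at hi
    ext τ
    simp only [Finset.mem_filter, Finset.mem_univ, true_and]
    constructor
    · rintro rfl; exact hidx2 τ
    · intro h
      exact hom_injOn p d hcard ι (hidx1 τ) hi ((hidx2 τ).symm.trans h)
  have hmaps : ∀ τ ∈ (Finset.univ : Finset T), idx τ ∈ Finset.range d := fun τ _ =>
    Finset.mem_range.mpr (hidx1 τ)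
  have hc : N 0 = ramE (algebraMap E K) v P := by
    have h1 := Finset.card_eq_sum_card_fiberwise (f := idx) (s := (Finset.univ : Finset T))
      (t := Finset.range d) hmaps
    have h2 : ∑ i ∈ Finset.range d, (Finset.univ.filter (fun τ : T => idx τ = i)).card =
        ∑ i ∈ Finset.range d, N 0 := by
      refine Finset.sum_congr rfl fun i hi => ?_
      rw [hfib i hi]
      exact hN0 i
    rw [h2, Finset.sum_const, Finset.card_range, smul_eq_mul, Finset.card_univ,
      ← Nat.card_eq_fintype_card, hcount, mul_comm] at h1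
    exact (Nat.eq_of_mul_eq_mul_left hdpos h1).symm
  have hfinal : ∑ τ : T, Φ τ.2.res = ramE (algebraMap E K) v P •
      ∑ i ∈ Finset.range d, Φ ((iterateFrobenius x.Res p i).comp ι) := ?_
  · have huniv : ∀ (i1 i2 : Fintype T), @Finset.univ T i1 = @Finset.univ T i2 := by
      intro i1 i2
      rw [Subsingleton.elim i1 i2]
    exact (Finset.sum_congr (huniv _ _) fun _ _ => rfl).trans hfinal
  refine (Finset.sum_fiberwise_of_maps_to hmaps (fun τ : T => Φ τ.2.res)).symm.trans ?_
  rw [Finset.smul_sum]
  refine Finset.sum_congr rfl fun i hi => ?_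
  rw [hfib i hi, ← hc, ← hN0 i]
  simp only [hN]
  rw [← Finset.sum_const]
  refine Finset.sum_congr rfl fun τ hτ => ?_
  rw [(Finset.mem_filter.mp hτ).2]

end Pool.Agent.Helper47.Wan
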