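import Pool.Agent.Helper47.Wan.Zeros

open scoped WithZero NNReal Polynomial
open WithZero IsLocalRing

namespace Pool.Agent.Helper47.Wan

variable (p : ℕ) [hp : Fact p.Prime] {F : Type*} [Field F] [Algebra (ZMod p) F]

theorem val_eq_one_of_isAlgebraic {Γ : Type*} [LinearOrderedCommGroupWithZero Γ]
    (v : Valuation F Γ) {z : F} (hz : z ≠ 0) (h : IsAlgebraic (ZMod p) z) : v z = 1 := by
  have h1 : FiniteDimensional (ZMod p) (IntermediateField.adjoin (ZMod p) {z}) :=
    IntermediateField.adjoin.finiteDimensional h.isIntegral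
  have h2 : Finite (IntermediateField.adjoin (ZMod p) {z}) := Module.finite_of_finite (ZMod p)
  have : Fintype (IntermediateField.adjoin (ZMod p) {z}) := Fintype.ofFinite _
  let z' : IntermediateField.adjoin (ZMod p) {z} :=
    ⟨z, IntermediateField.mem_adjoin_simple_self (ZMod p) z⟩
  have hz' : z' ≠ 0 := fun h => hz (congrArg Subtype.val h)
  have h3 : z' ^ (Fintype.card (IntermediateField.adjoin (ZMod p) {z}) - 1) = 1 :=
    FiniteField.pow_card_sub_one_eq_one z' hz'
  have h4 : Fintype.card (IntermediateField.adjoin (ZMod p) {z}) - 1 ≠ 0 := by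
    have := Fintype.one_lt_card (α := (IntermediateField.adjoin (ZMod p) {z}))
    omega
  have h5 : z ^ (Fintype.card (IntermediateField.adjoin (ZMod p) {z}) - 1) = 1 :=
    congrArg Subtype.val h3
  have h6 : (v z) ^ (Fintype.card (IntermediateField.adjoin (ZMod p) {z}) - 1) = 1 := by
    rw [← map_pow, h5, map_one]
  exact (pow_eq_one_iff.1 h6).resolve_right h4

theorem algebraMap_mem_valuationSubring (V : ValuationSubring F) (c : ZMod p) :
    algebraMap (ZMod p) F c ∈ V := by
  by_cases hc : c = 0
  · subst hc; rw [map_zero]; exact V.zero_mem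
  · rw [← V.valuation_le_one_iff]
    have h0 : algebraMap (ZMod p) F c ≠ 0 := by
      rw [Ne, map_eq_zero]; exact hc
    exact (val_eq_one_of_isAlgebraic p V.valuation h0 (isAlgebraic_algebraMap c)).le

theorem card_le_of_distinct (hF : IsFunctionField (ZMod p) F) (V : ValuationSubring F)
    {x : F} (hx0 : x ≠ 0) (hx : V.valuation x < 1) {ι : Type*} [Fintype ι] (y : ι → F)
    (hy1 : ∀ i, V.valuation (y i) ≤ 1) (hyx : ∀ i, V.valuation x < V.valuation (y i))
    (hinj : Function.Injective (fun i => V.valuation (y i))) :
    Fintype.card ι ≤ Module.finrank (IntermediateField.adjoin (ZMod p) {x}) F := by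
  classical
  have hxt : Transcendental (ZMod p) x := fun h =>
    hx.ne (val_eq_one_of_isAlgebraic p V.valuation hx0 h)
  have := hF.finiteDimensional hxt
  let W : Submodule (ZMod p) F :=
    { carrier := {z | V.valuation z ≤ 1}
      add_mem' := by
        intro a b ha hb
        change V.valuation _ ≤ 1
        exact (V.valuation.map_add a b).trans (max_le ha hb)
      zero_mem' := by simp
      smul_mem' := by
        intro c z hz
        rw [Algebra.smul_def]
        change V.valuation _ ≤ 1
        rw [map_mul]
        exact mul_le_one' ((V.valuation_le_one_iff _).2 (algebraMap_mem_valuationSubring p V c)) hz }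
  have hli := linearIndependent_of_mod x hxt W (by
      intro w hw
      change V.valuation _ ≤ 1
      rw [map_mul]
      exact mul_le_one' hx.le hw) y (fun i => hy1 i) (by
    rintro c ⟨w', hw', hsum⟩
    by_contra hcon
    push Not at hcon
    obtain ⟨i₁, hi₁⟩ := hcon
    have hne : (Finset.univ.filter (fun i => c i ≠ 0)).Nonempty := ⟨i₁, by simp [hi₁]⟩
    obtain ⟨i, hi, himax⟩ := Finset.exists_max_image _ (fun i => V.valuation (y i)) hne
    rw [Finset.mem_filter] at hi
    have hci : V.valuation (c i • y i) = V.valuation (y i) := by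
      rw [Algebra.smul_def, map_mul, val_eq_one_of_isAlgebraic p V.valuation
        (by rw [Ne, map_eq_zero]; exact hi.2) (isAlgebraic_algebraMap (c i)), one_mul]
    have hrest : V.valuation (∑ j ∈ Finset.univ.erase i, c j • y j) < V.valuation (c i • y i) := by
      apply Valuation.map_sum_lt
      · rw [hci]; exact ((zero_le).trans_lt (hyx i)).ne'
      · intro j hj
        rw [Finset.mem_erase] at hj
        by_cases hcj : c j = 0
        · rw [hcj, zero_smul, map_zero, hci]; exact (zero_le).trans_lt (hyx i)
        · have h1 : V.valuation (c j • y j) = V.valuation (y j) := by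
            rw [Algebra.smul_def, map_mul, val_eq_one_of_isAlgebraic p V.valuation
              (by rw [Ne, map_eq_zero]; exact hcj) (isAlgebraic_algebraMap (c j)), one_mul]
          rw [h1, hci]
          refine lt_of_le_of_ne (himax j (by simp [hcj])) (fun h => hj.1 (hinj h))
    have htot : V.valuation (∑ j, c j • y j) = V.valuation (y i) := by
      rw [← Finset.add_sum_erase _ _ (Finset.mem_univ i),
        Valuation.map_add_eq_of_lt_left _ hrest, hci]
    rw [hsum, map_mul] at htot
    have h2 : V.valuation x * V.valuation w' ≤ V.valuation x := by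
      calc V.valuation x * V.valuation w' ≤ V.valuation x * 1 := mul_le_mul_right hw' _
        _ = V.valuation x := mul_one _
    exact absurd (hyx i) (not_lt.2 (htot ▸ h2)))
  exact hli.fintype_card_le_finrank

theorem isDVR_of_ne_top (hF : IsFunctionField (ZMod p) F) (V : ValuationSubring F)
    (hV : V ≠ ⊤) : IsDiscreteValuationRing V := by
  classical
  -- a non-unit
  obtain ⟨x, hx0, hx⟩ : ∃ x : F, x ≠ 0 ∧ V.valuation x < 1 := by
    by_contra hcon
    push Not at hcon
    apply hV
    ext y
    simp only [ValuationSubring.mem_top, iff_true]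
    by_cases hy : y = 0
    · subst hy; exact V.zero_mem
    · have h1 := hcon y⁻¹ (inv_ne_zero hy)
      rw [map_inv₀] at h1
      rw [← V.valuation_le_one_iff]
      have h2 : (0 : V.ValueGroup) < V.valuation y := by
        rw [zero_lt_iff]; exact (V.valuation.ne_zero_iff).2 hy
      exact (one_le_inv₀ h2).1 h1
  -- finiteness of the values between
  have hfin : ∀ x : F, x ≠ 0 → V.valuation x < 1 →
      {γ : V.ValueGroup | V.valuation x < γ ∧ γ ≤ 1}.Finite := by
    intro x hx0 hx
    by_contra hinf
    obtain ⟨s, hs, hcard⟩ := Set.Infinite.exists_subset_card_eq hinf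
      (Module.finrank (IntermediateField.adjoin (ZMod p) {x}) F + 1)
    choose y hy using fun γ : V.ValueGroup => V.valuation_surjective γ
    have := card_le_of_distinct p hF V hx0 hx (ι := s) (fun γ => y γ.1)
      (fun γ => by rw [hy]; exact (hs γ.2).2) (fun γ => by rw [hy]; exact (hs γ.2).1)
      (fun a b hab => by
        simp only [hy] at hab
        exact Subtype.ext hab)
    rw [Fintype.card_coe, hcard] at this
    omega
  -- a uniformizer
  obtain ⟨π, hπ1, hπmax⟩ : ∃ π : F, V.valuation π < 1 ∧ V.valuation x ≤ V.valuation π ∧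
      ∀ y : F, V.valuation y < 1 → V.valuation y ≤ V.valuation π := by
    have h1 : ({γ : V.ValueGroup | V.valuation x ≤ γ ∧ γ < 1}).Finite := by
      apply Set.Finite.subset ((hfin x hx0 hx).union (Set.finite_singleton (V.valuation x)))
      rintro γ ⟨h1, h2⟩
      rcases h1.lt_or_eq with h | h
      · exact Or.inl ⟨h, h2.le⟩
      · exact Or.inr h.symm
    obtain ⟨γ, hγ, hmax⟩ := Set.exists_max_image _ id h1 ⟨V.valuation x, le_refl _, hx⟩
    obtain ⟨π, hπ⟩ := V.valuation_surjective γ
    refine ⟨π, by rw [hπ]; exact hγ.2, by rw [hπ]; exact hγ.1, fun y hy => ?_⟩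
    rw [hπ]
    by_cases hyx : V.valuation x ≤ V.valuation y
    · exact hmax _ ⟨hyx, hy⟩
    · exact (not_le.1 hyx).le.trans hγ.1
  obtain ⟨hxπ, hπmax⟩ := hπmax
  have hπ0 : π ≠ 0 := by
    rintro rfl
    rw [map_zero] at hxπ
    exact hx0 ((V.valuation.zero_iff).1 (le_antisymm hxπ zero_le))
  have hπpos : (0 : V.ValueGroup) < V.valuation π := by
    rw [zero_lt_iff]; exact (V.valuation.ne_zero_iff).2 hπ0
  -- every value is a power of the value of the uniformizer
  have key : ∀ y : F, y ≠ 0 → V.valuation y ≤ 1 → ∃ n : ℕ, V.valuation y = V.valuation π ^ n := by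
    intro y hy0 hy1
    rcases hy1.lt_or_eq with hlt | heq
    · have hex : ∃ m : ℕ, V.valuation π ^ m ≤ V.valuation y := by
        by_contra hcon
        push Not at hcon
        have hinj : Function.Injective (fun m : ℕ => V.valuation π ^ m) :=
          (pow_right_strictAnti₀ hπpos hπ1).injective
        have hinf : (Set.range (fun m : ℕ => V.valuation π ^ m)).Infinite :=
          Set.infinite_range_of_injective hinj
        apply hinf
        apply Set.Finite.subset (hfin y hy0 hlt)
        rintro _ ⟨m, rfl⟩
        exact ⟨hcon m, pow_le_one' hπ1.le m⟩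
      refine ⟨Nat.find hex, ?_⟩
      have h1 := Nat.find_spec hex
      apply le_antisymm _ h1
      obtain ⟨k, hk⟩ : ∃ k, Nat.find hex = k + 1 := by
        refine Nat.exists_eq_succ_of_ne_zero ?_
        intro h0
        rw [h0, pow_zero] at h1
        exact absurd hlt (not_lt.2 h1)
      have h2 := Nat.find_min hex (m := k) (by omega)
      rw [not_le] at h2
      rw [hk]
      have hπk : (0 : V.ValueGroup) < V.valuation π ^ k := pow_pos hπpos k
      have h3 : V.valuation (y / π ^ k) < 1 := by
        rw [map_div₀, map_pow]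
        exact (div_lt_one₀ hπk).2 h2
      have h4 := hπmax _ h3
      rw [map_div₀, map_pow, div_le_iff₀ hπk] at h4
      rw [pow_succ']
      exact h4
    · exact ⟨0, by rw [heq, pow_zero]⟩
  apply IsDiscreteValuationRing.ofHasUnitMulPowIrreducibleFactorization
  refine ⟨⟨π, (V.valuation_le_one_iff _).1 hπ1.le⟩, ?_, ?_⟩
  · constructor
    · rw [ValuationSubring.valuation_eq_one_iff]
      exact hπ1.ne
    · intro a b hab
      by_contra hcon
      push Not at hcon
      obtain ⟨ha, hb⟩ := hcon
      rw [ValuationSubring.valuation_eq_one_iff] at ha hb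
      have ha1 : V.valuation (a : F) < 1 := lt_of_le_of_ne (V.valuation_le_one a) ha
      have hb1 : V.valuation (b : F) < 1 := lt_of_le_of_ne (V.valuation_le_one b) hb
      have h1 : V.valuation π = V.valuation (a : F) * V.valuation (b : F) := by
        have := congrArg (fun z : V => V.valuation (z : F)) hab
        simpa using this
      have h2 : V.valuation (a : F) * V.valuation (b : F) < V.valuation π := by
        have ha2 := hπmax _ ha1
        calc V.valuation (a : F) * V.valuation (b : F) ≤ V.valuation π * V.valuation (b : F) :=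
              mul_le_mul_left ha2 _
          _ < V.valuation π * 1 := by
              exact (mul_lt_mul_iff_right₀ hπpos).2 hb1
          _ = V.valuation π := mul_one _
      exact absurd h1.symm h2.ne
  · intro y hy
    have hy0 : (y : F) ≠ 0 := fun h => hy (Subtype.ext h)
    obtain ⟨n, hn⟩ := key y hy0 (V.valuation_le_one y)
    refine ⟨n, ?_⟩
    have h1 : V.valuation ((y : F) / π ^ n) = 1 := by
      rw [map_div₀, map_pow, ← hn]
      exact div_self ((V.valuation.ne_zero_iff).2 hy0)
    have h2 : (y : F) / π ^ n ∈ V := (V.valuation_le_one_iff _).1 h1.le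
    have hu : IsUnit (⟨(y : F) / π ^ n, h2⟩ : V) := by
      rw [ValuationSubring.valuation_eq_one_iff]; exact h1
    refine ⟨hu.unit, ?_⟩
    ext
    simp only [IsUnit.unit_spec]
    change π ^ n * ((y : F) / π ^ n) = y
    field_simp

/-- Every proper valuation ring of a function field over a finite field is the ring of a place. -/
theorem exists_place_of_ne_top (hF : IsFunctionField (ZMod p) F) (V : ValuationSubring F)
    (hV : V ≠ ⊤) : ∃ v : Place F, v.ring = V := by
  have := isDVR_of_ne_top p hF V hV
  let m := IsDiscreteValuationRing.maximalIdeal V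
  refine ⟨⟨m.valuation F, m.valuation_surjective F⟩, ?_⟩
  ext z
  change m.valuation F z ≤ 1 ↔ z ∈ V
  constructor
  · intro h
    obtain ⟨a, ha⟩ := IsDiscreteValuationRing.exists_lift_of_le_one h
    rw [← ha]
    exact a.2
  · intro h
    exact m.valuation_le_one (⟨z, h⟩ : V)

theorem Place.ring_ne_top (v : Place F) : v.ring ≠ ⊤ := by
  intro h
  obtain ⟨π, hπ0, hπ⟩ := v.exists_uniformizer
  have h1 : π⁻¹ ∈ v.ring := by rw [h]; exact ValuationSubring.mem_top _
  rw [v.mem_ring, v.val_le_one_iff (inv_ne_zero hπ0), v.ord_inv, hπ] at h1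
  omega

/-- Every nonconstant function has a zero. -/
theorem exists_zero (hF : IsFunctionField (ZMod p) F) {y : F} (hy : Transcendental (ZMod p) y) :
    ∃ v : Place F, v.val y < 1 := by
  let A : Subring F := (Algebra.adjoin (ZMod p) {y}).toSubring
  let y' : A := ⟨y, Algebra.self_mem_adjoin_singleton (ZMod p) y⟩
  have hI : Ideal.span {y'} ≠ ⊤ := by
    intro h
    rw [Ideal.span_singleton_eq_top, isUnit_iff_exists_inv] at h
    obtain ⟨b, hb⟩ := h
    have hb1 : y * (b : F) = 1 := congrArg Subtype.val hb
    have hb2 : (b : F) ∈ Algebra.adjoin (ZMod p) {y} := b.2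
    rw [Algebra.adjoin_singleton_eq_range_aeval] at hb2
    obtain ⟨r, hr⟩ := hb2
    apply hy
    refine ⟨Polynomial.X * r - 1, ?_, ?_⟩
    · intro h0
      have := congrArg (Polynomial.eval 0) h0
      simp at this
    · rw [map_sub, map_mul, Polynomial.aeval_X, map_one]
      have : (Polynomial.aeval y) r = (b : F) := hr
      rw [this, hb1, sub_self]
  obtain ⟨V, hAV, hV⟩ := Ideal.image_subset_nonunits_valuationSubring (A := A) (Ideal.span {y'}) hI
  have hyV : y ∈ V.nonunits := by
    apply hV
    exact ⟨y', Ideal.mem_span_singleton_self y', rfl⟩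
  have hy0 : y ≠ 0 := by rintro rfl; exact hy isAlgebraic_zero
  have hVtop : V ≠ ⊤ := by
    rintro rfl
    rw [ValuationSubring.mem_nonunits_iff_or] at hyV
    rcases hyV with h | h
    · exact hy0 h
    · exact h (ValuationSubring.mem_top _)
  obtain ⟨v, hv⟩ := exists_place_of_ne_top p hF V hVtop
  refine ⟨v, ?_⟩
  rw [ValuationSubring.mem_nonunits_iff_or] at hyV
  have h1 : y⁻¹ ∉ V := hyV.resolve_left hy0
  rw [← hv, v.mem_ring, v.val_le_one_iff (inv_ne_zero hy0), v.ord_inv] at h1
  rw [v.val_lt_one_iff hy0]
  omega

/-- Functions without poles are constant. -/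
theorem isAlgebraic_of_forall (hF : IsFunctionField (ZMod p) F) {y : F}
    (hy : ∀ v : Place F, v.val y ≤ 1) : IsAlgebraic (ZMod p) y := by
  by_contra h
  have hy0 : y ≠ 0 := by rintro rfl; exact h isAlgebraic_zero
  have h1 : Transcendental (ZMod p) y⁻¹ := by
    intro h2
    apply h
    have := h2.inv
    rwa [inv_inv] at this
  obtain ⟨v, hv⟩ := exists_zero p hF h1
  rw [v.val_lt_one_iff (inv_ne_zero hy0), v.ord_inv] at hv
  have := hy v
  rw [v.val_le_one_iff hy0] at this
  omega

theorem exists_place (hF : IsFunctionField (ZMod p) F) : Nonempty (Place F) := by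
  obtain ⟨t, ht, _⟩ := id hF
  obtain ⟨v, _⟩ := exists_zero p hF ht
  exact ⟨v⟩

theorem finite_RR_zero (hF : IsFunctionField (ZMod p) F) :
    Finite (RR p (Set.univ : Set (Place F)) 0) := by
  obtain ⟨v⟩ := exists_place p hF
  have := v.finite_res p hF
  have hmem : ∀ y : RR p (Set.univ : Set (Place F)) 0, v.val (y : F) ≤ 1 := by
    intro y
    have := y.2 v (Set.mem_univ v)
    simpa using this
  refine Finite.of_injective (fun y : RR p (Set.univ : Set (Place F)) 0 =>
    IsLocalRing.residue v.ring ⟨(y : F), hmem y⟩) ?_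
  intro a b hab
  simp only at hab
  rw [← sub_eq_zero, ← map_sub, IsLocalRing.residue_eq_zero_iff, Valuation.mem_maximalIdeal_iff] at hab
  change v.val ((a : F) - (b : F)) < 1 at hab
  by_contra hne
  have h0 : (a : F) - (b : F) ≠ 0 := by
    rw [sub_ne_zero]; exact fun h => hne (Subtype.ext h)
  have h1 : IsAlgebraic (ZMod p) ((a : F) - (b : F)) := by
    apply isAlgebraic_of_forall p hF
    intro w
    have := (a - b).2 w (Set.mem_univ w)
    simpa using this
  exact hab.ne (v.val_of_isAlgebraic h0 h1)

end Pool.Agent.Helper47.Wan
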