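import Pool.Agent.Helper47.Wan.Over

open scoped WithZero NNReal Polynomial
open WithZero IsLocalRing

namespace Pool.Agent.Helper47.Wan

section
variable (p : ℕ) [hp : Fact p.Prime] {K L : Type*} [Field K] [Field L] [Algebra (ZMod p) K]
  [Algebra (ZMod p) L] [Algebra K L] [IsScalarTower (ZMod p) K L]

/-- The isomorphism `F_p(t) ≃ F_p(t)` between subfields of `K` and of `L`. -/
noncomputable def adjoinEquiv (t : K) :
    IntermediateField.adjoin (ZMod p) {t} ≃ₐ[ZMod p]
      IntermediateField.adjoin (ZMod p) {algebraMap K L t} :=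
  (IntermediateField.equivMap (IntermediateField.adjoin (ZMod p) {t})
    (IsScalarTower.toAlgHom (ZMod p) K L)).trans (IntermediateField.equivOfEq (by
      rw [IntermediateField.adjoin_map, Set.image_singleton]; rfl))

theorem coe_adjoinEquiv (t : K) (c : IntermediateField.adjoin (ZMod p) {t}) :
    (adjoinEquiv (L := L) p t c : L) = algebraMap K L c := rfl

theorem finrank_adjoin_algebraMap (t : K) :
    Module.finrank (IntermediateField.adjoin (ZMod p) {algebraMap K L t}) L =
      Module.finrank K L * Module.finrank (IntermediateField.adjoin (ZMod p) {t}) K := by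
  rw [mul_comm, Module.finrank_mul_finrank]
  symm
  apply Algebra.finrank_eq_of_equiv_equiv (adjoinEquiv (L := L) p t).toRingEquiv (RingEquiv.refl L)
  ext c
  rfl

theorem transcendental_algebraMap {t : K} (ht : Transcendental (ZMod p) t) :
    Transcendental (ZMod p) (algebraMap K L t) := by
  intro h
  apply ht
  exact (isAlgebraic_algebraMap_iff (algebraMap K L).injective).1 h

theorem IsFunctionField.of_finite (hK : IsFunctionField (ZMod p) K) [FiniteDimensional K L] :
    IsFunctionField (ZMod p) L := by
  obtain ⟨t, ht, hfin⟩ := hK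
  refine ⟨algebraMap K L t, transcendental_algebraMap p ht, ?_⟩
  have h1 : Module.Finite (IntermediateField.adjoin (ZMod p) {t}) L :=
    Module.Finite.trans (R := IntermediateField.adjoin (ZMod p) {t}) K L
  exact Module.Finite.of_equiv_equiv (adjoinEquiv (L := L) p t).toRingEquiv (RingEquiv.refl L)
    (by ext c; rfl)

end

section
variable (p : ℕ) [hp : Fact p.Prime] {F : Type*} [Field F] [Algebra (ZMod p) F]

/-- A function whose only zero is a given place. -/
theorem exists_only_zero (hF : IsFunctionField (ZMod p) F) (v : Place F) :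
    ∃ x : F, Transcendental (ZMod p) x ∧ 0 < v.ord x ∧ ∀ w, w ≠ v → w.ord x ≤ 0 := by
  obtain ⟨γ, c, hc⟩ := exists_riemann p hF
  have hdeg := (v.card_res p hF).2
  set N : ℕ := (|c| + |γ| + ell p (0 : Place F →₀ ℤ) + 1).toNat with hN
  have hN1 : (N : ℤ) = |c| + |γ| + ell p (0 : Place F →₀ ℤ) + 1 :=
    Int.toNat_of_nonneg (by positivity)
  have hd : degD p (Finsupp.single v (N : ℤ)) = N * v.deg p := degD_single p v N
  have hd1 : (1 : ℤ) ≤ v.deg p := by omega
  have hN2 : (N : ℤ) ≤ N * v.deg p := by nlinarith
  have h1 := hc (Finsupp.single v (N : ℤ)) (by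
    rw [hd]
    have := le_abs_self c
    have := abs_nonneg γ
    have : (0 : ℤ) ≤ ell p (0 : Place F →₀ ℤ) := by positivity
    linarith)
  rw [hd] at h1
  have h2 : ¬ LL p (Finsupp.single v (N : ℤ)) ≤ LL p (0 : Place F →₀ ℤ) := by
    intro hle
    have := finite_LL p hF (0 : Place F →₀ ℤ)
    have : Module.Finite (ZMod p) (LL p (0 : Place F →₀ ℤ)) := Module.Finite.of_finite
    have h3 : ell p (Finsupp.single v (N : ℤ)) ≤ ell p (0 : Place F →₀ ℤ) :=
      Submodule.finrank_mono hle
    have h4 := le_abs_self γ
    have h5 := abs_nonneg c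
    have h6 : (ell p (Finsupp.single v (N : ℤ)) : ℤ) ≤ ell p (0 : Place F →₀ ℤ) := by
      exact_mod_cast h3
    linarith
  obtain ⟨y, hy, hy0⟩ := SetLike.not_le_iff_exists.1 h2
  have hyne : y ≠ 0 := by rintro rfl; exact hy0 (Submodule.zero_mem _)
  have h3 : ∀ w, w ≠ v → 0 ≤ w.ord y := by
    intro w hw
    have := hy w (Set.mem_univ w)
    rw [w.val_le_exp_iff hyne, Finsupp.single_eq_of_ne hw] at this
    linarith
  have h4 : v.ord y < 0 := by
    by_contra hcon
    push Not at hcon
    apply hy0
    intro w _
    rw [w.val_le_exp_iff hyne]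
    simp only [Finsupp.coe_zero, Pi.zero_apply, neg_zero]
    by_cases hw : w = v
    · rw [hw]; exact hcon
    · exact h3 w hw
  refine ⟨y⁻¹, ?_, ?_, ?_⟩
  · intro halg
    have := ord_eq_zero_of_isAlgebraic p v halg
    rw [v.ord_inv] at this
    omega
  · rw [v.ord_inv]; omega
  · intro w hw
    rw [w.ord_inv]
    have := h3 w hw
    omega

end

section
variable (p : ℕ) [hp : Fact p.Prime] {K L : Type*} [Field K] [Field L] [Algebra (ZMod p) K]
  [Algebra (ZMod p) L] [Algebra K L] [IsScalarTower (ZMod p) K L] [FiniteDimensional K L]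

include p in
theorem exists_under (hK : IsFunctionField (ZMod p) K) (w : Place L) :
    ∃ v : Place K, Over (algebraMap K L) w v :=
  Place.exists_of_comap p hK (algebraMap K L)
    (fun z => Algebra.IsIntegral.isIntegral (R := K) z) w

include p in
theorem finite_fiber (hK : IsFunctionField (ZMod p) K) (v : Place K) :
    {w : Place L | Over (algebraMap K L) w v}.Finite := by
  obtain ⟨x, hx, hx1, -⟩ := exists_only_zero p hK v
  apply Set.Finite.subset (finite_zeros p (hK.of_finite p (L := L))
    (transcendental_algebraMap p (L := L) hx))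
  intro w hw
  rw [Set.mem_ofPred_eq] at hw ⊢
  rw [hw.ord_eq]
  have := hw.ramE_pos
  positivity

/-- The fundamental identity. -/
theorem sum_fiber (hK : IsFunctionField (ZMod p) K) (v : Place K) :
    ∑ w ∈ (finite_fiber (L := L) p hK v).toFinset, ramE (algebraMap K L) w v * w.deg p =
      Module.finrank K L * v.deg p := by
  classical
  obtain ⟨x, hx, hx1, hx2⟩ := exists_only_zero p hK v
  have hL := hK.of_finite p (L := L)
  have hxL := transcendental_algebraMap p (L := L) hx
  have h1 := degD_zeroD p hK hx
  have h2 := degD_zeroD p hL hxL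
  rw [finrank_adjoin_algebraMap] at h2
  have h3 : zeroD p hK x = Finsupp.single v (v.ord x) := by
    ext w
    rw [zeroD_apply]
    by_cases hw : w = v
    · subst hw; rw [Finsupp.single_eq_same]; omega
    · rw [Finsupp.single_eq_of_ne hw]
      have := hx2 w hw
      omega
  rw [h3, degD_single] at h1
  have h4 : degD p (zeroD p hL (algebraMap K L x)) =
      ∑ w ∈ (finite_fiber (L := L) p hK v).toFinset,
        (ramE (algebraMap K L) w v : ℤ) * v.ord x * w.deg p := by
    rw [degD, Finsupp.sum_of_support_subset (s := (finite_fiber (L := L) p hK v).toFinset)]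
    · apply Finset.sum_congr rfl
      intro w hw
      rw [Set.Finite.mem_toFinset, Set.mem_ofPred_eq] at hw
      rw [zeroD_apply, hw.ord_eq]
      have : (0 : ℤ) ≤ ramE (algebraMap K L) w v * v.ord x := by positivity
      rw [max_eq_left this]
    · intro w hw
      rw [Finsupp.mem_support_iff, zeroD_apply] at hw
      rw [Set.Finite.mem_toFinset, Set.mem_ofPred_eq]
      obtain ⟨u, hu⟩ := exists_under p hK w
      have h5 := hu.ord_eq x
      by_cases huv : u = v
      · rw [← huv]; exact hu
      · exfalso
        have h6 := hx2 u huv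
        have h7 : (ramE (algebraMap K L) w u : ℤ) * u.ord x ≤ 0 := by
          have : (0 : ℤ) ≤ ramE (algebraMap K L) w u := by positivity
          nlinarith
        apply hw
        rw [h5]
        exact max_eq_right h7
    · intro w _; simp
  rw [h4] at h2
  have h5 : (v.ord x) * ∑ w ∈ (finite_fiber (L := L) p hK v).toFinset,
        (ramE (algebraMap K L) w v : ℤ) * w.deg p =
      (v.ord x) * (Module.finrank K L * v.deg p) := by
    have h6 : (v.ord x) * ∑ w ∈ (finite_fiber (L := L) p hK v).toFinset,
        (ramE (algebraMap K L) w v : ℤ) * w.deg p =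
        ∑ w ∈ (finite_fiber (L := L) p hK v).toFinset,
        (ramE (algebraMap K L) w v : ℤ) * v.ord x * w.deg p := by
      rw [Finset.mul_sum]
      apply Finset.sum_congr rfl
      intro w _
      ring
    rw [h6, h2]
    push_cast
    rw [← h1]
    ring
  have h6 := mul_left_cancel₀ hx1.ne' h5
  exact_mod_cast h6

include p in
theorem exists_over (hK : IsFunctionField (ZMod p) K) (v : Place K) :
    ∃ w : Place L, Over (algebraMap K L) w v := by
  by_contra hcon
  push Not at hcon
  have h1 := sum_fiber (L := L) p hK v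
  have h2 : (finite_fiber (L := L) p hK v).toFinset = ∅ := by
    ext w
    rw [Set.Finite.mem_toFinset, Set.mem_ofPred_eq]
    simp [hcon w]
  rw [h2, Finset.sum_empty] at h1
  have h3 := (v.card_res p hK).2
  have h4 : 0 < Module.finrank K L := Module.finrank_pos
  have : 0 < Module.finrank K L * v.deg p := by positivity
  omega

end

end Pool.Agent.Helper47.Wan
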