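import Pool.Agent.Helper47.Wan.Defs

open IntermediateField
open scoped IntermediateField.algebraAdjoinAdjoin

namespace Pool.Agent.Helper47.Wan

namespace IsFunctionField

variable {k F : Type*} [Field k] [Field F] [Algebra k F]

theorem trdeg_eq_one (hF : IsFunctionField k F) : Algebra.trdeg k F = 1 := by
  obtain ⟨t, ht, hfin⟩ := hF
  have hi : AlgebraicIndependent k (fun _ : Unit => t) := by
    rw [algebraicIndependent_unique_type_iff]; exact ht
  have halg : Algebra.IsAlgebraic (Algebra.adjoin k (Set.range (fun _ : Unit => t))) F := by
    rw [Set.range_const]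
    have h1 : Algebra.IsAlgebraic (IntermediateField.adjoin k {t}) F := inferInstance
    exact (IsFractionRing.comap_isAlgebraic_iff (A := Algebra.adjoin k {t})
      (K := IntermediateField.adjoin k {t}) (C := F)).2 h1
  have hb : IsTranscendenceBasis k (fun _ : Unit => t) := by
    rw [isTranscendenceBasis_iff_algebraicIndependent_isAlgebraic]
    exact ⟨hi, halg⟩
  have := hb.lift_cardinalMk_eq_trdeg
  simpa using this.symm

theorem isAlgebraic_adjoin (hF : IsFunctionField k F) {x : F} (hx : Transcendental k x) :
    Algebra.IsAlgebraic (IntermediateField.adjoin k {x}) F := by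
  have hi : AlgebraicIndependent k (fun _ : Unit => x) := by
    rw [algebraicIndependent_unique_type_iff]; exact hx
  have hb := hi.isTranscendenceBasis_of_lift_trdeg_le_of_finite (by
    rw [hF.trdeg_eq_one]; simp)
  have h1 := hb.isAlgebraic
  rw [Set.range_const] at h1
  exact (IsFractionRing.comap_isAlgebraic_iff (A := Algebra.adjoin k {x})
      (K := IntermediateField.adjoin k {x}) (C := F)).1 h1

theorem finiteDimensional (hF : IsFunctionField k F) {x : F} (hx : Transcendental k x) :
    FiniteDimensional (IntermediateField.adjoin k {x}) F := by
  have halg := hF.isAlgebraic_adjoin hx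
  obtain ⟨t, ht, hfin⟩ := hF
  -- `K1 = k(x)(t)`
  let Kx := IntermediateField.adjoin k {x}
  let K1 := IntermediateField.adjoin Kx {t}
  have h1 : FiniteDimensional Kx K1 :=
    IntermediateField.adjoin.finiteDimensional (halg.isAlgebraic t).isIntegral
  -- F is finite over K1
  have h2 : FiniteDimensional K1 F := by
    obtain ⟨s, hs⟩ := (hfin : Module.Finite (IntermediateField.adjoin k {t}) F).fg_top
    refine ⟨⟨s, ?_⟩⟩
    rw [eq_top_iff]
    intro z _
    have hz : z ∈ Submodule.span (IntermediateField.adjoin k {t}) (s : Set F) := by
      rw [hs]; trivial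
    have hle : ∀ c ∈ IntermediateField.adjoin k {t}, c ∈ K1 := by
      intro c hc
      have : IntermediateField.adjoin k {t} ≤ K1.restrictScalars k := by
        rw [IntermediateField.adjoin_le_iff]
        rintro y hy
        rw [Set.mem_singleton_iff] at hy
        subst hy
        exact IntermediateField.mem_adjoin_simple_self Kx y
      exact this hc
    induction hz using Submodule.span_induction with
    | mem y hy => exact Submodule.subset_span hy
    | zero => exact Submodule.zero_mem _
    | add y z _ _ hy hz => exact Submodule.add_mem _ (hy trivial) (hz trivial)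
    | smul c y _ hy =>
      exact Submodule.smul_mem _ (⟨(c : F), hle c c.2⟩ : K1) (hy trivial)
  exact Module.Finite.trans (R := Kx) K1 F

end IsFunctionField

end Pool.Agent.Helper47.Wan
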