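import Pool.Agent.Helper47.Wan.Ext

open scoped WithZero NNReal Polynomial
open WithZero IsLocalRing

namespace Pool.Agent.Helper47.Wan

section
variable {K L : Type*} [Field K] [Field L] [Algebra K L]

/-- The Galois group acts on places. -/
noncomputable instance placeMulAction : MulAction (L ≃ₐ[K] L) (Place L) where
  smul σ w := w.conj (σ⁻¹ : L ≃ₐ[K] L).toRingEquiv
  one_smul w := by
    apply Place.ext'
    ext z
    rfl
  mul_smul σ τ w := by
    apply Place.ext'
    ext z
    change w.val ((σ * τ)⁻¹ z) = w.val (τ⁻¹ (σ⁻¹ z))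
    rw [mul_inv_rev]
    rfl

theorem smul_val (σ : L ≃ₐ[K] L) (w : Place L) (z : L) : (σ • w).val z = w.val (σ⁻¹ z) := rfl

theorem smul_val' (σ : L ≃ₐ[K] L) (w : Place L) (z : L) : (σ • w).val (σ z) = w.val z := by
  rw [smul_val]
  congr 1
  exact AlgEquiv.symm_apply_apply σ z

theorem val_apply_of_smul_eq {σ : L ≃ₐ[K] L} {w : Place L} (h : σ • w = w) (z : L) :
    w.val (σ z) = w.val z := by
  conv_lhs => rw [← h]
  exact smul_val' σ w z

theorem val_apply (σ : L ≃ₐ[K] L) (w : Place L) (z : L) : w.val (σ z) = (σ⁻¹ • w).val z := by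
  rw [smul_val, inv_inv]

theorem deg_smul (p : ℕ) (σ : L ≃ₐ[K] L) (w : Place L) : (σ • w).deg p = w.deg p :=
  w.deg_conj p _

theorem ramE_smul (σ : L ≃ₐ[K] L) (w : Place L) (v : Place K) :
    ramE (algebraMap K L) (σ • w) v = ramE (algebraMap K L) w v :=
  w.ramE_conj _ _ (fun z => by simp) v

theorem Over.smul {w : Place L} {v : Place K} (h : Over (algebraMap K L) w v) (σ : L ≃ₐ[K] L) :
    Over (algebraMap K L) (σ • w) v :=
  h.conj _ (fun z => by simp)

end

section
variable (p : ℕ) [hp : Fact p.Prime] {K L : Type*} [Field K] [Field L] [Algebra (ZMod p) K]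
  [Algebra (ZMod p) L] [Algebra K L] [IsScalarTower (ZMod p) K L] [FiniteDimensional K L]
  [IsGalois K L]

include p in
/-- The Galois group acts transitively on the places above a given place. -/
theorem exists_smul_eq (hK : IsFunctionField (ZMod p) K) {v : Place K} {w w' : Place L}
    (h : Over (algebraMap K L) w v) (h' : Over (algebraMap K L) w' v) :
    ∃ σ : L ≃ₐ[K] L, σ • w = w' := by
  classical
  by_contra hcon
  push Not at hcon
  set T := (finite_fiber (L := L) p hK v).toFinset with hT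
  have hTm : ∀ u : Place L, u ∈ T ↔ Over (algebraMap K L) u v := by
    intro u; rw [hT, Set.Finite.mem_toFinset]; rfl
  obtain ⟨z, hz⟩ := Place.weak_approx T
    (fun u => if u ∈ MulAction.orbit (L ≃ₐ[K] L) w then (1 : L) else 0) 1
  have h1 : ∀ σ : L ≃ₐ[K] L, w.val (σ z) = 1 := by
    intro σ
    rw [val_apply]
    have h2 := hz (σ⁻¹ • w) ((hTm _).2 (h.smul _))
    rw [if_pos (MulAction.mem_orbit _ _)] at h2
    have h3 : (σ⁻¹ • w).val (z - 1) < (σ⁻¹ • w).val 1 := by
      rw [map_one, Place.val_lt_one_iff_le]; exact h2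
    have h4 : z = 1 + (z - 1) := by ring
    rw [h4, Valuation.map_add_eq_of_lt_left _ h3, map_one]
  have h2 : ∀ σ : L ≃ₐ[K] L, w'.val (σ z) < 1 := by
    intro σ
    rw [val_apply]
    have h2 := hz (σ⁻¹ • w') ((hTm _).2 (h'.smul _))
    rw [if_neg (by
      rintro ⟨τ, hτ⟩
      apply hcon (σ * τ)
      rw [mul_smul]
      change σ • τ • w = w'
      have : τ • w = σ⁻¹ • w' := hτ
      rw [this, smul_inv_smul]), sub_zero, ← Place.val_lt_one_iff_le] at h2
    exact h2
  have hN : algebraMap K L (Algebra.norm K z) = ∏ σ : L ≃ₐ[K] L, σ z :=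
    Algebra.norm_eq_prod_automorphisms K z
  have h3 : w.val (algebraMap K L (Algebra.norm K z)) = 1 := by
    rw [hN, map_prod]
    exact Finset.prod_eq_one (fun σ _ => h1 σ)
  have h4 : w'.val (algebraMap K L (Algebra.norm K z)) < 1 := by
    rw [hN, map_prod, ← Finset.mul_prod_erase Finset.univ _ (Finset.mem_univ (1 : L ≃ₐ[K] L))]
    have h5 : ∏ x ∈ Finset.univ.erase (1 : L ≃ₐ[K] L), w'.val (x z) ≤ 1 :=
      Finset.prod_le_one' (fun σ _ => (h2 σ).le)
    calc w'.val ((1 : L ≃ₐ[K] L) z) * ∏ x ∈ Finset.univ.erase (1 : L ≃ₐ[K] L), w'.val (x z)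
        ≤ w'.val ((1 : L ≃ₐ[K] L) z) * 1 := mul_le_mul_right h5 _
      _ < 1 := by rw [mul_one]; exact h2 1
  rw [h.val_eq_one_iff] at h3
  rw [h'.val_lt_one_iff] at h4
  exact h4.ne h3

/-- The size of the decomposition group. -/
theorem card_stabilizer (hK : IsFunctionField (ZMod p) K) {v : Place K} {w : Place L}
    (h : Over (algebraMap K L) w v) :
    Nat.card (MulAction.stabilizer (L ≃ₐ[K] L) w) * v.deg p =
      ramE (algebraMap K L) w v * w.deg p := by
  classical
  have h1 := sum_fiber (L := L) p hK v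
  have h2 : ∀ u ∈ (finite_fiber (L := L) p hK v).toFinset,
      ramE (algebraMap K L) u v * u.deg p = ramE (algebraMap K L) w v * w.deg p := by
    intro u hu
    rw [Set.Finite.mem_toFinset, Set.mem_ofPred_eq] at hu
    obtain ⟨σ, rfl⟩ := exists_smul_eq p hK h hu
    rw [ramE_smul, deg_smul]
  rw [Finset.sum_congr rfl h2, Finset.sum_const, smul_eq_mul] at h1
  have h3 : ((finite_fiber (L := L) p hK v).toFinset : Set (Place L)) =
      MulAction.orbit (L ≃ₐ[K] L) w := by
    ext u
    rw [Finset.mem_coe, Set.Finite.mem_toFinset, Set.mem_ofPred_eq]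
    constructor
    · intro hu
      obtain ⟨σ, hσ⟩ := exists_smul_eq p hK h hu
      exact ⟨σ, hσ⟩
    · rintro ⟨σ, rfl⟩
      exact h.smul σ
  have h4 : (finite_fiber (L := L) p hK v).toFinset.card =
      Nat.card (MulAction.orbit (L ≃ₐ[K] L) w) := by
    rw [← h3, Nat.card_coe_set_eq, Set.ncard_coe_finset]
  have h5 : Nat.card (MulAction.orbit (L ≃ₐ[K] L) w) *
      Nat.card (MulAction.stabilizer (L ≃ₐ[K] L) w) = Nat.card (L ≃ₐ[K] L) := by
    rw [← Nat.card_prod]
    exact Nat.card_congr (MulAction.orbitProdStabilizerEquivGroup (L ≃ₐ[K] L) w)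
  have h6 : Nat.card (L ≃ₐ[K] L) = Module.finrank K L := IsGalois.card_aut_eq_finrank K L
  rw [h4, ← h6, ← h5, mul_assoc] at h1
  have h7 : 0 < Nat.card (MulAction.orbit (L ≃ₐ[K] L) w) := by
    have : Nonempty (MulAction.orbit (L ≃ₐ[K] L) w) := ⟨⟨w, MulAction.mem_orbit_self w⟩⟩
    have hf : Finite (MulAction.orbit (L ≃ₐ[K] L) w) := Set.finite_range _
    exact Nat.card_pos
  exact (Nat.eq_of_mul_eq_mul_left h7 h1).symm

/-- `σ` is a Frobenius element at `w`. -/
def IsFrob (σ : L ≃ₐ[K] L) (w : Place L) (v : Place K) : Prop :=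
  ∀ z, w.val z ≤ 1 → w.val (σ z - z ^ (Nat.card v.Res)) < 1

omit [FiniteDimensional K L] [IsGalois K L] [Algebra (ZMod p) K] [Algebra (ZMod p) L]
  [IsScalarTower (ZMod p) K L] in
theorem smul_eq_of_forall {σ : L ≃ₐ[K] L} {w : Place L}
    (h : ∀ z, w.val z ≤ 1 → w.val (σ z) ≤ 1) : σ • w = w := by
  have h1 : σ⁻¹ • w = w := by
    by_contra hne
    obtain ⟨z, hz1, hz2⟩ := Place.ne_iff_exists (Ne.symm hne)
    rw [smul_val, inv_inv] at hz2
    exact hz2 (h z hz1)
  conv_lhs => rw [← h1]
  rw [smul_inv_smul]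

omit [FiniteDimensional K L] [IsGalois K L] [Algebra (ZMod p) K] [Algebra (ZMod p) L]
  [IsScalarTower (ZMod p) K L] in
theorem IsFrob.smul_eq {σ : L ≃ₐ[K] L} {w : Place L} {v : Place K} (h : IsFrob σ w v) :
    σ • w = w := by
  apply smul_eq_of_forall
  intro z hz
  have h1 : σ z = (σ z - z ^ (Nat.card v.Res)) + z ^ (Nat.card v.Res) := by ring
  rw [h1]
  refine (w.val.map_add _ _).trans (max_le (h z hz).le ?_)
  rw [map_pow]
  exact pow_le_one' hz _

include p in
/-- Existence of Frobenius elements. -/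
theorem exists_isFrob (hK : IsFunctionField (ZMod p) K) {v : Place K} {w : Place L}
    (h : Over (algebraMap K L) w v) : ∃ σ : L ≃ₐ[K] L, IsFrob σ w v := by
  classical
  have hL := hK.of_finite p (L := L)
  obtain ⟨hcv, hdv⟩ := v.card_res p hK
  have := v.finite_res p hK
  have hfinw := w.finite_res p hL
  have : Fintype v.Res := Fintype.ofFinite _
  have : Fintype w.Res := Fintype.ofFinite _
  set q := Nat.card v.Res with hq
  have hcharL : CharP L p := charP_of_injective_algebraMap (algebraMap (ZMod p) L).injective p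
  -- a generator of the residue field
  obtain ⟨θ, hθ⟩ := IsCyclic.exists_generator (α := (w.Res)ˣ)
  obtain ⟨t, ht⟩ := IsLocalRing.residue_surjective (R := w.ring) (θ : w.Res)
  set T := (finite_fiber (L := L) p hK v).toFinset with hT
  have hTm : ∀ u : Place L, u ∈ T ↔ Over (algebraMap K L) u v := by
    intro u; rw [hT, Set.Finite.mem_toFinset]; rfl
  obtain ⟨a, ha⟩ := Place.weak_approx T (fun u => if u = w then (t : L) else 0) 1
  have haw : w.val (a - t) < 1 := by
    have := ha w ((hTm w).2 h)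
    rw [if_pos rfl, ← Place.val_lt_one_iff_le] at this
    exact this
  have hau : ∀ u ∈ T, u ≠ w → u.val a < 1 := by
    intro u hu hne
    have := ha u hu
    rw [if_neg hne, sub_zero, ← Place.val_lt_one_iff_le] at this
    exact this
  have htw : w.val (t : L) ≤ 1 := t.2
  have haw1 : w.val a ≤ 1 := by
    have h1 : a = (a - t) + t := by ring
    rw [h1]
    exact (w.val.map_add _ _).trans (max_le haw.le htw)
  have hau1 : ∀ u ∈ T, u.val a ≤ 1 := by
    intro u hu
    by_cases hne : u = w
    · rw [hne]; exact haw1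
    · exact (hau u hu hne).le
  have hσa : ∀ u ∈ T, ∀ σ : L ≃ₐ[K] L, u.val (σ a) ≤ 1 := by
    intro u hu σ
    rw [val_apply]
    exact hau1 _ ((hTm _).2 (((hTm _).1 hu).smul _))
  -- the characteristic polynomial
  obtain ⟨g, hg⟩ : ∃ g : K[X], g.map (algebraMap K L) =
      MulSemiringAction.charpoly (L ≃ₐ[K] L) a := by
    have h1 : MulSemiringAction.charpoly (L ≃ₐ[K] L) a ∈ Polynomial.lifts (algebraMap K L) := by
      rw [Polynomial.lifts_iff_coeff_lifts]
      intro n
      rw [IsGalois.mem_range_algebraMap_iff_fixed]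
      intro σ
      exact MulSemiringAction.smul_coeff_charpoly a n σ
    exact (Polynomial.mem_lifts _).1 h1
  have hcoefT : ∀ n, ((MulSemiringAction.charpoly (L ≃ₐ[K] L) a).coeff n) ∈ w.ring := by
    have h1 : ∀ s : Finset (L ≃ₐ[K] L), ∀ n,
        (∏ σ ∈ s, (Polynomial.X - Polynomial.C (σ • a))).coeff n ∈ w.ring := by
      intro s
      induction s using Finset.induction with
      | empty =>
        intro n
        rw [Finset.prod_empty, Polynomial.coeff_one]
        split_ifs
        · exact one_mem _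
        · exact zero_mem _
      | insert b s hb ih =>
        intro n
        rw [Finset.prod_insert hb, sub_mul, Polynomial.coeff_sub, Polynomial.coeff_C_mul]
        refine sub_mem ?_ (mul_mem (hσa w ((hTm w).2 h) b) (ih n))
        cases n with
        | zero => rw [Polynomial.coeff_X_mul_zero]; exact zero_mem _
        | succ n => rw [Polynomial.coeff_X_mul]; exact ih n
    exact h1 Finset.univ
  have hcoef : ∀ n, v.val (g.coeff n) ≤ 1 := by
    intro n
    rw [← h, ← Polynomial.coeff_map, hg]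
    exact hcoefT n
  -- Frobenius on the coefficients
  have hfrobK : ∀ c : K, v.val c ≤ 1 → v.val (c - c ^ q) < 1 := by
    intro c hc
    have h1 : (IsLocalRing.residue v.ring ⟨c, hc⟩) ^ q = IsLocalRing.residue v.ring ⟨c, hc⟩ := by
      rw [hq, Nat.card_eq_fintype_card]
      exact FiniteField.pow_card _
    rw [← map_pow, eq_comm, ← sub_eq_zero, ← map_sub, IsLocalRing.residue_eq_zero_iff,
      Valuation.mem_maximalIdeal_iff] at h1
    exact h1
  -- the value of the polynomial at `a ^ q`
  have heval : w.val ((g.map (algebraMap K L)).eval (a ^ q)) < 1 := by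
    have h0 : (g.map (algebraMap K L)).eval a = 0 := by
      rw [hg]; exact MulSemiringAction.eval_charpoly _ a
    have h1 : (g.map (algebraMap K L)).eval (a ^ q) =
        ∑ i ∈ Finset.range (g.natDegree + 1), algebraMap K L (g.coeff i - g.coeff i ^ q) *
          (a ^ q) ^ i := by
      have h2 : ((g.map (algebraMap K L)).eval a) ^ q = 0 := by
        rw [h0, zero_pow]; rw [hcv]; exact pow_ne_zero _ hp.out.ne_zero
      rw [Polynomial.eval_map, Polynomial.eval₂_eq_sum_range] at h2 ⊢
      rw [hcv, sum_pow_char_pow p] at h2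
      rw [← sub_zero (∑ i ∈ Finset.range (g.natDegree + 1), (algebraMap K L) (g.coeff i) *
        (a ^ q) ^ i), ← h2, ← Finset.sum_sub_distrib]
      apply Finset.sum_congr rfl
      intro i _
      rw [map_sub, map_pow, hcv]
      ring
    rw [h1]
    apply Valuation.map_sum_lt
    · exact one_ne_zero
    · intro i _
      rw [map_mul, map_pow, map_pow]
      calc w.val (algebraMap K L (g.coeff i - g.coeff i ^ q)) * (w.val a ^ q) ^ i
          ≤ w.val (algebraMap K L (g.coeff i - g.coeff i ^ q)) * 1 :=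
            mul_le_mul_right (pow_le_one' (pow_le_one' haw1 _) _) _
        _ < 1 := by
            rw [mul_one, h.val_lt_one_iff]
            exact hfrobK _ (hcoef i)
  obtain ⟨σ, hσ⟩ : ∃ σ : L ≃ₐ[K] L, w.val (a ^ q - σ a) < 1 := by
    by_contra hcon
    push Not at hcon
    rw [hg, MulSemiringAction.charpoly_eq, Polynomial.eval_prod, map_prod] at heval
    apply absurd heval
    rw [not_lt]
    apply Finset.one_le_prod''
    intro σ
    have := hcon σ
    simpa using this
  have hresa : ∀ (ha1 : w.val a ≤ 1), IsLocalRing.residue w.ring ⟨a, ha1⟩ = θ := by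
    intro ha1
    rw [← ht, ← sub_eq_zero, ← map_sub, IsLocalRing.residue_eq_zero_iff,
      Valuation.mem_maximalIdeal_iff]
    exact haw
  have haw2 : w.val a = 1 := by
    by_contra hne
    have h1 : w.val a < 1 := lt_of_le_of_ne haw1 hne
    have h2 : IsLocalRing.residue w.ring ⟨a, haw1⟩ = 0 := by
      rw [IsLocalRing.residue_eq_zero_iff, Valuation.mem_maximalIdeal_iff]
      exact h1
    rw [hresa haw1] at h2
    exact θ.ne_zero h2
  have hσw : σ • w = w := by
    have h1 : w.val (σ a) = 1 := by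
      have h2 : w.val (a ^ q - σ a) < w.val (a ^ q) := by rw [map_pow, haw2, one_pow]; exact hσ
      have h3 : σ a = a ^ q + -(a ^ q - σ a) := by ring
      rw [h3, Valuation.map_add_eq_of_lt_left _ (by rw [Valuation.map_neg]; exact h2), map_pow,
        haw2, one_pow]
    rw [val_apply] at h1
    have h2 : σ⁻¹ • w = w := by
      by_contra hne
      exact (hau _ ((hTm _).2 (h.smul _)) hne).ne h1
    conv_lhs => rw [← h2]
    rw [smul_inv_smul]
  refine ⟨σ, fun z hz => ?_⟩
  -- the induced automorphism of the residue field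
  have hpres : ∀ y, w.val y ≤ 1 → w.val (σ y) ≤ 1 := by
    intro y hy
    rw [val_apply_of_smul_eq hσw]; exact hy
  by_cases hz1 : w.val z < 1
  · refine (w.val.map_sub _ _).trans_lt (max_lt ?_ ?_)
    · rw [val_apply_of_smul_eq hσw]; exact hz1
    · rw [map_pow]
      refine pow_lt_one' hz1 ?_
      rw [← hq, hcv]; exact pow_ne_zero _ hp.out.ne_zero
  · have hz2 : w.val z = 1 := le_antisymm hz (not_lt.1 hz1)
    have hne : IsLocalRing.residue w.ring ⟨z, hz⟩ ≠ 0 := by
      rw [Ne, IsLocalRing.residue_eq_zero_iff, Valuation.mem_maximalIdeal_iff]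
      exact hz1
    obtain ⟨k, hk⟩ := hθ (Units.mk0 _ hne)
    have hk2 : ∃ k : ℕ, (θ : w.Res) ^ k = IsLocalRing.residue w.ring ⟨z, hz⟩ := by
      have h1 : Units.mk0 _ hne ∈ Subgroup.zpowers θ := ⟨k, hk⟩
      rw [← mem_powers_iff_mem_zpowers] at h1
      obtain ⟨m, hm⟩ := h1
      refine ⟨m, ?_⟩
      have := congrArg Units.val hm
      simpa using this
    obtain ⟨m, hm⟩ := hk2
    -- z ≡ a ^ m
    have h1 : w.val (z - a ^ m) < 1 := by
      have h2 : IsLocalRing.residue w.ring (⟨z, hz⟩ - ⟨a, haw1⟩ ^ m) = 0 := by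
        rw [map_sub, map_pow, hresa haw1, hm, sub_self]
      rw [IsLocalRing.residue_eq_zero_iff, Valuation.mem_maximalIdeal_iff] at h2
      exact h2
    have h2 : w.val (σ z - (σ a) ^ m) < 1 := by
      rw [← map_pow, ← map_sub, val_apply_of_smul_eq hσw]
      exact h1
    -- (σ a)^m ≡ (a^q)^m
    have h3 : w.val ((σ a) ^ m - (a ^ q) ^ m) < 1 := by
      have h4 : w.val ((a ^ q) ^ m - (σ a) ^ m) < 1 := by
        have h5 := (Commute.all (a ^ q) (σ a)).mul_geom_sum₂ m
        rw [← h5, map_mul]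
        have h6 : w.val (∑ i ∈ Finset.range m, (a ^ q) ^ i * σ a ^ (m - 1 - i)) ≤ 1 := by
          apply Valuation.map_sum_le
          intro i _
          rw [map_mul, map_pow, map_pow, map_pow]
          exact mul_le_one' (pow_le_one' (pow_le_one' haw1 _) _) (pow_le_one' (hpres a haw1) _)
        calc w.val (a ^ q - σ a) * w.val (∑ i ∈ Finset.range m, (a ^ q) ^ i * σ a ^ (m - 1 - i))
            ≤ w.val (a ^ q - σ a) * 1 := mul_le_mul_right h6 _
          _ < 1 := by rw [mul_one]; exact hσ
      rw [← Valuation.map_neg, neg_sub]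
      exact h4
    -- z^q ≡ (a^m)^q
    have h4 : w.val (z ^ q - (a ^ m) ^ q) < 1 := by
      have h5 : z ^ q - (a ^ m) ^ q = (z - a ^ m) ^ q := by
        rw [hcv, sub_pow_char_pow]
      rw [h5, map_pow]
      refine pow_lt_one' h1 ?_
      rw [hcv]; exact pow_ne_zero _ hp.out.ne_zero
    have h5 : σ z - z ^ q = (σ z - (σ a) ^ m) + ((σ a) ^ m - (a ^ q) ^ m) -
        (z ^ q - (a ^ m) ^ q) := by ring
    rw [h5]
    exact (w.val.map_sub _ _).trans_lt (max_lt ((w.val.map_add _ _).trans_lt (max_lt h2 h3)) h4)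

end

end Pool.Agent.Helper47.Wan
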