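import Pool.Agent.Helper47.Wan.RR

open scoped WithZero NNReal Polynomial
open WithZero IsLocalRing
open scoped IntermediateField.algebraAdjoinAdjoin

namespace Pool.Agent.Helper47.Wan

section

variable {k : Type*} [Field k] {F : Type*} [Field F] [Algebra k F]

theorem aeval_mul_mem (x : F) (W : Submodule k F) (hxW : ∀ w ∈ W, x * w ∈ W)
    (r : k[X]) {w : F} (hw : w ∈ W) : Polynomial.aeval x r * w ∈ W := by
  induction r using Polynomial.induction_on' with
  | add a b ha hb => rw [map_add, add_mul]; exact W.add_mem ha hb
  | monomial n c =>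
    rw [Polynomial.aeval_monomial, mul_assoc, ← Algebra.smul_def]
    apply W.smul_mem
    induction n with
    | zero => simpa using hw
    | succ n ih => rw [pow_succ', mul_assoc]; exact hxW _ ih

theorem indep_aux (x : F) (hx0 : x ≠ 0) (W : Submodule k F) (hxW : ∀ w ∈ W, x * w ∈ W)
    {ι : Type*} [Fintype ι] (w : ι → F) (hw : ∀ i, w i ∈ W)
    (hind : ∀ c : ι → k, (∃ w' ∈ W, ∑ i, c i • w i = x * w') → ∀ i, c i = 0) (N : ℕ) :
    ∀ r : ι → k[X], (∀ i, (r i).natDegree < N) → ∑ i, Polynomial.aeval x (r i) * w i = 0 →
      ∀ i, r i = 0 := by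
  induction N with
  | zero => intro r hr _ i; exact absurd (hr i) (by omega)
  | succ N ih =>
    intro r hr hsum
    have hdecomp : ∀ i, Polynomial.aeval x (r i) =
        x * Polynomial.aeval x (r i).divX + algebraMap k F ((r i).coeff 0) := by
      intro i
      have := congrArg (Polynomial.aeval x) (Polynomial.X_mul_divX_add (r i))
      rw [map_add, map_mul, Polynomial.aeval_X, Polynomial.aeval_C] at this
      exact this.symm
    have hsum2 : ∑ i, (r i).coeff 0 • w i =
        x * (-(∑ i, Polynomial.aeval x (r i).divX * w i)) := by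
      have : ∑ i, Polynomial.aeval x (r i) * w i =
          x * (∑ i, Polynomial.aeval x (r i).divX * w i) + ∑ i, (r i).coeff 0 • w i := by
        rw [Finset.mul_sum, ← Finset.sum_add_distrib]
        apply Finset.sum_congr rfl
        intro i _
        rw [hdecomp i, Algebra.smul_def]; ring
      rw [hsum] at this
      linear_combination -this
    have h0 : ∀ i, (r i).coeff 0 = 0 := by
      apply hind (fun i => (r i).coeff 0)
      refine ⟨_, W.neg_mem (W.sum_mem (fun i _ => aeval_mul_mem x W hxW _ (hw i))), hsum2⟩
    have hsum3 : ∑ i, Polynomial.aeval x (r i).divX * w i = 0 := by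
      have : ∑ i, (r i).coeff 0 • w i = 0 := Finset.sum_eq_zero (fun i _ => by rw [h0 i, zero_smul])
      rw [this] at hsum2
      rcases mul_eq_zero.1 hsum2.symm with h | h
      · exact absurd h hx0
      · exact neg_eq_zero.1 h
    intro i
    by_cases hN : N = 0
    · have h1 := hr i
      rw [hN] at h1
      have h2 : (r i).natDegree = 0 := by omega
      rw [Polynomial.eq_C_of_natDegree_eq_zero h2, h0 i, Polynomial.C_0]
    · have h4 := ih (fun i => (r i).divX) (fun i => by
        rw [Polynomial.natDegree_divX_eq_natDegree_tsub_one]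
        have := hr i
        omega) hsum3 i
      have h5 := Polynomial.X_mul_divX_add (r i)
      rw [h4, h0 i] at h5
      simpa using h5.symm

/-- Elements of `W` which are linearly independent over `k` modulo `x W` are linearly
independent over `k(x)`. -/
theorem linearIndependent_of_mod (x : F) (hx : Transcendental k x)
    (W : Submodule k F) (hxW : ∀ w ∈ W, x * w ∈ W)
    {ι : Type*} [Fintype ι] (w : ι → F) (hw : ∀ i, w i ∈ W)
    (hind : ∀ c : ι → k, (∃ w' ∈ W, ∑ i, c i • w i = x * w') → ∀ i, c i = 0) :
    LinearIndependent (IntermediateField.adjoin k {x}) w := by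
  have hx0 : x ≠ 0 := by
    rintro rfl
    exact hx (isAlgebraic_zero)
  rw [← LinearIndependent.iff_fractionRing (R := Algebra.adjoin k {x})]
  rw [Fintype.linearIndependent_iff]
  intro g hg
  have hr : ∀ i, ∃ r : k[X], Polynomial.aeval x r = (g i : F) := by
    intro i
    have h1 : ∀ y ∈ Algebra.adjoin k {x}, ∃ r : k[X], Polynomial.aeval x r = y := by
      intro y hy
      rw [Algebra.adjoin_singleton_eq_range_aeval] at hy
      exact hy
    exact h1 _ (g i).2
  choose r hr using hr
  obtain ⟨N, hN⟩ : ∃ N, ∀ i, (r i).natDegree < N := by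
    refine ⟨(Finset.univ.sup fun i => (r i).natDegree) + 1, fun i => ?_⟩
    have : (r i).natDegree ≤ Finset.univ.sup fun i => (r i).natDegree :=
      Finset.le_sup (f := fun i => (r i).natDegree) (Finset.mem_univ i)
    omega
  have h1 := indep_aux x hx0 W hxW w hw hind N r hN (by
    rw [← hg]
    apply Finset.sum_congr rfl
    intro i _
    rw [hr i]
    rfl)
  intro i
  ext
  rw [← hr i, h1 i]
  simp

theorem rank_quotient_le (x : F) (hx : Transcendental k x)
    [FiniteDimensional (IntermediateField.adjoin k {x}) F]
    (W W' : Submodule k F) (hxW : ∀ w ∈ W, x * w ∈ W) (hW' : ∀ w, w ∈ W' ↔ ∃ w' ∈ W, w = x * w') :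
    Module.rank k (W ⧸ W'.submoduleOf W) ≤
      (Module.finrank (IntermediateField.adjoin k {x}) F : ℕ) := by
  apply rank_le
  intro s hs
  have hlift : ∀ y : s, ∃ w : W, (W'.submoduleOf W).mkQ w = y.1 := fun y =>
    Submodule.mkQ_surjective _ y.1
  choose w hw using hlift
  have hli : LinearIndependent (IntermediateField.adjoin k {x}) (fun i : s => ((w i : W) : F)) := by
    apply linearIndependent_of_mod x hx W hxW _ (fun i => (w i).2)
    intro c hc
    rw [Fintype.linearIndependent_iff] at hs
    apply hs c
    have h1 : ∑ i, c i • (i : W ⧸ W'.submoduleOf W) =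
        (W'.submoduleOf W).mkQ (∑ i, c i • w i) := by
      rw [map_sum]
      apply Finset.sum_congr rfl
      intro i _
      rw [map_smul, hw]
    rw [h1, Submodule.mkQ_apply, Submodule.Quotient.mk_eq_zero]
    change ((∑ i, c i • w i : W) : F) ∈ W'
    rw [hW']
    obtain ⟨w', hw', h2⟩ := hc
    exact ⟨w', hw', by rw [← h2]; simp⟩
  have := hli.fintype_card_le_finrank
  simpa using this

end

end Pool.Agent.Helper47.Wan
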