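import Pool.Agent.Helper47.Wan.Level
import Pool.Agent.Helper13.WanI

open scoped WithZero NNReal Polynomial
open WithZero IsLocalRing
open Pool.Agent.Helper13.Wan

namespace Pool.Agent.Helper47.Wan

theorem IsFrob.of_compat {K K₁ L : Type*} [Field K] [Field K₁] [Field L] [Algebra K K₁]
    [Algebra K₁ L] [Algebra K L] {v : Place K} {w : Place L} {w' : Place K₁}
    (hw : Over (algebraMap K₁ L) w w') {σ : L ≃ₐ[K] L} {σ' : K₁ ≃ₐ[K] K₁}
    (hcomp : ∀ z, algebraMap K₁ L (σ' z) = σ (algebraMap K₁ L z)) (hσ : IsFrob σ w v) :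
    IsFrob σ' w' v := by
  intro z hz
  have h1 := hσ (algebraMap K₁ L z) ((hw z).2 hz)
  rw [← hw.val_lt_one_iff, map_sub, map_pow, hcomp]
  exact h1

section
variable {p : ℕ} [hp : Fact p.Prime] {K Ω : Type*} [Field K] [Field Ω] [Algebra K Ω]
  [IsGalois K Ω] (e : Gal(Ω/K) ≃ₜ* Multiplicative ℤ_[p])

/-- The inclusion of layers. -/
noncomputable abbrev layerAlg {m n : ℕ} (h : m ≤ n) : Algebra (layer e m) (layer e n) :=
  (IntermediateField.inclusion (layer_mono e h)).toRingHom.toAlgebra

instance layerFD (n : ℕ) : FiniteDimensional K (layer e n) := layer_finiteDimensional e n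

instance layerGal (n : ℕ) : IsGalois K (layer e n) := layer_isGalois e n

theorem layer_tower {m n : ℕ} (h : m ≤ n) :
    letI := layerAlg e h
    IsScalarTower K (layer e m) (layer e n) := by
  letI := layerAlg e h
  exact IsScalarTower.of_algebraMap_eq (fun z => rfl)

theorem layer_finite {m n : ℕ} (h : m ≤ n) :
    letI := layerAlg e h
    FiniteDimensional (layer e m) (layer e n) := by
  letI := layerAlg e h
  haveI := layer_tower e h
  exact Module.Finite.of_restrictScalars_finite K (layer e m) (layer e n)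

variable [Algebra (ZMod p) K] [Algebra (ZMod p) Ω] [IsScalarTower (ZMod p) K Ω]

theorem layer_tower_zmod {m n : ℕ} (h : m ≤ n) :
    letI := layerAlg e h
    IsScalarTower (ZMod p) (layer e m) (layer e n) := by
  letI := layerAlg e h
  refine IsScalarTower.of_algebraMap_eq (fun z => ?_)
  exact RingHom.congr_fun (RingHom.ext_zmod (algebraMap (ZMod p) (layer e n))
    ((algebraMap (layer e m) (layer e n)).comp (algebraMap (ZMod p) (layer e m)))) z

theorem restrict_comm {m n : ℕ} (h : m ≤ n) (σ : Gal(Ω/K)) (z : layer e m) :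
    IntermediateField.inclusion (layer_mono e h) ((AlgEquiv.restrictNormal σ (layer e m)) z) =
      (AlgEquiv.restrictNormal σ (layer e n)) (IntermediateField.inclusion (layer_mono e h) z) := by
  have h3 := AlgEquiv.restrictNormal_commutes σ (layer e n)
    (IntermediateField.inclusion (layer_mono e h) z)
  have h4 := AlgEquiv.restrictNormal_commutes σ (layer e m) z
  apply Subtype.ext
  rw [IntermediateField.coe_inclusion]
  rw [IntermediateField.algebraMap_apply, IntermediateField.algebraMap_apply] at h3 h4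
  rw [h4, h3, IntermediateField.coe_inclusion]

/-- Restriction of Frobenius elements. -/
theorem IsFrob.restrict {m n : ℕ} (h : m ≤ n) {v : Place K} {w : Place (layer e n)}
    {w' : Place (layer e m)}
    (hw : letI := layerAlg e h; Over (algebraMap (layer e m) (layer e n)) w w')
    {σ : Gal(Ω/K)} (hσ : IsFrob (AlgEquiv.restrictNormal σ (layer e n)) w v) :
    IsFrob (AlgEquiv.restrictNormal σ (layer e m)) w' v := by
  letI := layerAlg e h
  haveI := layer_tower e h
  exact IsFrob.of_compat hw (fun z => restrict_comm e h σ z) hσ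

/-- The place `v` is unramified in the `n`-th layer. -/
def UnramAt (n : ℕ) (v : Place K) : Prop :=
  ∀ w : Place (layer e n), Over (algebraMap K (layer e n)) w v →
    ramE (algebraMap K (layer e n)) w v = 1

theorem gal_layer_comm (n : ℕ) (g h : Gal(layer e n/K)) : g * h = h * g := by
  obtain ⟨en, -⟩ := exists_layer_equiv e n
  apply en.injective
  rw [map_mul, map_mul, mul_comm]

theorem one_lt_ramE_of_not_unram (hK : IsFunctionField (ZMod p) K) {m n : ℕ} (h : m ≤ n)
    {v : Place K} (hv : ¬ UnramAt e m v) (w : Place (layer e n))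
    (hw : Over (algebraMap K (layer e n)) w v) : 1 < ramE (algebraMap K (layer e n)) w v := by
  letI := layerAlg e h
  haveI := layer_tower e h
  haveI := layer_finite e h
  haveI := layer_tower_zmod e h
  have hKm := hK.of_finite p (L := layer e m)
  obtain ⟨u, hu⟩ := exists_under p hKm w
  have huv : Over (algebraMap K (layer e m)) u v :=
    hu.of_comp (by rw [algebraMap_comp]; exact hw)
  rw [UnramAt] at hv
  push Not at hv
  obtain ⟨u', hu', hne⟩ := hv
  obtain ⟨g, rfl⟩ := exists_smul_eq p hK huv hu'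
  rw [ramE_smul] at hne
  have h1 := hu.ramE_comp huv
  rw [algebraMap_comp] at h1
  have h2 := huv.ramE_pos
  have h3 := hu.ramE_pos
  have h4 : 2 ≤ ramE (algebraMap K (layer e m)) u v := by omega
  rw [h1]
  nlinarith

theorem UnramAt.mono (hK : IsFunctionField (ZMod p) K) {m n : ℕ} (h : m ≤ n)
    {v : Place K} (hv : UnramAt e n v) : UnramAt e m v := by
  by_contra hcon
  obtain ⟨w, hw⟩ := exists_over (L := layer e n) p hK v
  have h1 := one_lt_ramE_of_not_unram e hK h hcon w hw
  rw [hv w hw] at h1
  exact lt_irrefl _ h1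

/-- The value of the Frobenius in a `ℤ_p`-tower, at a place unramified in all layers. -/
theorem exists_frobVal (hK : IsFunctionField (ZMod p) K) (v : Place K)
    (hv : ∀ n, UnramAt e n v) :
    ∃ f : ℕ → ℕ, (∀ n, ∀ w : Place (layer e n), Over (algebraMap K (layer e n)) w v →
      ∀ σ : Gal(Ω/K), IsFrob (AlgEquiv.restrictNormal σ (layer e n)) w v →
        PadicInt.toZModPow n (Multiplicative.toAdd (e σ)) = (f n : ZMod (p ^ n))) ∧
      ∀ m n, m ≤ n → f n ≡ f m [MOD p ^ m] := by
  have hex : ∀ n, ∃ (w : Place (layer e n)) (σ : Gal(Ω/K)),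
      Over (algebraMap K (layer e n)) w v ∧
        IsFrob (AlgEquiv.restrictNormal σ (layer e n)) w v := by
    intro n
    obtain ⟨w, hw⟩ := exists_over (L := layer e n) p hK v
    obtain ⟨σ₀, hσ₀⟩ := exists_isFrob p hK hw
    obtain ⟨σ, hσ⟩ := AlgEquiv.restrictNormalHom_surjective (F := K) (K₁ := layer e n) Ω σ₀
    refine ⟨w, σ, hw, ?_⟩
    have h1 : AlgEquiv.restrictNormal σ (layer e n) = σ₀ := hσ
    rw [h1]
    exact hσ₀
  choose w₀ σ₀ hw₀ hσ₀ using hex
  have huniq : ∀ n, ∀ w : Place (layer e n), Over (algebraMap K (layer e n)) w v →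
      ∀ σ : Gal(Ω/K), IsFrob (AlgEquiv.restrictNormal σ (layer e n)) w v →
        PadicInt.toZModPow n (Multiplicative.toAdd (e σ)) =
          PadicInt.toZModPow n (Multiplicative.toAdd (e (σ₀ n))) := by
    intro n w hw σ hσ
    obtain ⟨en, hen⟩ := exists_layer_equiv e n
    have h1 := isFrob_unique' p hK (gal_layer_comm e n) hw (hw₀ n) (hv n w hw) hσ (hσ₀ n)
    have h2 := hen σ
    rw [h1, hen (σ₀ n)] at h2
    exact (Multiplicative.ofAdd.injective h2).symm
  refine ⟨fun n => (PadicInt.toZModPow n (Multiplicative.toAdd (e (σ₀ n)))).val, ?_, ?_⟩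
  · intro n w hw σ hσ
    rw [huniq n w hw σ hσ, ZMod.natCast_zmod_val]
  · intro m n hmn
    letI := layerAlg e hmn
    haveI := layer_tower e hmn
    haveI := layer_finite e hmn
    haveI := layer_tower_zmod e hmn
    have hKm := hK.of_finite p (L := layer e m)
    obtain ⟨u, hu⟩ := exists_under p hKm (w₀ n)
    have huv : Over (algebraMap K (layer e m)) u v :=
      hu.of_comp (by rw [algebraMap_comp]; exact hw₀ n)
    have h1 := huniq m u huv (σ₀ n) ((hσ₀ n).restrict e hmn hu)
    rw [← ZMod.natCast_eq_natCast_iff, ZMod.natCast_val, ZMod.natCast_val,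
      PadicInt.cast_toZModPow m n hmn, h1, ZMod.cast_id', id]

end

end Pool.Agent.Helper47.Wan
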