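import Pool.Agent.Helper47.Wan.NonTriv
import Pool.Agent.Helper47.Wan.DivSum

open scoped WithZero NNReal Polynomial
open WithZero IsLocalRing
open Pool.Agent.Helper18.Wan

namespace Pool.Agent.Helper47.Wan

section
variable (p : ℕ) [hp : Fact p.Prime] {K : Type*} [Field K] [Algebra (ZMod p) K]

/-- The reciprocity law modulo `p ^ n` for the additive function `f`, for conductors supported
on `S`. -/
def Recip (hK : IsFunctionField (ZMod p) K) (n : ℕ) (f : Place K → ℕ) (S : Set (Place K)) :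
    Prop :=
  ∃ m : Place K →₀ ℤ, (∀ v ∈ S, 1 ≤ m v) ∧ (∀ v ∉ S, m v = 0) ∧
    ∀ u : K, u ≠ 0 → (∀ v ∈ S, v.val (u - 1) ≤ exp (-m v)) →
      (p ^ n : ℤ) ∣ wt (fun v => (f v : ℤ)) (divF p hK u)

/-- If reciprocity holds for conductors supported at two different places, it holds with
trivial conductor. -/
theorem dvd_of_two (hK : IsFunctionField (ZMod p) K) (n : ℕ) (f : Place K → ℕ)
    {x₀ x₁ : Place K} (hne : x₀ ≠ x₁) (h₀ : Recip p hK n f {x₀}) (h₁ : Recip p hK n f {x₁})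
    {h : K} (hh : h ≠ 0) : (p ^ n : ℤ) ∣ wt (fun v => (f v : ℤ)) (divF p hK h) := by
  classical
  obtain ⟨m₀, hm₀, -, hr₀⟩ := h₀
  obtain ⟨m₁, hm₁, -, hr₁⟩ := h₁
  set N : ℤ := |m₀ x₀| + |m₁ x₁| + |x₀.ord h| with hN
  obtain ⟨z, hz⟩ := Place.weak_approx {x₀, x₁} (fun v => if v = x₀ then h⁻¹ else 1) N
  have hz0 := hz x₀ (by simp)
  have hz1 := hz x₁ (by simp)
  rw [if_pos rfl] at hz0
  rw [if_neg hne.symm] at hz1
  have hm1pos : 1 ≤ m₁ x₁ := hm₁ x₁ rfl
  have hzne : z ≠ 0 := by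
    rintro rfl
    rw [zero_sub, Valuation.map_neg, map_one, ← exp_zero, exp_le_exp] at hz1
    have h1 := abs_nonneg (m₀ x₀)
    have h2 := abs_nonneg (x₀.ord h)
    have h3 := le_abs_self (m₁ x₁)
    linarith
  have hd1 := hr₁ z hzne (by
    intro v hv
    rw [Set.mem_singleton_iff] at hv
    subst hv
    refine hz1.trans (exp_le_exp.2 ?_)
    have h1 := abs_nonneg (m₀ x₀)
    have h2 := abs_nonneg (x₀.ord h)
    have h3 := le_abs_self (m₁ v)
    linarith)
  have hd0 := hr₀ (h * z) (mul_ne_zero hh hzne) (by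
    intro v hv
    rw [Set.mem_singleton_iff] at hv
    subst hv
    have h1 : h * z - 1 = h * (z - h⁻¹) := by rw [mul_sub, mul_inv_cancel₀ hh]
    rw [h1, map_mul, v.val_eq hh]
    calc exp (-v.ord h) * v.val (z - h⁻¹) ≤ exp (-v.ord h) * exp (-N) := mul_le_mul_right hz0 _
      _ = exp (-v.ord h + -N) := by rw [← exp_add]
      _ ≤ exp (-m₀ v) := by
        rw [exp_le_exp]
        have h1 := abs_nonneg (m₁ x₁)
        have h2 := neg_abs_le (v.ord h)
        have h3 := le_abs_self (m₀ v)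
        linarith)
  rw [divF_mul p hK hh hzne, wt_add] at hd0
  have := dvd_sub hd0 hd1
  rwa [add_sub_cancel_right] at this

end

section
variable (p : ℕ) [hp : Fact p.Prime] {K K₁ L : Type*} [Field K] [Field K₁] [Field L]
  [Algebra (ZMod p) K] [Algebra (ZMod p) K₁] [Algebra (ZMod p) L]
  [Algebra K K₁] [Algebra K₁ L] [Algebra K L] [IsScalarTower K K₁ L]
  [IsScalarTower (ZMod p) K K₁] [IsScalarTower (ZMod p) K₁ L] [IsScalarTower (ZMod p) K L]
  [FiniteDimensional K K₁] [FiniteDimensional K₁ L] [FiniteDimensional K L] [IsGalois K L]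
  [IsGalois K K₁]

/-- The power sums of the `L`-function of a primitive character of the `n`-th layer lie in the
field generated by the roots of the numerator of the zeta function of the `n`-th layer. -/
theorem level_mem (n : ℕ) (hn : 1 ≤ n)
    (eL : (L ≃ₐ[K] L) ≃* Multiplicative (ZMod (p ^ n)))
    (eK₁ : (K₁ ≃ₐ[K] K₁) ≃* Multiplicative (ZMod (p ^ (n - 1))))
    (hK : IsFunctionField (ZMod p) K) (S : Set (Place K)) (hSf : S.Finite) (hS : S.Nonempty)
    (f : Place K → ℕ)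
    (hunr : ∀ v ∉ S, ∀ w : Place L, Over (algebraMap K L) w v → ramE (algebraMap K L) w v = 1)
    (hfL : ∀ v ∉ S, ∀ w : Place L, Over (algebraMap K L) w v → ∀ σ : L ≃ₐ[K] L,
      IsFrob σ w v → Multiplicative.toAdd (eL σ) = (f v : ZMod (p ^ n)))
    (hfK₁ : ∀ v ∉ S, ∀ w : Place K₁, Over (algebraMap K K₁) w v → ∀ σ : K₁ ≃ₐ[K] K₁,
      IsFrob σ w v → Multiplicative.toAdd (eK₁ σ) = (f v : ZMod (p ^ (n - 1))))
    (hram : ∀ v ∈ S, ∀ w : Place L, Over (algebraMap K L) w v →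
      1 < ramE (algebraMap K L) w v)
    (hrec : Recip p hK n f S) (h : K) (hhS : ∀ v ∈ S, v.val h = 1)
    (hNT : ¬ (p ^ n : ℤ) ∣ wt (fun v => (f v : ℤ)) (divF p hK h))
    (r : ℕ) (hr : 0 < r) (dX : Place K → ℕ) (dY : Place L → ℕ) (dY₁ : Place K₁ → ℕ)
    (hdX : ∀ v, v.deg p = r * dX v) (hdY : ∀ w, w.deg p = r * dY w)
    (hdY₁ : ∀ w, w.deg p = r * dY₁ w) (q : ℕ) (P P' : Polynomial ℤ)
    (hP : (P : PowerSeries ℤ) = (1 - PowerSeries.X) * (1 - (q : PowerSeries ℤ) * PowerSeries.X) *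
      zetaSeries dY)
    (hP' : (P' : PowerSeries ℤ) = (1 - PowerSeries.X) *
      (1 - (q : PowerSeries ℤ) * PowerSeries.X) * zetaSeries dY₁)
    {E : Type*} [Field E] [CharZero E] [IsAlgClosed E] (ζ : E) (hζ : IsPrimitiveRoot ζ (p ^ n))
    (M : Subfield E) (hM : ∀ ρ : E, (P.map (Int.castRingHom E)).eval ρ = 0 → ρ ∈ M) (k : ℕ)
    (hk : 1 ≤ k) :
    pSum (fun x : {v : Place K // v ∉ S} => dX x.1) (fun x => ζ ^ (f x.1)) k ∈ M := by
  have hK₁ := hK.of_finite p (L := K₁)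
  have hL := hK.of_finite p (L := L)
  have hposX : ∀ v, 0 < dX v := by
    intro v
    have := (v.card_res p hK).2
    rw [hdX] at this
    exact Nat.pos_of_mul_pos_left this
  have hposY : ∀ v, 0 < dY v := by
    intro v
    have := (v.card_res p hL).2
    rw [hdY] at this
    exact Nat.pos_of_mul_pos_left this
  have hposY₁ : ∀ v, 0 < dY₁ v := by
    intro v
    have := (v.card_res p hK₁).2
    rw [hdY₁] at this
    exact Nat.pos_of_mul_pos_left this
  have hfinX : ∀ d, {x | dX x ≤ d}.Finite := by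
    intro d
    apply Set.Finite.subset (finite_places_le p hK (r * d))
    intro v hv
    rw [Set.mem_ofPred_eq] at hv ⊢
    rw [hdX]
    exact Nat.mul_le_mul_left r hv
  have hfinX' : ∀ d, {x : {v : Place K // v ∉ S} | dX x.1 ≤ d}.Finite := by
    intro d
    exact Set.Finite.preimage Subtype.val_injective.injOn (hfinX d)
  have hfinY : ∀ d, {x | dY x ≤ d}.Finite := by
    intro d
    apply Set.Finite.subset (finite_places_le p hL (r * d))
    intro v hv
    rw [Set.mem_ofPred_eq] at hv ⊢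
    rw [hdY]
    exact Nat.mul_le_mul_left r hv
  have hfinY₁ : ∀ d, {x | dY₁ x ≤ d}.Finite := by
    intro d
    apply Set.Finite.subset (finite_places_le p hK₁ (r * d))
    intro v hv
    rw [Set.mem_ofPred_eq] at hv ⊢
    rw [hdY₁]
    exact Nat.mul_le_mul_left r hv
  obtain ⟨m, hm1, hm2, hm3⟩ := hrec
  have hPL := finsum_eq_zero p hK S hSf hS m hm2 hm1 n f hm3 h hhS hNT ζ hζ
    (fun x : {v : Place K // v ∉ S} => dX x.1) r hr (fun x => hdX x.1)
  exact pSum_mem p n hn ζ hζ (fun x : {v : Place K // v ∉ S} => dX x.1) dY dY₁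
    (fun x => hposX x.1) hposY hposY₁ hfinX' hfinY hfinY₁ (fun x => f x.1)
    (fun k hk => pSum_tower p n hn eL eK₁ hK S f hunr hfL hfK₁ hram r hr dX dY dY₁ hdX hdY
      hdY₁ k hk) hPL P P' q hP hP' M hM k hk

end

end Pool.Agent.Helper47.Wan
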