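import Pool.Agent.Helper47.Wan.Recip4
import Pool.Agent.Helper13.WanCred

open scoped WithZero
open WithZero IsLocalRing

namespace Pool.Agent.Helper47.Wan

/-- The reciprocity law for a Witt vector with integral coefficients outside `S`. -/
theorem reciprocity_of_witt (p : ℕ) [hp : Fact p.Prime] (n : ℕ) {F : Type*} [Field F]
    [Algebra (ZMod p) F] (hF : IsFunctionField (ZMod p) F) (S : Set (Place F)) (hSf : S.Finite)
    (f : Place F → ℕ) (a : WittVector p F) (ha : ∀ v ∉ S, ∀ i, v.val (a.coeff i) ≤ 1)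
    (hf : ∀ v ∉ S, haveI := v.charP_res p; ∀ i < n,
        (∑ j ∈ Finset.range (v.deg p), (WittVector.frobenius^[j]) (redW v a)).coeff i =
          ((f v : ℕ) : WittVector p v.Res).coeff i) :
    ∃ m : Place F →₀ ℤ, (∀ v ∈ S, 1 ≤ m v) ∧ (∀ v ∉ S, m v = 0) ∧
      ∀ u : F, u ≠ 0 → (∀ v ∈ S, v.val (u - 1) ≤ exp (-m v)) →
        (p ^ n : ℤ) ∣ wt (fun v => (f v : ℤ)) (divF p hF u) :=
  Pool.Agent.Helper13.Wan.reciprocity_of_main p n hF S hSf f a
    (fun u h1 h2 h3 h4 => recip_main p n hF S f a ha hf u h1 h2 h3 h4)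

end Pool.Agent.Helper47.Wan
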