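import Pool.Agent.Helper47.Wan.Place

open scoped WithZero
open WithZero IsLocalRing

namespace Pool.Agent.Helper47.Wan

variable {p : ℕ} {F : Type*} [Field F]

open scoped Classical in
/-- The reduction at a place of a Witt vector with integral coefficients. -/
noncomputable def redW (v : Place F) (a : WittVector p F) : WittVector p v.Res :=
  WittVector.mk p (fun i => if h : v.val (a.coeff i) ≤ 1 then
    IsLocalRing.residue v.ring ⟨a.coeff i, h⟩ else 0)

theorem redW_coeff (v : Place F) (a : WittVector p F) (i : ℕ) (h : v.val (a.coeff i) ≤ 1) :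
    (redW v a).coeff i = IsLocalRing.residue v.ring ⟨a.coeff i, h⟩ := by
  rw [redW, WittVector.coeff_mk, dif_pos h]

end Pool.Agent.Helper47.Wan
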