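import Pool.Agent.Helper47.Wan.Layers
import Pool.Agent.Helper47.Wan.Consts
import Pool.Agent.Helper18.WanP
import Pool.Agent.Helper6.WanQ
import Pool.Agent.Helper6.WanTB
import Pool.Agent.Helper47.Wan.Recip5

open scoped WithZero NNReal Polynomial
open WithZero IsLocalRing
open Pool.Agent.Helper13.Wan Pool.Agent.Helper18.Wan Pool.Agent.Helper6.WanQ

namespace Pool.Agent.Helper47.Wan

section
variable (p : ℕ) [hp : Fact p.Prime]

/-- The splitting field over `ℚ_p` of an integral polynomial. -/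
noncomputable def splitField (P : ℤ[X]) : IntermediateField ℚ_[p] (AlgebraicClosure ℚ_[p]) :=
  IntermediateField.adjoin ℚ_[p]
    ((P.map (Int.castRingHom ℚ_[p])).rootSet (AlgebraicClosure ℚ_[p]))

theorem splitField_isSplittingField (P : ℤ[X]) :
    (P.map (Int.castRingHom ℚ_[p])).IsSplittingField ℚ_[p] (splitField p P) :=
  IntermediateField.adjoin_rootSet_isSplittingField (IsAlgClosed.splits _)

instance splitField_finite (P : ℤ[X]) : FiniteDimensional ℚ_[p] (splitField p P) :=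
  haveI := splitField_isSplittingField p P
  Polynomial.IsSplittingField.finiteDimensional _ (P.map (Int.castRingHom ℚ_[p]))

instance splitField_galois (P : ℤ[X]) : IsGalois ℚ_[p] (splitField p P) := by
  haveI := splitField_isSplittingField p P
  haveI : Normal ℚ_[p] (splitField p P) :=
    Normal.of_isSplittingField (P.map (Int.castRingHom ℚ_[p]))
  exact ⟨⟩

end

section
variable (p : ℕ) [hp : Fact p.Prime] {k K Ω : Type*} [Field k] [Finite k] [Field K] [Field Ω]
  [Algebra (ZMod p) K] [Algebra (ZMod p) Ω] [Algebra K Ω] [IsScalarTower (ZMod p) K Ω]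
  [Algebra k K] [Algebra k Ω] [IsScalarTower k K Ω] [IsGalois K Ω]
  (e : Gal(Ω/K) ≃ₜ* Multiplicative ℤ_[p])

theorem recip_of_layer (hK : IsFunctionField (ZMod p) K) (n : ℕ) (S : Set (Place K))
    (hSf : S.Finite) (hS : S.Nonempty) (hunr : ∀ v ∉ S, UnramAt e n v) (f : Place K → ℕ)
    (hf : ∀ v ∉ S, ∀ w : Place (layer e n), Over (algebraMap K (layer e n)) w v →
      ∀ σ : Gal(Ω/K), IsFrob (AlgEquiv.restrictNormal σ (layer e n)) w v →
        PadicInt.toZModPow n (Multiplicative.toAdd (e σ)) = (f v : ZMod (p ^ n))) :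
    Recip p hK n f S := by
  obtain ⟨en, hen⟩ := exists_layer_equiv e n
  obtain ⟨a, ha1, ha2⟩ := Pool.Agent.Helper6.Wan.exists_witt_local (L := layer e n) p hK n en S hSf hS
    (fun v hv w hw => hunr v hv w hw) f (fun v hv w hw σ hσ => by
      obtain ⟨σ', rfl⟩ := AlgEquiv.restrictNormalHom_surjective (F := K) (K₁ := layer e n) Ω σ
      have h1 := hen σ'
      have h2 := hf v hv w hw σ' hσ
      have h3 : en (AlgEquiv.restrictNormalHom (layer e n) σ') =
        en (AlgEquiv.restrictNormal σ' (layer e n)) := rfl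
      rw [h3, h1, toAdd_ofAdd, h2])
  exact reciprocity_of_witt p n hK S hSf f a ha1 ha2

theorem tower_aux (hK : IsFunctionField (ZMod p) K)
    (hk : ∀ x : Ω, IsAlgebraic k x → ∃ c : k, algebraMap k Ω c = x)
    (hS : {v : Place K | ∃ n, ¬ UnramAt e n v}.Finite) (P : ℕ → ℤ[X])
    (hP : ∀ n, (P n : PowerSeries ℤ) = (1 - PowerSeries.X) *
      (1 - ((Nat.card k : ℕ) : PowerSeries ℤ) * PowerSeries.X) *
        zetaSeries (fun w : Place (layer e n) => kdeg k w)) :
    ∃ N, ∀ n ≥ N, p ^ (n - 2) ≤ ramIdx p (splitField p (P n)) := by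
  classical
  set S := {v : Place K | ∃ n, ¬ UnramAt e n v} with hSdef
  have hun : ∀ v ∉ S, ∀ n, UnramAt e n v := by
    intro v hv n
    by_contra h
    exact hv ⟨n, h⟩
  -- Frobenius values
  have hfex : ∀ v : Place K, ∃ f : ℕ → ℕ, v ∉ S →
      (∀ n, ∀ w : Place (layer e n), Over (algebraMap K (layer e n)) w v →
        ∀ σ : Gal(Ω/K), IsFrob (AlgEquiv.restrictNormal σ (layer e n)) w v →
          PadicInt.toZModPow n (Multiplicative.toAdd (e σ)) = (f n : ZMod (p ^ n))) ∧
      ∀ m n, m ≤ n → f n ≡ f m [MOD p ^ m] := by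
    intro v
    by_cases hv : v ∈ S
    · exact ⟨fun _ => 0, fun h => absurd hv h⟩
    · obtain ⟨f, hf⟩ := exists_frobVal e hK v (hun v hv)
      exact ⟨f, fun _ => hf⟩
  choose F hF using hfex
  have hF1 := fun v hv => (hF v hv).1
  have hF2 := fun v hv => (hF v hv).2
  have hF3 : ∀ v ∉ S, ∀ m n, m ≤ n → ((F v n : ℕ) : ZMod (p ^ m)) = (F v m : ℕ) := by
    intro v hv m n hmn
    exact (ZMod.natCast_eq_natCast_iff _ _ _).2 (hF2 v hv m n hmn)
  -- the isomorphisms
  choose en hen using fun n => exists_layer_equiv e n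
  have hfe : ∀ n, ∀ v ∉ S, ∀ w : Place (layer e n), Over (algebraMap K (layer e n)) w v →
      ∀ σ : Gal(layer e n/K), IsFrob σ w v →
        Multiplicative.toAdd (en n σ) = ((F v n : ℕ) : ZMod (p ^ n)) := by
    intro n v hv w hw σ hσ
    obtain ⟨σ', rfl⟩ := AlgEquiv.restrictNormalHom_surjective (F := K) (K₁ := layer e n) Ω σ
    have h3 : en n (AlgEquiv.restrictNormalHom (layer e n) σ') =
      en n (AlgEquiv.restrictNormal σ' (layer e n)) := rfl
    rw [h3, hen n σ', toAdd_ofAdd, hF1 v hv n w hw σ' hσ]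
  -- degrees
  obtain ⟨r, hr, hkr⟩ := exists_card_eq p k K
  have hL : ∀ n, IsFunctionField (ZMod p) (layer e n) := fun n => hK.of_finite p
  have hdX : ∀ v : Place K, v.deg p = r * kdeg k v := deg_eq_kdeg p k hK hkr
  have hdY : ∀ n, ∀ w : Place (layer e n), w.deg p = r * kdeg k w :=
    fun n => deg_eq_kdeg p k (hL n) hkr
  have hq : 2 ≤ Nat.card k := Finite.one_lt_card
  have hposX : ∀ v : Place K, 0 < kdeg k v := fun v => (card_res_eq_kdeg p k hK v).2
  -- the numerator for `K`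
  obtain ⟨PK, hPK⟩ := exists_numerator p k hK (by
    intro x hx
    have h1 : IsAlgebraic k (algebraMap K Ω x) := hx.algebraMap
    obtain ⟨c, hc⟩ := hk _ h1
    refine ⟨c, (algebraMap K Ω).injective ?_⟩
    rw [← hc]
    exact (IsScalarTower.algebraMap_apply k K Ω c).symm)
  obtain ⟨eK, heK, heK'⟩ := exists_exponent p hK
  -- nontriviality
  have hNT : ∀ n, 1 ≤ n → eK < p ^ n → ∃ h : K, h ≠ 0 ∧ (∀ v ∈ S, v.val h = 1) ∧
      ¬ (p ^ n : ℤ) ∣ wt (fun v => (F v n : ℤ)) (divF p hK h) := by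
    intro n hn hen'
    exact exists_nontrivial (L := layer e 1) p hK (en 1) S hS (fun v => F v n)
      (fun v hv => hun v hv 1)
      (fun v hv w hw σ hσ => by rw [hfe 1 v hv w hw σ hσ, hF3 v hv 1 n hn])
      r hr (fun v => kdeg k v) (fun w => kdeg k w) hdX (hdY 1) (Nat.card k) hq PK (P 1) hPK
      (hP 1) n eK heK heK' hen'
  obtain ⟨x₀, hx₀S, hx₀⟩ := exists_not_dvd (L := layer e 1) p hK (en 1) S hS (fun v => F v 1)
      (fun v hv => hun v hv 1) (fun v hv w hw σ hσ => hfe 1 v hv w hw σ hσ)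
      r hr (fun v => kdeg k v) (fun w => kdeg k w) hdX (hdY 1) (Nat.card k) hq PK (P 1) hPK
      (hP 1)
  have hpow : ∀ n, eK ≤ n → eK < p ^ n := fun n hn =>
    lt_of_le_of_lt hn (Nat.lt_pow_self hp.out.one_lt)
  -- the ramification locus is not empty
  have hSne : S.Nonempty := by
    rw [Set.nonempty_iff_ne_empty]
    intro hSe
    have hno : ∀ v : Place K, v ∉ S := fun v hv => by rw [hSe] at hv; exact hv
    obtain ⟨h, hh0, -, hhN⟩ := hNT (eK + 1) (by omega) (hpow _ (by omega))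
    obtain ⟨y₀, y₁, hy⟩ := exists_places_ne p hK
    apply hhN
    apply dvd_of_two p hK (eK + 1) (fun v => F v (eK + 1)) hy _ _ hh0
    · exact recip_of_layer p e hK (eK + 1) {y₀} (Set.finite_singleton _)
        (Set.singleton_nonempty _) (fun v _ => hun v (hno v) _) _
        (fun v _ w hw σ hσ => hF1 v (hno v) _ w hw σ hσ)
    · exact recip_of_layer p e hK (eK + 1) {y₁} (Set.finite_singleton _)
        (Set.singleton_nonempty _) (fun v _ => hun v (hno v) _) _
        (fun v _ w hw σ hσ => hF1 v (hno v) _ w hw σ hσ)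
  -- first threshold: all places of `S` are ramified
  obtain ⟨N₁, hN₁⟩ : ∃ N₁, ∀ v ∈ S, ∀ n ≥ N₁, ∀ w : Place (layer e n),
      Over (algebraMap K (layer e n)) w v → 1 < ramE (algebraMap K (layer e n)) w v := by
    have h1 : ∀ v : Place K, ∃ m, v ∈ S → ¬ UnramAt e m v := by
      intro v
      by_cases hv : v ∈ S
      · obtain ⟨m, hm⟩ := hv
        exact ⟨m, fun _ => hm⟩
      · exact ⟨0, fun h => absurd h hv⟩
    choose m hm using h1
    refine ⟨hS.toFinset.sup m, fun v hv n hn w hw => ?_⟩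
    have h2 : m v ≤ n := le_trans (Finset.le_sup ((Set.Finite.mem_toFinset hS).2 hv)) hn
    exact one_lt_ramE_of_not_unram e hK h2 (hm v hv) w hw
  -- the exponential sum
  set k₀ := kdeg k x₀ with hk₀
  have hk₀pos : 1 ≤ k₀ := hposX x₀
  have hιfin : {x : {v : Place K // v ∉ S} | kdeg k x.1 ∣ k₀}.Finite := by
    apply Set.Finite.subset (Set.Finite.preimage Subtype.val_injective.injOn
      (finite_places_le p hK (r * k₀)))
    intro x hx
    rw [Set.mem_preimage, Set.mem_ofPred_eq]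
    rw [hdX]
    exact Nat.mul_le_mul_left r (Nat.le_of_dvd (by omega) hx)
  let ι := {x : {v : Place K // v ∉ S} // x ∈ {x : {v : Place K // v ∉ S} | kdeg k x.1 ∣ k₀}}
  have : Finite ι := hιfin
  have : Fintype ι := Fintype.ofFinite ι
  let y : ℕ → ι → ℕ := fun n i => F i.1.1 n * (k₀ / kdeg k i.1.1)
  have hy : ∀ m n, m ≤ n → ∀ i, y n i ≡ y m i [MOD p ^ m] := fun m n hmn i =>
    Nat.ModEq.mul_right _ (hF2 i.1.1 i.1.2 m n hmn)
  obtain ⟨N₃, hN₃⟩ : ∃ N₃, ∀ n ≥ N₃, ∀ i j : ι, y n i ≡ y n j [MOD p ^ (n - 1)] →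
      y n i ≡ y n j [MOD p ^ n] := by
    have h1 : ∀ q : ι × ι, ∃ N, ∀ n ≥ N, y n q.1 ≡ y n q.2 [MOD p ^ (n - 1)] →
        y n q.1 ≡ y n q.2 [MOD p ^ n] := by
      rintro ⟨i, j⟩
      by_cases h : ∀ n, y n i ≡ y n j [MOD p ^ n]
      · exact ⟨0, fun n _ _ => h n⟩
      · push Not at h
        obtain ⟨n₁, hn₁⟩ := h
        refine ⟨n₁ + 1, fun n hn hmod => ?_⟩
        exfalso
        apply hn₁
        have h2 : n₁ ≤ n - 1 := by omega
        have h3 : y n i ≡ y n j [MOD p ^ n₁] := hmod.of_dvd (pow_dvd_pow p h2)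
        exact (((hy n₁ n (by omega) i).symm).trans h3).trans (hy n₁ n (by omega) j)
    choose N hN using h1
    refine ⟨Finset.univ.sup N, fun n hn i j => hN (i, j) n
      (le_trans (Finset.le_sup (Finset.mem_univ (i, j))) hn)⟩
  refine ⟨2 + eK + N₁ + N₃, fun n hn => ?_⟩
  have hn1 : 1 ≤ n := by omega
  -- the tower
  have hle : n - 1 ≤ n := Nat.sub_le n 1
  letI := layerAlg e hle
  haveI := layer_tower e hle
  haveI := layer_finite e hle
  haveI := layer_tower_zmod e hle
  obtain ⟨h, hh0, hhS, hhN⟩ := hNT n hn1 (hpow n (by omega))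
  obtain ⟨ζ, hζ⟩ : ∃ ζ : AlgebraicClosure ℚ_[p], IsPrimitiveRoot ζ (p ^ n) := by
    haveI : NeZero (p ^ n) := ⟨pow_ne_zero _ hp.out.ne_zero⟩
    exact HasEnoughRootsOfUnity.exists_primitiveRoot (AlgebraicClosure ℚ_[p]) (p ^ n)
  have hPne : P n ≠ 0 := by
    intro h0
    have h1 := hP n
    rw [h0, Polynomial.coe_zero] at h1
    have h2 := congrArg (PowerSeries.constantCoeff (R := ℤ)) h1
    rw [map_zero, map_mul, map_mul, map_sub, map_sub, map_mul, map_one,
      PowerSeries.constantCoeff_X, sub_zero, mul_zero, sub_zero, one_mul, one_mul,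
      ← PowerSeries.coeff_zero_eq_constantCoeff_apply, zetaSeries, PowerSeries.coeff_mk] at h2
    have h3 : divCount (fun w : Place (layer e n) => kdeg k w) 0 = 1 := by
      rw [divCount]
      have hpos : ∀ w : Place (layer e n), 0 < kdeg k w :=
        fun w => (card_res_eq_kdeg p k (hL n) w).2
      rw [Nat.card_eq_one_iff_unique]
      refine ⟨⟨fun a b => ?_⟩, ⟨⟨0, by simp⟩⟩⟩
      have hz : ∀ D : {D : Place (layer e n) →₀ ℕ // D.sum (fun x m => m * kdeg k x) = 0},
          D.1 = 0 := by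
        rintro ⟨D, hD⟩
        ext w
        by_contra hw
        have h4 : w ∈ D.support := Finsupp.mem_support_iff.2 hw
        rw [Finsupp.sum, Finset.sum_eq_zero_iff] at hD
        have h5 := hD w h4
        have h6 := hpos w
        rcases Nat.mul_eq_zero.1 h5 with h7 | h7
        · exact hw h7
        · omega
      exact Subtype.ext ((hz a).trans (hz b).symm)
    rw [h3] at h2
    exact zero_ne_one h2
  have hPne' : (P n).map (Int.castRingHom ℚ_[p]) ≠ 0 := by
    rw [Ne, Polynomial.map_eq_zero_iff (RingHom.injective_int _)]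
    exact hPne
  have hmem := level_mem (K₁ := layer e (n - 1)) (L := layer e n) p n hn1 (en n) (en (n - 1)) hK S
    hS hSne (fun v => F v n) (fun v hv => hun v hv n) (hfe n)
    (fun v hv w hw σ hσ => by rw [hfe (n - 1) v hv w hw σ hσ, hF3 v hv (n - 1) n hle])
    (fun v hv w hw => hN₁ v hv n (by omega) w hw)
    (recip_of_layer p e hK n S hS hSne (fun v hv => hun v hv n) _ (fun v hv => hF1 v hv n))
    h hhS hhN r hr (fun v => kdeg k v) (fun w => kdeg k w) (fun w => kdeg k w) hdX (hdY n)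
    (hdY (n - 1)) (Nat.card k) (P n) (P (n - 1)) (hP n) (hP (n - 1)) ζ hζ
    (splitField p (P n)).toSubfield (fun ρ hρ => by
      apply IntermediateField.subset_adjoin
      rw [Polynomial.mem_rootSet]
      refine ⟨hPne', ?_⟩
      have hcomp : (algebraMap ℚ_[p] (AlgebraicClosure ℚ_[p])).comp (Int.castRingHom ℚ_[p]) =
        Int.castRingHom (AlgebraicClosure ℚ_[p]) := RingHom.ext_int _ _
      rw [Polynomial.aeval_def, Polynomial.eval₂_map, hcomp]
      rw [Polynomial.eval_map] at hρ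
      exact hρ) k₀ hk₀pos
  refine ramIdx_ge p (fun i : ι => kdeg k i.1.1) (fun i => hposX i.1.1) n (by omega) (y n)
    (fun i j hij => hN₃ n (by omega) i j hij) ⟨⟨x₀, hx₀S⟩, dvd_refl k₀⟩ ?_ ζ hζ
    (splitField p (P n)) ?_
  · change ¬ p ∣ F x₀ n * (k₀ / kdeg k x₀)
    rw [← hk₀, Nat.div_self (by omega), mul_one]
    intro hdvd
    apply hx₀
    have h1 := hF2 x₀ hx₀S 1 n hn1
    rw [pow_one] at h1
    exact (Nat.ModEq.dvd_iff h1 dvd_rfl).1 hdvd
  · have h1 : pSum (fun x : {v : Place K // v ∉ S} => kdeg k x.1) (fun x => ζ ^ (F x.1 n)) k₀ =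
        ∑ i : ι, (kdeg k i.1.1 : AlgebraicClosure ℚ_[p]) * ζ ^ (y n i) := by
      rw [pSum, ← finsum_set_coe_eq_finsum_mem, finsum_eq_sum_of_fintype]
      apply Finset.sum_congr rfl
      intro i _
      rw [← pow_mul]
    rw [h1] at hmem
    exact hmem

end

end Pool.Agent.Helper47.Wan
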