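import Pool.Agent.Helper47.Wan.Unram
import Pool.Agent.Helper18.WanZ

open scoped WithZero NNReal Polynomial
open WithZero IsLocalRing
open Pool.Agent.Helper18.Wan

namespace Pool.Agent.Helper47.Wan

section
variable {K L : Type*} [Field K] [Field L] [Algebra K L]

theorem IsInert.mul {τ τ' : L ≃ₐ[K] L} {w : Place L} (h : IsInert τ w) (h' : IsInert τ' w) :
    IsInert (τ * τ') w := by
  intro z hz
  have h1 : (τ * τ') z - z = τ (τ' z - z) + (τ z - z) := by
    rw [map_sub, AlgEquiv.mul_apply]; ring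
  rw [h1]
  refine (w.val.map_add _ _).trans_lt (max_lt ?_ (h z hz))
  rw [val_apply_of_smul_eq h.smul_eq]
  exact h' z hz

theorem IsInert.pow {τ : L ≃ₐ[K] L} {w : Place L} (h : IsInert τ w) (i : ℕ) :
    IsInert (τ ^ i) w := by
  induction i with
  | zero => intro z _; simp
  | succ i ih => rw [pow_succ]; exact ih.mul h

end

section
variable (p : ℕ) [hp : Fact p.Prime] {K L : Type*} [Field K] [Field L] [Algebra (ZMod p) K]
  [Algebra (ZMod p) L] [Algebra K L] [IsScalarTower (ZMod p) K L] [FiniteDimensional K L]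

open scoped Classical in
/-- The contribution to the number of points of the places above a given place. -/
noncomputable def fibSum (hK : IsFunctionField (ZMod p) K) (dY : Place L → ℕ) (v : Place K)
    (k : ℕ) : ℤ :=
  ∑ w ∈ (finite_fiber (L := L) p hK v).toFinset.filter (fun w => dY w ∣ k), (dY w : ℤ)

theorem mem_fiber (hK : IsFunctionField (ZMod p) K) (v : Place K) (w : Place L) :
    w ∈ (finite_fiber (L := L) p hK v).toFinset ↔ Over (algebraMap K L) w v := by
  rw [Set.Finite.mem_toFinset]; rfl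

theorem pSum_eq_fibSum (hK : IsFunctionField (ZMod p) K) (r : ℕ) (hr : 0 < r)
    (dX : Place K → ℕ) (dY : Place L → ℕ) (hdX : ∀ v, v.deg p = r * dX v)
    (hdY : ∀ w, w.deg p = r * dY w) (k : ℕ) (hk : 1 ≤ k) (V : Finset (Place K))
    (hV : ∀ v, dX v ∣ k → v ∈ V) :
    pSum dY (fun _ => (1 : ℤ)) k = ∑ v ∈ V, fibSum p hK dY v k := by
  classical
  have hL := hK.of_finite p (L := L)
  have hfin : {w : Place L | dY w ∣ k}.Finite := by
    apply Set.Finite.subset (finite_places_le p hL (r * k))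
    intro w hw
    rw [Set.mem_ofPred_eq] at hw ⊢
    rw [hdY]
    exact Nat.mul_le_mul_left r (Nat.le_of_dvd (by omega) hw)
  rw [pSum, finsum_mem_eq_finite_toFinset_sum _ hfin]
  simp only [fibSum]
  rw [← Finset.sum_biUnion]
  · apply Finset.sum_congr
    · ext w
      rw [Set.Finite.mem_toFinset, Set.mem_ofPred_eq, Finset.mem_biUnion]
      constructor
      · intro hw
        obtain ⟨v, hv⟩ := exists_under p hK w
        refine ⟨v, hV v ?_, ?_⟩
        · have h1 := hv.deg_dvd p hK hL
          rw [hdX, hdY] at h1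
          exact (Nat.dvd_of_mul_dvd_mul_left hr h1).trans hw
        · rw [Finset.mem_filter, mem_fiber p hK]
          exact ⟨hv, hw⟩
      · rintro ⟨v, _, hw⟩
        rw [Finset.mem_filter] at hw
        exact hw.2
    · intro w _
      simp
  · intro v _ v' _ hvv'
    rw [Function.onFun, Finset.disjoint_left]
    intro w hw hw'
    rw [Finset.mem_filter, mem_fiber p hK] at hw hw'
    exact hvv' (hw.1.unique hw'.1)

theorem fibSum_unram [IsGalois K L] (hK : IsFunctionField (ZMod p) K) (r : ℕ) (hr : 0 < r)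
    (dX : Place K → ℕ) (dY : Place L → ℕ) (hdX : ∀ v, v.deg p = r * dX v)
    (hdY : ∀ w, w.deg p = r * dY w) (k : ℕ) (v : Place K)
    (he : ∀ w : Place L, Over (algebraMap K L) w v → ramE (algebraMap K L) w v = 1) (o : ℕ)
    (ho : ∀ w : Place L, Over (algebraMap K L) w v → ∀ σ : L ≃ₐ[K] L, IsFrob σ w v →
      orderOf σ = o) :
    fibSum (L := L) p hK dY v k = if o * dX v ∣ k then (Module.finrank K L * dX v : ℤ) else 0 := by
  classical
  have h1 : ∀ w ∈ (finite_fiber (L := L) p hK v).toFinset, dY w = o * dX v := by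
    intro w hw
    rw [mem_fiber p hK] at hw
    obtain ⟨σ, hσ⟩ := exists_isFrob p hK hw
    have h2 := orderOf_frob p hK hw (he w hw) hσ
    rw [ho w hw σ hσ, hdX, hdY] at h2
    have h3 : r * (o * dX v) = r * dY w := by rw [← h2]; ring
    exact (Nat.eq_of_mul_eq_mul_left hr h3).symm
  rw [fibSum]
  split_ifs with hdiv
  · rw [Finset.filter_true_of_mem (fun w hw => by rw [h1 w hw]; exact hdiv)]
    have h2 := sum_fiber (L := L) p hK v
    have h3 : ∑ w ∈ (finite_fiber (L := L) p hK v).toFinset,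
        ramE (algebraMap K L) w v * w.deg p =
        r * ∑ w ∈ (finite_fiber (L := L) p hK v).toFinset, dY w := by
      rw [Finset.mul_sum]
      apply Finset.sum_congr rfl
      intro w hw
      rw [mem_fiber p hK] at hw
      rw [he w hw, one_mul, hdY]
    rw [h3, hdX] at h2
    have h4 : r * ∑ w ∈ (finite_fiber (L := L) p hK v).toFinset, dY w =
        r * (Module.finrank K L * dX v) := by rw [h2]; ring
    have h5 := Nat.eq_of_mul_eq_mul_left hr h4
    exact_mod_cast h5
  · rw [Finset.filter_false_of_mem (fun w hw => by rw [h1 w hw]; exact hdiv), Finset.sum_empty]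

end

section
variable (p : ℕ) [hp : Fact p.Prime] {K K₁ L : Type*} [Field K] [Field K₁] [Field L]
  [Algebra (ZMod p) K] [Algebra (ZMod p) K₁] [Algebra (ZMod p) L]
  [Algebra K K₁] [Algebra K₁ L] [Algebra K L] [IsScalarTower K K₁ L]
  [IsScalarTower (ZMod p) K K₁] [IsScalarTower (ZMod p) K₁ L] [IsScalarTower (ZMod p) K L]
  [FiniteDimensional K K₁] [FiniteDimensional K₁ L] [FiniteDimensional K L] [IsGalois K L]

include p in
/-- In a cyclic `p`-extension, the top layer is totally ramified where the extension is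
ramified. -/
theorem isInert_of_ram [IsCyclic (L ≃ₐ[K] L)] (n : ℕ) (hcard : Nat.card (L ≃ₐ[K] L) = p ^ n)
    (hfin : Module.finrank K₁ L = p) (hK : IsFunctionField (ZMod p) K) {v : Place K}
    {w : Place L} (h : Over (algebraMap K L) w v) (he : 1 < ramE (algebraMap K L) w v)
    (g : L ≃ₐ[K₁] L) : IsInert g w := by
  classical
  obtain ⟨τ₀, hτ₀, hin⟩ := exists_isInert p hK h he
  -- an inert element of order `p`
  obtain ⟨τ, hτ, hτin⟩ : ∃ τ : L ≃ₐ[K] L, orderOf τ = p ∧ IsInert τ w := by
    have h1 : orderOf τ₀ ∣ p ^ n := by rw [← hcard]; exact orderOf_dvd_natCard τ₀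
    obtain ⟨j, hj, hj2⟩ := (Nat.dvd_prime_pow hp.out).1 h1
    have hj0 : j ≠ 0 := by
      rintro rfl
      rw [pow_zero, orderOf_eq_one_iff] at hj2
      exact hτ₀ hj2
    obtain ⟨i, rfl⟩ := Nat.exists_eq_succ_of_ne_zero hj0
    refine ⟨τ₀ ^ (p ^ i), ?_, hin.pow _⟩
    rw [orderOf_pow' _ (pow_ne_zero _ hp.out.ne_zero), hj2, Nat.succ_eq_add_one, pow_succ',
      Nat.gcd_eq_right (Dvd.intro_left _ rfl), Nat.mul_div_cancel _ (pow_pos hp.out.pos _)]
  -- `g` is a `p`-torsion element
  have : IsGalois K₁ L := IsGalois.tower_top_of_isGalois K K₁ L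
  have hgp : g ^ p = 1 := by
    have h1 : Nat.card (L ≃ₐ[K₁] L) = p := by rw [IsGalois.card_aut_eq_finrank, hfin]
    rw [← h1]
    exact pow_card_eq_one'
  set g' : L ≃ₐ[K] L := g.restrictScalars K with hg'
  have hg'p : g' ^ p = 1 := by
    have h1 : ∀ (i : ℕ) (z : L), (g' ^ i) z = (g ^ i) z := by
      intro i
      induction i with
      | zero => intro z; simp
      | succ i ih =>
        intro z
        rw [pow_succ, pow_succ, AlgEquiv.mul_apply, AlgEquiv.mul_apply, ← ih]
        rfl
    ext z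
    rw [h1, hgp]
    rfl
  have h2 : (Finset.univ.filter (fun x : L ≃ₐ[K] L => x ^ p = 1)).card ≤ p :=
    IsCyclic.card_pow_eq_one_le hp.out.pos
  have h3 : (Finset.range p).image (fun i => τ ^ i) ⊆
      Finset.univ.filter (fun x : L ≃ₐ[K] L => x ^ p = 1) := by
    intro x hx
    rw [Finset.mem_image] at hx
    obtain ⟨i, _, rfl⟩ := hx
    rw [Finset.mem_filter]
    refine ⟨Finset.mem_univ _, ?_⟩
    rw [← pow_mul, mul_comm, pow_mul, ← hτ, pow_orderOf_eq_one, one_pow]
  have h4 : ((Finset.range p).image (fun i => τ ^ i)).card = p := by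
    rw [Finset.card_image_of_injOn, Finset.card_range]
    intro i hi j hj hij
    rw [Finset.mem_coe, Finset.mem_range] at hi hj
    exact pow_injOn_Iio_orderOf (by rw [hτ]; exact hi) (by rw [hτ]; exact hj) hij
  have h5 := Finset.eq_of_subset_of_card_le h3 (by rw [h4]; exact h2)
  have h6 : g' ∈ (Finset.range p).image (fun i => τ ^ i) := by
    rw [h5, Finset.mem_filter]
    exact ⟨Finset.mem_univ _, hg'p⟩
  rw [Finset.mem_image] at h6
  obtain ⟨i, _, hi⟩ := h6
  have h7 : IsInert g' w := by rw [← hi]; exact hτin.pow i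
  intro z hz
  exact h7 z hz

theorem algebraMap_comp : (algebraMap K₁ L).comp (algebraMap K K₁) = algebraMap K L :=
  (IsScalarTower.algebraMap_eq K K₁ L).symm

theorem fibSum_ram [IsCyclic (L ≃ₐ[K] L)] (n : ℕ) (hcard : Nat.card (L ≃ₐ[K] L) = p ^ n)
    (hfin : Module.finrank K₁ L = p) (hK : IsFunctionField (ZMod p) K) (v : Place K)
    (r : ℕ) (hr : 0 < r) (dY : Place L → ℕ) (dY₁ : Place K₁ → ℕ)
    (hdY : ∀ w, w.deg p = r * dY w) (hdY₁ : ∀ w, w.deg p = r * dY₁ w)
    (he : ∀ w : Place L, Over (algebraMap K L) w v → 1 < ramE (algebraMap K L) w v) (k : ℕ) :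
    fibSum (L := L) p hK dY v k = fibSum (L := K₁) p hK dY₁ v k := by
  classical
  have hK₁ := hK.of_finite p (L := K₁)
  have hL := hK.of_finite p (L := L)
  have : IsGalois K₁ L := IsGalois.tower_top_of_isGalois K K₁ L
  choose u hu using fun w : Place L => exists_under (K := K₁) p hK₁ w
  have huv : ∀ w : Place L, Over (algebraMap K L) w v → Over (algebraMap K K₁) (u w) v := by
    intro w hw
    exact (hu w).of_comp (by rw [algebraMap_comp]; exact hw)
  have hin : ∀ w : Place L, Over (algebraMap K L) w v → ∀ g : L ≃ₐ[K₁] L, IsInert g w :=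
    fun w hw g => isInert_of_ram p n hcard hfin hK hw (he w hw) g
  have hdeg : ∀ w : Place L, Over (algebraMap K L) w v → dY w = dY₁ (u w) := by
    intro w hw
    obtain ⟨σ, hσ⟩ := exists_isFrob p hK₁ (hu w)
    have h1 := hσ.deg_le p hK₁ hL one_pos (by rw [pow_one]; exact hin w hw σ)
    have h2 := Nat.le_of_dvd (w.card_res p hL).2 ((hu w).deg_dvd p hK₁ hL)
    have h3 : w.deg p = (u w).deg p := by omega
    rw [hdY, hdY₁] at h3
    exact Nat.eq_of_mul_eq_mul_left hr h3
  rw [fibSum, fibSum]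
  apply Finset.sum_nbij u
  · intro w hw
    rw [Finset.mem_filter, mem_fiber p hK] at hw ⊢
    exact ⟨huv w hw.1, by rw [← hdeg w hw.1]; exact hw.2⟩
  · intro w hw w' hw' heq
    rw [Finset.mem_coe, Finset.mem_filter, mem_fiber p hK] at hw hw'
    have h1 : Over (algebraMap K₁ L) w' (u w) := by
      have := hu w'
      rw [← heq] at this
      exact this
    obtain ⟨g, hg⟩ := exists_smul_eq p hK₁ (hu w) h1
    rw [← hg, (hin w hw.1 g).smul_eq]
  · intro w₁ hw₁
    rw [Finset.mem_coe, Finset.mem_filter, mem_fiber p hK] at hw₁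
    obtain ⟨w, hw⟩ := exists_over (L := L) p hK₁ w₁
    have hwv : Over (algebraMap K L) w v := by
      rw [← algebraMap_comp (K₁ := K₁)]; exact hw.comp hw₁.1
    have huw : u w = w₁ := (hu w).unique hw
    refine ⟨w, ?_, huw⟩
    rw [Finset.mem_coe, Finset.mem_filter, mem_fiber p hK]
    exact ⟨hwv, by rw [hdeg w hwv, huw]; exact hw₁.2⟩
  · intro w hw
    rw [Finset.mem_filter, mem_fiber p hK] at hw
    rw [hdeg w hw.1]

end

end Pool.Agent.Helper47.Wan
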