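import Pool.Agent.Helper47.Wan.Tower
import Pool.Agent.Helper47.Wan.Poly

open scoped WithZero NNReal Polynomial
open WithZero IsLocalRing
open Pool.Agent.Helper18.Wan

namespace Pool.Agent.Helper47.Wan

section
variable (p : ℕ) [hp : Fact p.Prime] {F : Type*} [Field F] [Algebra (ZMod p) F]

include p in
theorem exists_place_notMem (hF : IsFunctionField (ZMod p) F) (S : Set (Place F))
    (hS : S.Finite) : ∃ v : Place F, v ∉ S := by
  classical
  by_cases hne : S.Nonempty
  · obtain ⟨v₀, hv₀⟩ := hne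
    choose π hπ0 hπ using fun v : Place F => v.exists_uniformizer
    obtain ⟨z, hz⟩ := Place.weak_approx hS.toFinset π 2
    have h1 : ∀ v ∈ S, v.ord z = 1 := by
      intro v hv
      have h2 := hz v ((Set.Finite.mem_toFinset hS).2 hv)
      have h3 : v.val (z - π v) < v.val (π v) := by
        rw [v.val_eq (hπ0 v), hπ v]
        exact h2.trans_lt (exp_lt_exp.2 (by norm_num))
      have h4 : v.val z = v.val (π v) := by
        have h5 : z = π v + (z - π v) := by ring
        rw [h5, Valuation.map_add_eq_of_lt_left _ h3]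
      rw [← hπ v, Place.ord, Place.ord, h4]
    have h2 : Transcendental (ZMod p) z := by
      intro halg
      have := ord_eq_zero_of_isAlgebraic p v₀ halg
      rw [h1 v₀ hv₀] at this
      omega
    obtain ⟨w, hw⟩ := exists_zero p hF (transcendental_inv p h2)
    have hz0 : z ≠ 0 := by rintro rfl; exact h2 isAlgebraic_zero
    refine ⟨w, fun hwS => ?_⟩
    rw [w.val_lt_one_iff (inv_ne_zero hz0), w.ord_inv, h1 w hwS] at hw
    omega
  · obtain ⟨v⟩ := exists_place p hF
    exact ⟨v, fun hv => hne ⟨v, hv⟩⟩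

include p in
theorem exists_places_ne (hF : IsFunctionField (ZMod p) F) : ∃ v w : Place F, v ≠ w := by
  obtain ⟨v⟩ := exists_place p hF
  obtain ⟨w, hw⟩ := exists_place_notMem p hF {v} (Set.finite_singleton v)
  exact ⟨v, w, fun h => hw h.symm⟩

end

section
variable (p : ℕ) [hp : Fact p.Prime] {K L : Type*} [Field K] [Field L] [Algebra (ZMod p) K]
  [Algebra (ZMod p) L] [Algebra K L] [IsScalarTower (ZMod p) K L] [FiniteDimensional K L]
  [IsGalois K L]

omit [Algebra (ZMod p) K] [Algebra (ZMod p) L] [IsScalarTower (ZMod p) K L] in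
theorem orderOf_layer_one (e : (L ≃ₐ[K] L) ≃* Multiplicative (ZMod (p ^ 1))) (f : ℕ)
    (σ : L ≃ₐ[K] L) (hσ : Multiplicative.toAdd (e σ) = (f : ZMod (p ^ 1))) :
    orderOf σ = if p ∣ f then 1 else p := by
  have h0 : σ = 1 ↔ p ∣ f := by
    rw [← e.map_eq_one_iff]
    have h1 : e σ = 1 ↔ Multiplicative.toAdd (e σ) = 0 := Iff.rfl
    rw [h1, hσ, ZMod.natCast_eq_zero_iff, pow_one]
  split_ifs with h
  · rw [orderOf_eq_one_iff]
    exact h0.2 h
  · apply orderOf_eq_prime
    · have h1 : Nat.card (L ≃ₐ[K] L) = p := by rw [card_gal p 1 e, pow_one]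
      rw [← h1]
      exact pow_card_eq_one'
    · exact fun h1 => h (h0.1 h1)

/-- Not almost all places split completely in the first layer. -/
theorem exists_not_dvd (hK : IsFunctionField (ZMod p) K)
    (e : (L ≃ₐ[K] L) ≃* Multiplicative (ZMod (p ^ 1))) (S : Set (Place K)) (hS : S.Finite)
    (f : Place K → ℕ)
    (hunr : ∀ v ∉ S, ∀ w : Place L, Over (algebraMap K L) w v → ramE (algebraMap K L) w v = 1)
    (hf : ∀ v ∉ S, ∀ w : Place L, Over (algebraMap K L) w v → ∀ σ : L ≃ₐ[K] L,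
      IsFrob σ w v → Multiplicative.toAdd (e σ) = (f v : ZMod (p ^ 1)))
    (r : ℕ) (hr : 0 < r) (dX : Place K → ℕ) (dY : Place L → ℕ)
    (hdX : ∀ v, v.deg p = r * dX v) (hdY : ∀ w, w.deg p = r * dY w) (q : ℕ) (hq : 2 ≤ q)
    (P P' : Polynomial ℤ)
    (hP : (P : PowerSeries ℤ) = (1 - PowerSeries.X) * (1 - (q : PowerSeries ℤ) * PowerSeries.X) *
      zetaSeries dX)
    (hP' : (P' : PowerSeries ℤ) = (1 - PowerSeries.X) *
      (1 - (q : PowerSeries ℤ) * PowerSeries.X) * zetaSeries dY) :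
    ∃ x ∉ S, ¬ p ∣ f x := by
  classical
  by_contra hcon
  push Not at hcon
  have hL := hK.of_finite p (L := L)
  have hposX : ∀ v, 0 < dX v := by
    intro v
    have := (v.card_res p hK).2
    rw [hdX] at this
    exact Nat.pos_of_mul_pos_left this
  have hposY : ∀ v, 0 < dY v := by
    intro v
    have := (v.card_res p hL).2
    rw [hdY] at this
    exact Nat.pos_of_mul_pos_left this
  have hfinX : ∀ d, {x | dX x ≤ d}.Finite := by
    intro d
    apply Set.Finite.subset (finite_places_le p hK (r * d))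
    intro v hv
    rw [Set.mem_ofPred_eq] at hv ⊢
    rw [hdX]
    exact Nat.mul_le_mul_left r hv
  have hfinY : ∀ d, {x | dY x ≤ d}.Finite := by
    intro d
    apply Set.Finite.subset (finite_places_le p hL (r * d))
    intro v hv
    rw [Set.mem_ofPred_eq] at hv ⊢
    rw [hdY]
    exact Nat.mul_le_mul_left r hv
  obtain ⟨x₁, x₂, hx⟩ := exists_places_ne p hK
  choose π hπ using fun w : Place L => exists_under p hK w
  have hfib : ∀ v, π ⁻¹' {v} = {w : Place L | Over (algebraMap K L) w v} := by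
    intro v
    ext w
    rw [Set.mem_preimage, Set.mem_singleton_iff, Set.mem_ofPred_eq]
    constructor
    · rintro rfl; exact hπ w
    · intro h; exact (hπ w).unique h
  refine zeta_split_contradiction p hp.out.two_le dX dY hposX hposY hfinX hfinY S hS π
    (fun v => by rw [hfib]; exact finite_fiber p hK v) ?_ x₁ x₂ hx q hq P P' hP hP'
  intro v hv
  have hdeg : ∀ w : Place L, Over (algebraMap K L) w v → dY w = dX v := by
    intro w hw
    obtain ⟨σ, hσ⟩ := exists_isFrob p hK hw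
    have h1 := orderOf_frob p hK hw (hunr v hv w hw) hσ
    rw [orderOf_layer_one p e (f v) σ (hf v hv w hw σ hσ), if_pos (hcon v hv), one_mul, hdX,
      hdY] at h1
    exact (Nat.eq_of_mul_eq_mul_left hr h1).symm
  refine ⟨?_, ?_⟩
  · rw [hfib]
    have h1 := sum_fiber (L := L) p hK v
    have h2 : ∀ w ∈ (finite_fiber (L := L) p hK v).toFinset,
        ramE (algebraMap K L) w v * w.deg p = v.deg p := by
      intro w hw
      rw [mem_fiber p hK] at hw
      rw [hunr v hv w hw, one_mul, hdX, hdY, hdeg w hw]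
    rw [Finset.sum_congr rfl h2, Finset.sum_const, smul_eq_mul, ← IsGalois.card_aut_eq_finrank,
      card_gal p 1 e, pow_one] at h1
    have h3 := Nat.eq_of_mul_eq_mul_right (v.card_res p hK).2 h1
    rw [← h3, Set.ncard_eq_toFinset_card _ (finite_fiber p hK v)]
  · intro w hw
    have h1 : w ∈ π ⁻¹' {v} := hw
    rw [hfib] at h1
    exact hdeg w h1

/-- The character of the tower is not trivial on principal divisors. -/
theorem exists_nontrivial (hK : IsFunctionField (ZMod p) K)
    (e : (L ≃ₐ[K] L) ≃* Multiplicative (ZMod (p ^ 1))) (S : Set (Place K)) (hS : S.Finite)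
    (f : Place K → ℕ)
    (hunr : ∀ v ∉ S, ∀ w : Place L, Over (algebraMap K L) w v → ramE (algebraMap K L) w v = 1)
    (hf : ∀ v ∉ S, ∀ w : Place L, Over (algebraMap K L) w v → ∀ σ : L ≃ₐ[K] L,
      IsFrob σ w v → Multiplicative.toAdd (e σ) = (f v : ZMod (p ^ 1)))
    (r : ℕ) (hr : 0 < r) (dX : Place K → ℕ) (dY : Place L → ℕ)
    (hdX : ∀ v, v.deg p = r * dX v) (hdY : ∀ w, w.deg p = r * dY w) (q : ℕ) (hq : 2 ≤ q)
    (P P' : Polynomial ℤ)
    (hP : (P : PowerSeries ℤ) = (1 - PowerSeries.X) * (1 - (q : PowerSeries ℤ) * PowerSeries.X) *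
      zetaSeries dX)
    (hP' : (P' : PowerSeries ℤ) = (1 - PowerSeries.X) *
      (1 - (q : PowerSeries ℤ) * PowerSeries.X) * zetaSeries dY)
    (n eK : ℕ) (heK : 0 < eK) (heK' : ∀ D : Place K →₀ ℤ, degD p D = 0 →
      ∃ z : K, z ≠ 0 ∧ divF p hK z = eK • D) (hn : eK < p ^ n) :
    ∃ h : K, h ≠ 0 ∧ (∀ v ∈ S, v.val h = 1) ∧
      ¬ (p ^ n : ℤ) ∣ wt (fun v => (f v : ℤ)) (divF p hK h) := by
  classical
  by_contra hcon
  push Not at hcon
  have hL := hK.of_finite p (L := L)
  have hposX : ∀ v, 0 < dX v := by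
    intro v
    have := (v.card_res p hK).2
    rw [hdX] at this
    exact Nat.pos_of_mul_pos_left this
  have hposY : ∀ v, 0 < dY v := by
    intro v
    have := (v.card_res p hL).2
    rw [hdY] at this
    exact Nat.pos_of_mul_pos_left this
  have hfinY : ∀ d, {x | dY x ≤ d}.Finite := by
    intro d
    apply Set.Finite.subset (finite_places_le p hL (r * d))
    intro v hv
    rw [Set.mem_ofPred_eq] at hv ⊢
    rw [hdY]
    exact Nat.mul_le_mul_left r hv
  have hpI : Prime (p : ℤ) := Nat.prime_iff_prime_int.1 hp.out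
  -- `f` vanishes modulo `p` on divisors of degree zero prime to `S`
  have hzero : ∀ D : Place K →₀ ℤ, degD p D = 0 → (∀ v ∈ S, D v = 0) →
      (p : ℤ) ∣ wt (fun v => (f v : ℤ)) D := by
    intro D hD hDS
    obtain ⟨z, hz0, hz⟩ := heK' D hD
    have h1 := hcon z hz0 (fun v hv => by
      rw [v.val_eq_one_iff hz0, ← divF_apply p hK, hz, Finsupp.smul_apply, hDS v hv, smul_zero])
    rw [hz, wt_smul] at h1
    by_contra hnd
    have h2 : IsCoprime ((p : ℤ) ^ n) (wt (fun v => (f v : ℤ)) D) :=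
      ((Prime.coprime_iff_not_dvd hpI).2 hnd).pow_left
    have h3 : (p : ℤ) ^ n ∣ eK := h2.dvd_of_dvd_mul_right h1
    have h4 : p ^ n ∣ eK := by exact_mod_cast h3
    exact absurd (Nat.le_of_dvd heK h4) (not_le.2 hn)
  -- a place with minimal valuation of the degree
  obtain ⟨x₀, hx₀S, hx₀⟩ : ∃ x₀ ∉ S, ∀ x ∉ S, padicValNat p (dX x₀) ≤ padicValNat p (dX x) := by
    obtain ⟨v, hv⟩ := exists_place_notMem p hK S hS
    have hex : ∃ m, ∃ x ∉ S, padicValNat p (dX x) = m := ⟨_, v, hv, rfl⟩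
    obtain ⟨x₀, hx₀, h1⟩ := Nat.find_spec hex
    exact ⟨x₀, hx₀, fun x hx => by rw [h1]; exact Nat.find_min' hex ⟨x, hx, rfl⟩⟩
  set a := padicValNat p (dX x₀) with ha
  have hdiv : ∀ x ∉ S, p ^ a ∣ dX x := by
    intro x hx
    exact (pow_dvd_pow p (hx₀ x hx)).trans pow_padicValNat_dvd
  obtain ⟨d₀, hd₀⟩ := hdiv x₀ hx₀S
  have hd₀p : ¬ p ∣ d₀ := by
    rintro ⟨c, rfl⟩
    have h1 : p ^ (a + 1) ∣ dX x₀ := ⟨c, by rw [hd₀, pow_succ]; ring⟩
    have := (padicValNat_dvd_iff_le (hposX x₀).ne').1 h1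
    omega
  have hpa : (0 : ℤ) < (p : ℤ) ^ a := by have := hp.out.pos; positivity
  -- congruence
  have hcong : ∀ x ∉ S, ∀ d, dX x = p ^ a * d → (p : ℤ) ∣ (d₀ : ℤ) * f x - d * f x₀ := by
    intro x hx d hd
    have h1 := hzero (Finsupp.single x (d₀ : ℤ) - Finsupp.single x₀ (d : ℤ)) (by
      rw [degD_sub, degD_single, degD_single, hdX, hdX, hd, hd₀]
      push_cast
      ring) (fun v hv => by
      have h2 : x ≠ v := fun h => hx (h ▸ hv)
      have h3 : x₀ ≠ v := fun h => hx₀S (h ▸ hv)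
      rw [Finsupp.sub_apply, Finsupp.single_eq_of_ne h2.symm, Finsupp.single_eq_of_ne h3.symm,
        sub_zero])
    rw [wt_sub, wt_single, wt_single] at h1
    exact h1
  by_cases hc : p ∣ f x₀
  · -- all places split
    obtain ⟨x, hxS, hx⟩ := exists_not_dvd p hK e S hS f hunr hf r hr dX dY hdX hdY q hq P P' hP hP'
    obtain ⟨d, hd⟩ := hdiv x hxS
    have h1 := hcong x hxS d hd
    have h2 : (p : ℤ) ∣ (d₀ : ℤ) * f x := by
      have h3 : (p : ℤ) ∣ (d : ℤ) * f x₀ := Dvd.dvd.mul_left (by exact_mod_cast hc) _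
      have := dvd_add h1 h3
      rwa [sub_add_cancel] at this
    rcases hpI.dvd_or_dvd h2 with h3 | h3
    · exact hd₀p (by exact_mod_cast h3)
    · exact hx (by exact_mod_cast h3)
  · -- all degrees are divisible by `p ^ (a + 1)`
    obtain ⟨y₁, y₂, hy⟩ := exists_places_ne p hL
    refine zeta_contradiction dY hposY hfinY (p ^ (a + 1)) ?_
      (⋃ v ∈ S, {w : Place L | Over (algebraMap K L) w v}) ?_ ?_ y₁ y₂ hy q hq P' hP'
    · calc 2 ≤ p := hp.out.two_le
        _ = p ^ 1 := (pow_one p).symm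
        _ ≤ p ^ (a + 1) := Nat.pow_le_pow_right hp.out.pos (by omega)
    · exact Set.Finite.biUnion hS (fun v _ => finite_fiber p hK v)
    · intro w hw
      obtain ⟨v, hv⟩ := exists_under p hK w
      have hvS : v ∉ S := by
        intro hvS
        apply hw
        rw [Set.mem_iUnion₂]
        exact ⟨v, hvS, hv⟩
      obtain ⟨d, hd⟩ := hdiv v hvS
      obtain ⟨σ, hσ⟩ := exists_isFrob p hK hv
      have h1 := orderOf_frob p hK hv (hunr v hvS w hv) hσ
      rw [orderOf_layer_one p e (f v) σ (hf v hvS w hv σ hσ), hdX, hdY] at h1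
      have h2 : r * ((if p ∣ f v then 1 else p) * dX v) = r * dY w := by rw [← h1]; ring
      rw [← Nat.eq_of_mul_eq_mul_left hr h2]
      split_ifs with hfv
      · -- then `p ∣ d`
        have h3 := hcong v hvS d hd
        have h4 : (p : ℤ) ∣ (d₀ : ℤ) * f v := Dvd.dvd.mul_left (by exact_mod_cast hfv) _
        have h5 : (p : ℤ) ∣ (d : ℤ) * f x₀ := by
          have := dvd_sub h4 h3
          rwa [sub_sub_cancel] at this
        rcases hpI.dvd_or_dvd h5 with h6 | h6
        · have h7 : p ∣ d := by exact_mod_cast h6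
          rw [one_mul, hd, pow_succ]
          exact Nat.mul_dvd_mul_left _ h7
        · exact absurd (by exact_mod_cast h6) hc
      · rw [hd, pow_succ', mul_comm p (p ^ a), ← mul_assoc, mul_comm p (p ^ a)]
        exact Dvd.intro _ rfl

end

end Pool.Agent.Helper47.Wan
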