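import Pool.Agent.Helper47.Wan.Riemann

open scoped WithZero NNReal Polynomial
open WithZero IsLocalRing

namespace Pool.Agent.Helper47.Wan

section
variable {K L M : Type*} [Field K] [Field L] [Field M]

/-- The place `w` of `L` lies over the place `v` of `K`, along the homomorphism `φ`. -/
def Over (φ : K →+* L) (w : Place L) (v : Place K) : Prop :=
  ∀ z, w.val (φ z) ≤ 1 ↔ v.val z ≤ 1

theorem Over.unique {φ : K →+* L} {w : Place L} {v v' : Place K} (h : Over φ w v)
    (h' : Over φ w v') : v = v' :=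
  Place.eq_of_le v v' (fun z => by rw [← h z, ← h' z])

theorem Over.comp {φ : L →+* M} {ψ : K →+* L} {x : Place M} {w : Place L} {v : Place K}
    (h : Over φ x w) (h' : Over ψ w v) : Over (φ.comp ψ) x v := by
  intro z
  rw [RingHom.comp_apply, h, h']

theorem Over.of_comp {φ : L →+* M} {ψ : K →+* L} {x : Place M} {w : Place L} {v : Place K}
    (h : Over φ x w) (h' : Over (φ.comp ψ) x v) : Over ψ w v := by
  intro z
  rw [← h' z, RingHom.comp_apply, h]

/-- The ramification index. -/
noncomputable def ramE (φ : K →+* L) (w : Place L) (v : Place K) : ℕ :=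
  (w.ord (φ (Classical.choose v.exists_uniformizer))).natAbs

theorem Over.ord_aux {φ : K →+* L} {w : Place L} {v : Place K} (h : Over φ w v) :
    0 < w.ord (φ (Classical.choose v.exists_uniformizer)) ∧
    ∀ z, w.ord (φ z) = w.ord (φ (Classical.choose v.exists_uniformizer)) * v.ord z := by
  obtain ⟨hπ0, hπ⟩ := Classical.choose_spec v.exists_uniformizer
  set π := Classical.choose v.exists_uniformizer with hπdef
  have hφ0 : ∀ z, z ≠ 0 → φ z ≠ 0 := fun z hz => by rwa [Ne, map_eq_zero]
  have h0 : ∀ z, z ≠ 0 → (0 ≤ w.ord (φ z) ↔ 0 ≤ v.ord z) := by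
    intro z hz
    rw [← w.val_le_one_iff (hφ0 z hz), ← v.val_le_one_iff hz]
    exact h z
  have h1 : 0 ≤ w.ord (φ π) := (h0 π hπ0).2 (by rw [hπ]; norm_num)
  have h2 : 0 < w.ord (φ π) := by
    rcases h1.lt_or_eq with h2 | h2
    · exact h2
    · exfalso
      have h3 := (h0 π⁻¹ (inv_ne_zero hπ0)).1 (by rw [map_inv₀, w.ord_inv, ← h2]; simp)
      rw [v.ord_inv, hπ] at h3
      omega
  refine ⟨h2, fun z => ?_⟩
  by_cases hz : z = 0
  · subst hz; simp [Place.ord]
  · have hunit : ∀ y, y ≠ 0 → v.ord y = 0 → w.ord (φ y) = 0 := by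
      intro y hy hy0
      have h4 := (h0 y hy).2 hy0.ge
      have h5 := (h0 y⁻¹ (inv_ne_zero hy)).2 (by rw [v.ord_inv, hy0]; simp)
      rw [map_inv₀, w.ord_inv] at h5
      omega
    have h6 := hunit (z * (π ^ (v.ord z))⁻¹) (mul_ne_zero hz (inv_ne_zero (zpow_ne_zero _ hπ0)))
      (by rw [v.ord_mul hz (inv_ne_zero (zpow_ne_zero _ hπ0)), v.ord_inv, v.ord_zpow, hπ]; ring)
    rw [map_mul, map_inv₀, map_zpow₀, w.ord_mul (hφ0 z hz)
      (inv_ne_zero (zpow_ne_zero _ (hφ0 π hπ0))), w.ord_inv, w.ord_zpow] at h6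
    linarith

theorem Over.ramE_pos {φ : K →+* L} {w : Place L} {v : Place K} (h : Over φ w v) :
    0 < ramE φ w v := by
  have := h.ord_aux.1
  rw [ramE]
  omega

theorem Over.ord_eq {φ : K →+* L} {w : Place L} {v : Place K} (h : Over φ w v) (z : K) :
    w.ord (φ z) = ramE φ w v * v.ord z := by
  have h1 := h.ord_aux
  rw [h1.2 z, ramE]
  congr 1
  omega

theorem Over.val_eq {φ : K →+* L} {w : Place L} {v : Place K} (h : Over φ w v) (z : K) :
    w.val (φ z) = v.val z ^ (ramE φ w v) := by
  by_cases hz : z = 0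
  · subst hz
    rw [map_zero, map_zero, map_zero, zero_pow h.ramE_pos.ne']
  · rw [w.val_eq (by rwa [Ne, map_eq_zero]), v.val_eq hz, h.ord_eq, ← exp_nsmul]
    congr 1
    simp

theorem Over.val_lt_one_iff {φ : K →+* L} {w : Place L} {v : Place K} (h : Over φ w v) (z : K) :
    w.val (φ z) < 1 ↔ v.val z < 1 := by
  rw [h.val_eq]
  exact pow_lt_one_iff h.ramE_pos.ne'

theorem Over.val_eq_one_iff {φ : K →+* L} {w : Place L} {v : Place K} (h : Over φ w v) (z : K) :
    w.val (φ z) = 1 ↔ v.val z = 1 := by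
  rw [h.val_eq]
  rw [pow_eq_one_iff]
  exact or_iff_left h.ramE_pos.ne'

/-- ramification indices are multiplicative -/
theorem Over.ramE_comp {φ : L →+* M} {ψ : K →+* L} {x : Place M} {w : Place L} {v : Place K}
    (h : Over φ x w) (h' : Over ψ w v) :
    ramE (φ.comp ψ) x v = ramE φ x w * ramE ψ w v := by
  obtain ⟨π, hπ0, hπ⟩ := v.exists_uniformizer
  have h1 := (h.comp h').ord_eq π
  rw [RingHom.comp_apply, h.ord_eq, h'.ord_eq, hπ] at h1
  have h2 : (ramE φ x w : ℤ) * ramE ψ w v = ramE (φ.comp ψ) x v := by linarith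
  exact_mod_cast h2.symm

/-- The homomorphism of valuation rings. -/
noncomputable def Over.ringMap {φ : K →+* L} {w : Place L} {v : Place K} (h : Over φ w v) :
    v.ring →+* w.ring where
  toFun z := ⟨φ z, (h z).2 z.2⟩
  map_one' := by ext; simp
  map_zero' := by ext; simp
  map_mul' a b := by ext; simp
  map_add' a b := by ext; simp

theorem Over.coe_ringMap {φ : K →+* L} {w : Place L} {v : Place K} (h : Over φ w v) (z : v.ring) :
    (h.ringMap z : L) = φ z := rfl

instance Over.isLocalHom {φ : K →+* L} {w : Place L} {v : Place K} (h : Over φ w v) :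
    IsLocalHom h.ringMap := by
  constructor
  intro z hz
  by_contra hcon
  have h1 : z ∈ IsLocalRing.maximalIdeal v.ring := hcon
  rw [Valuation.mem_maximalIdeal_iff] at h1
  have h2 : h.ringMap z ∈ IsLocalRing.maximalIdeal w.ring := by
    rw [Valuation.mem_maximalIdeal_iff]
    exact (h.val_lt_one_iff z).2 h1
  exact h2 hz

/-- The homomorphism of residue fields. -/
noncomputable def Over.res {φ : K →+* L} {w : Place L} {v : Place K} (h : Over φ w v) :
    v.Res →+* w.Res := IsLocalRing.ResidueField.map h.ringMap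

theorem Over.res_residue {φ : K →+* L} {w : Place L} {v : Place K} (h : Over φ w v) (z : v.ring) :
    h.res (IsLocalRing.residue v.ring z) = IsLocalRing.residue w.ring (h.ringMap z) := rfl

theorem Place.exists_of_comap (p : ℕ) [Fact p.Prime] [Algebra (ZMod p) K]
    (hK : IsFunctionField (ZMod p) K) (φ : K →+* L) (hφ : φ.IsIntegral) (w : Place L) :
    ∃ v : Place K, Over φ w v := by
  have htop : w.ring.comap φ ≠ ⊤ := by
    intro htop
    apply w.ring_ne_top
    rw [eq_top_iff]
    intro z _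
    have h1 := hφ z
    have h2 : ∀ c : K, φ c ∈ w.ring := by
      intro c
      have : c ∈ w.ring.comap φ := by rw [htop]; exact ValuationSubring.mem_top c
      exact this
    obtain ⟨q, hq, hqz⟩ := h1
    -- lift the polynomial
    let ψ : K →+* w.ring := 
      { toFun := fun c => ⟨φ c, h2 c⟩
        map_one' := by ext; simp
        map_zero' := by ext; simp
        map_mul' := fun a b => by ext; simp
        map_add' := fun a b => by ext; simp }
    have h3 : IsIntegral w.ring z := by
      refine ⟨q.map ψ, hq.map ψ, ?_⟩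
      rw [Polynomial.eval₂_map]
      exact hqz
    obtain ⟨y, hy⟩ := (IsIntegrallyClosed.isIntegral_iff (R := w.ring) (K := L)).1 h3
    rw [← hy]
    exact y.2
  obtain ⟨v, hv⟩ := exists_place_of_ne_top p hK _ htop
  refine ⟨v, fun z => ?_⟩
  rw [← v.mem_ring, hv]
  rfl

/-- Transport of a place along an automorphism. -/
def Place.conj (w : Place L) (σ : L ≃+* L) : Place L where
  val := w.val.comap (σ : L →+* L)
  surj := by
    intro γ
    obtain ⟨z, hz⟩ := w.surj γ
    exact ⟨σ.symm z, by simp [hz]⟩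

theorem Place.conj_val (w : Place L) (σ : L ≃+* L) (z : L) : (w.conj σ).val z = w.val (σ z) := rfl

theorem Place.conj_ord (w : Place L) (σ : L ≃+* L) (z : L) : (w.conj σ).ord z = w.ord (σ z) := rfl

theorem Place.conj_mul (w : Place L) (σ τ : L ≃+* L) : (w.conj σ).conj τ = w.conj (σ * τ) := rfl

theorem Place.conj_one (w : Place L) : w.conj 1 = w := rfl

theorem Place.over_conj (w : Place L) (σ : L ≃+* L) : Over (σ : L →+* L) w (w.conj σ) :=
  fun _ => Iff.rfl

theorem Place.res_conj_bijective (w : Place L) (σ : L ≃+* L) :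
    Function.Bijective (w.over_conj σ).res := by
  refine ⟨RingHom.injective _, fun y => ?_⟩
  obtain ⟨z, rfl⟩ := IsLocalRing.residue_surjective y
  refine ⟨IsLocalRing.residue _ ⟨σ.symm z, ?_⟩, ?_⟩
  · change w.val (σ (σ.symm z)) ≤ 1
    rw [RingEquiv.apply_symm_apply]
    exact z.2
  · rw [Over.res_residue]
    congr 1
    ext
    rw [Over.coe_ringMap]
    simp

theorem Place.deg_conj (p : ℕ) (w : Place L) (σ : L ≃+* L) : (w.conj σ).deg p = w.deg p := by
  rw [Place.deg, Place.deg]
  congr 1
  exact Nat.card_congr (Equiv.ofBijective _ (w.res_conj_bijective σ))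

theorem Place.ramE_conj (φ : K →+* L) (w : Place L) (σ : L ≃+* L) (hσ : ∀ z, σ (φ z) = φ z)
    (v : Place K) : ramE φ (w.conj σ) v = ramE φ w v := by
  rw [ramE, ramE, Place.conj_ord, hσ]

theorem Over.conj {φ : K →+* L} {w : Place L} {v : Place K} (h : Over φ w v) (σ : L ≃+* L)
    (hσ : ∀ z, σ (φ z) = φ z) : Over φ (w.conj σ) v := by
  intro z
  rw [Place.conj_val, hσ]
  exact h z

end

end Pool.Agent.Helper47.Wan
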