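import Pool.Agent.Helper47.Wan.Defs

open scoped WithZero NNReal
open WithZero IsLocalRing

namespace Pool.Agent.Helper47.Wan

namespace Place

variable {F : Type*} [Field F]

theorem mem_ring (v : Place F) {z : F} : z ∈ v.ring ↔ v.val z ≤ 1 := Iff.rfl

/-- The (additive) order of `z` at the place `v`; it is `0` for `z = 0`. -/
noncomputable def ord (v : Place F) (z : F) : ℤ := - log (v.val z)

theorem val_eq (v : Place F) {z : F} (hz : z ≠ 0) : v.val z = exp (-(v.ord z)) := by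
  rw [ord, neg_neg, exp_log]
  exact (v.val.ne_zero_iff).2 hz

theorem ord_mul (v : Place F) {y z : F} (hy : y ≠ 0) (hz : z ≠ 0) :
    v.ord (y * z) = v.ord y + v.ord z := by
  simp only [ord]
  rw [map_mul, log_mul ((v.val.ne_zero_iff).2 hy) ((v.val.ne_zero_iff).2 hz)]
  ring

theorem ord_one (v : Place F) : v.ord 1 = 0 := by simp [ord]

theorem ord_inv (v : Place F) (z : F) : v.ord z⁻¹ = - v.ord z := by
  simp [ord, log_inv]

theorem ord_pow (v : Place F) (z : F) (n : ℕ) : v.ord (z ^ n) = n * v.ord z := by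
  simp [ord, log_pow]

theorem ord_zpow (v : Place F) (z : F) (n : ℤ) : v.ord (z ^ n) = n * v.ord z := by
  simp [ord, log_zpow]

theorem ord_div (v : Place F) {y z : F} (hy : y ≠ 0) (hz : z ≠ 0) :
    v.ord (y / z) = v.ord y - v.ord z := by
  rw [div_eq_mul_inv, ord_mul v hy (inv_ne_zero hz), ord_inv]; ring

theorem val_le_exp_iff (v : Place F) {z : F} (hz : z ≠ 0) (n : ℤ) :
    v.val z ≤ exp n ↔ -n ≤ v.ord z := by
  rw [val_eq v hz, exp_le_exp]; constructor <;> intro h <;> linarith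

theorem val_le_one_iff (v : Place F) {z : F} (hz : z ≠ 0) : v.val z ≤ 1 ↔ 0 ≤ v.ord z := by
  have := val_le_exp_iff v hz 0
  simpa using this

theorem val_lt_one_iff (v : Place F) {z : F} (hz : z ≠ 0) : v.val z < 1 ↔ 0 < v.ord z := by
  rw [val_eq v hz, ← exp_zero, exp_lt_exp]; constructor <;> intro h <;> linarith

theorem val_eq_one_iff (v : Place F) {z : F} (hz : z ≠ 0) : v.val z = 1 ↔ v.ord z = 0 := by
  rw [val_eq v hz, ← exp_zero, exp_inj]; constructor <;> intro h <;> linarith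

theorem exists_uniformizer (v : Place F) : ∃ π : F, π ≠ 0 ∧ v.ord π = 1 := by
  obtain ⟨π, hπ⟩ := v.surj (exp (-1 : ℤ))
  have h0 : π ≠ 0 := by
    rintro rfl
    rw [map_zero] at hπ
    exact exp_ne_zero hπ.symm
  refine ⟨π, h0, ?_⟩
  rw [ord, hπ, log_exp]; ring

theorem val_lt_one_iff_le (v : Place F) (z : F) : v.val z < 1 ↔ v.val z ≤ exp (-1 : ℤ) := by
  by_cases hz : z = 0
  · subst hz; simp
  · rw [val_lt_one_iff v hz, val_le_exp_iff v hz]
    constructor <;> intro h <;> omega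

@[ext] theorem ext' {v w : Place F} (h : v.val = w.val) : v = w := by
  cases v; cases w; simp_all

theorem eq_of_le (v w : Place F) (h : ∀ z, v.val z ≤ 1 ↔ w.val z ≤ 1) : v = w := by
  have h0 : ∀ z : F, z ≠ 0 → (0 ≤ v.ord z ↔ 0 ≤ w.ord z) := fun z hz => by
    rw [← val_le_one_iff v hz, ← val_le_one_iff w hz]; exact h z
  have h1 : ∀ z : F, z ≠ 0 → v.ord z = 0 → w.ord z = 0 := by
    intro z hz hv
    have a := (h0 z hz).1 hv.ge
    have b := (h0 z⁻¹ (inv_ne_zero hz)).1 (by rw [ord_inv, hv]; simp)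
    rw [ord_inv] at b
    omega
  obtain ⟨π, hπ0, hπ⟩ := v.exists_uniformizer
  have hwπ : 0 ≤ w.ord π := (h0 π hπ0).1 (by rw [hπ]; norm_num)
  have key : ∀ z : F, z ≠ 0 → w.ord z = v.ord z * w.ord π := by
    intro z hz
    have hz' : z * (π ^ (v.ord z))⁻¹ ≠ 0 := mul_ne_zero hz (inv_ne_zero (zpow_ne_zero _ hπ0))
    have e1 : v.ord (z * (π ^ (v.ord z))⁻¹) = 0 := by
      rw [ord_mul v hz (inv_ne_zero (zpow_ne_zero _ hπ0)), ord_inv, ord_zpow, hπ]; ring
    have e2 := h1 _ hz' e1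
    rw [ord_mul w hz (inv_ne_zero (zpow_ne_zero _ hπ0)), ord_inv, ord_zpow] at e2
    linarith
  obtain ⟨ρ, hρ0, hρ⟩ := w.exists_uniformizer
  have e3 := key ρ hρ0
  rw [hρ] at e3
  have e4 : w.ord π = 1 := by
    have : w.ord π ∣ 1 := Dvd.intro_left _ e3.symm
    exact Int.eq_one_of_dvd_one hwπ this
  apply ext'
  ext z
  by_cases hz : z = 0
  · subst hz; simp
  · rw [val_eq v hz, val_eq w hz, key z hz, e4, mul_one]

theorem eq_of_ring_eq {v w : Place F} (h : v.ring = w.ring) : v = w :=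
  eq_of_le v w (fun z => by rw [← mem_ring, ← mem_ring, h])

theorem ne_iff_exists {v w : Place F} (h : v ≠ w) : ∃ z, v.val z ≤ 1 ∧ ¬ w.val z ≤ 1 := by
  by_contra hcon
  push Not at hcon
  -- `v.ring ≤ w.ring`, and discrete valuation rings are maximal
  apply h
  apply eq_of_le
  intro z
  refine ⟨hcon z, fun hw => ?_⟩
  by_contra hv
  have hz : z ≠ 0 := by rintro rfl; simp at hv
  have hv' : v.ord z < 0 := by
    rw [val_le_one_iff v hz] at hv; omega
  -- every element has w-order zero or positive times; contradiction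
  have all : ∀ y : F, y ≠ 0 → 0 ≤ w.ord y := by
    intro y hy
    obtain ⟨k, hk⟩ : ∃ k : ℕ, 0 ≤ v.ord y - k * v.ord z := by
      refine ⟨(v.ord y).natAbs, ?_⟩
      have h1 : (1 : ℤ) ≤ - v.ord z := by omega
      have h2 : -((v.ord y).natAbs : ℤ) ≤ v.ord y := by omega
      nlinarith [Int.natCast_nonneg (v.ord y).natAbs]
    have hy' : y / z ^ k ≠ 0 := div_ne_zero hy (pow_ne_zero _ hz)
    have h3 : 0 ≤ v.ord (y / z ^ k) := by
      rw [ord_div v hy (pow_ne_zero _ hz), ord_pow]; exact hk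
    have h4 : 0 ≤ w.ord (y / z ^ k) := by
      rw [← val_le_one_iff w hy']
      apply hcon
      rw [val_le_one_iff v hy']
      exact h3
    rw [ord_div w hy (pow_ne_zero _ hz), ord_pow] at h4
    have h5 : 0 ≤ w.ord z := by rw [← val_le_one_iff w hz]; exact hw
    nlinarith [mul_nonneg (Int.natCast_nonneg k) h5]
  obtain ⟨ρ, hρ0, hρ⟩ := w.exists_uniformizer
  have := all ρ⁻¹ (inv_ne_zero hρ0)
  rw [ord_inv, hρ] at this
  omega

/-- The absolute value attached to a place. -/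
noncomputable def abv (v : Place F) : AbsoluteValue F ℝ where
  toFun z := ((WithZeroMulInt.toNNReal (e := 2) (by norm_num) (v.val z) : ℝ≥0) : ℝ)
  map_mul' x y := by simp
  nonneg' x := NNReal.coe_nonneg _
  eq_zero' x := by simp
  add_le' x y := by
    have hmono := (WithZeroMulInt.toNNReal_strictMono (e := 2) (by norm_num)).monotone
    have h1 := hmono (v.val.map_add x y)
    rw [hmono.map_max] at h1
    have h2 : max (WithZeroMulInt.toNNReal (e := 2) (by norm_num) (v.val x))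
        (WithZeroMulInt.toNNReal (e := 2) (by norm_num) (v.val y)) ≤
        (WithZeroMulInt.toNNReal (e := 2) (by norm_num) (v.val x)) +
        (WithZeroMulInt.toNNReal (e := 2) (by norm_num) (v.val y)) :=
      max_le_add_of_nonneg zero_le zero_le
    exact_mod_cast h1.trans h2

theorem abv_apply (v : Place F) (z : F) :
    v.abv z = ((WithZeroMulInt.toNNReal (e := 2) (by norm_num) (v.val z) : ℝ≥0) : ℝ) := rfl

theorem abv_exp (v : Place F) (z : F) (n : ℤ) : v.abv z ≤ (2 : ℝ) ^ n ↔ v.val z ≤ exp n := by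
  have h2 : (2 : ℝ) ^ n = ((WithZeroMulInt.toNNReal (e := 2) (by norm_num) (exp n) : ℝ≥0) : ℝ) := by
    rw [WithZeroMulInt.toNNReal_neg_apply _ exp_ne_zero]
    simp [exp, NNReal.coe_zpow]
  rw [h2, abv_apply, NNReal.coe_le_coe]
  exact (WithZeroMulInt.toNNReal_strictMono (e := 2) (by norm_num)).le_iff_le

theorem abv_le_one (v : Place F) (z : F) : v.abv z ≤ 1 ↔ v.val z ≤ 1 := by
  have := v.abv_exp z 0
  simpa using this

theorem abv_nontrivial (v : Place F) : v.abv.IsNontrivial := by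
  obtain ⟨π, hπ0, hπ⟩ := v.exists_uniformizer
  refine ⟨π⁻¹, inv_ne_zero hπ0, fun h => ?_⟩
  have h1 := (v.abv_le_one π⁻¹).1 h.le
  rw [val_le_one_iff v (inv_ne_zero hπ0), ord_inv, hπ] at h1
  omega

theorem abv_not_isEquiv {v w : Place F} (h : v ≠ w) : ¬ v.abv.IsEquiv w.abv := by
  intro he
  obtain ⟨z, hz1, hz2⟩ := ne_iff_exists h
  rw [← abv_le_one] at hz1 hz2
  apply hz2
  have := (he z 1)
  simpa using this.1 (by simpa using hz1)

/-- Weak approximation. -/
theorem weak_approx (s : Finset (Place F)) (a : Place F → F) (n : ℤ) :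
    ∃ z : F, ∀ v ∈ s, v.val (z - a v) ≤ exp (-n) := by
  have hd := AbsoluteValue.denseRange_algebraMap_pi (F := F) (ι := s)
    (v := fun v => v.1.abv) (fun v => v.1.abv_nontrivial)
    (fun v w hvw => abv_not_isEquiv (fun h => hvw (Subtype.ext h)))
  have hr : (0 : ℝ) < 2 ^ (-n) := by positivity
  obtain ⟨z, hz⟩ := Metric.denseRange_iff.1 hd
    (fun v : s => (WithAbs.equiv v.1.abv).symm (a v.1)) _ hr
  refine ⟨z, fun v hv => ?_⟩
  have h1 := (dist_pi_lt_iff hr).1 hz ⟨v, hv⟩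
  rw [← abv_exp]
  rw [dist_comm, dist_eq_norm] at h1
  have h2 : ‖(algebraMap F ((i : s) → WithAbs (i.1.abv))) z ⟨v, hv⟩ -
      (WithAbs.equiv v.abv).symm (a v)‖ = v.abv (z - a v) := by
    rfl
  rw [← h2]
  exact h1.le

end Place

end Pool.Agent.Helper47.Wan
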