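import Pool.Agent.Helper47.Wan.Place
import Pool.Agent.Helper47.Wan.FuncField

open scoped WithZero NNReal
open WithZero IsLocalRing

namespace Pool.Agent.Helper47.Wan

section
variable {F : Type*} [Field F]

theorem Place.val_of_pow_eq_one (v : Place F) {z : F} {n : ℕ} (hn : n ≠ 0) (h : z ^ n = 1) :
    v.val z = 1 := by
  have hz : z ≠ 0 := by
    rintro rfl
    rw [zero_pow hn] at h
    exact zero_ne_one h
  rw [v.val_eq_one_iff hz]
  have h1 := v.ord_pow z n
  rw [h, v.ord_one] at h1
  have : (n : ℤ) ≠ 0 := by exact_mod_cast hn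
  rcases mul_eq_zero.1 h1.symm with h2 | h2
  · exact absurd h2 this
  · exact h2

theorem Place.val_algebraMap_le {k : Type*} [Field k] [Finite k] [Algebra k F] (v : Place F)
    (c : k) : v.val (algebraMap k F c) ≤ 1 := by
  by_cases hc : c = 0
  · subst hc; simp
  · have : Fintype k := Fintype.ofFinite k
    have h1 : c ^ (Fintype.card k - 1) = 1 := FiniteField.pow_card_sub_one_eq_one c hc
    have h2 : Fintype.card k - 1 ≠ 0 := by
      have := Fintype.one_lt_card (α := k)
      omega
    refine (v.val_of_pow_eq_one h2 ?_).le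
    rw [← map_pow, h1, map_one]

theorem Place.val_algebraMap_eq {k : Type*} [Field k] [Finite k] [Algebra k F] (v : Place F)
    {c : k} (hc : c ≠ 0) : v.val (algebraMap k F c) = 1 := by
  have : Fintype k := Fintype.ofFinite k
  have h1 : c ^ (Fintype.card k - 1) = 1 := FiniteField.pow_card_sub_one_eq_one c hc
  have h2 : Fintype.card k - 1 ≠ 0 := by
    have := Fintype.one_lt_card (α := k)
    omega
  refine v.val_of_pow_eq_one h2 ?_
  rw [← map_pow, h1, map_one]

theorem Place.val_of_isAlgebraic {k : Type*} [Field k] [Finite k] [Algebra k F] (v : Place F)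
    {z : F} (hz : z ≠ 0) (h : IsAlgebraic k z) : v.val z = 1 := by
  have h1 : FiniteDimensional k (IntermediateField.adjoin k {z}) :=
    IntermediateField.adjoin.finiteDimensional h.isIntegral
  have h2 : Finite (IntermediateField.adjoin k {z}) := Module.finite_of_finite k
  let z' : IntermediateField.adjoin k {z} := ⟨z, IntermediateField.mem_adjoin_simple_self k z⟩
  have hz' : z' ≠ 0 := fun h => hz (congrArg Subtype.val h)
  exact v.val_algebraMap_eq (k := IntermediateField.adjoin k {z}) hz'

end

section RR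

variable (p : ℕ) [Fact p.Prime] {F : Type*} [Field F] [Algebra (ZMod p) F]

/-- The Riemann-Roch space attached to a divisor, with conditions only at the places of `T`. -/
noncomputable def RR (T : Set (Place F)) (D : Place F →₀ ℤ) : Submodule (ZMod p) F where
  carrier := {f | ∀ v ∈ T, v.val f ≤ exp (D v)}
  add_mem' := by
    intro a b ha hb v hv
    exact (v.val.map_add a b).trans (max_le (ha v hv) (hb v hv))
  zero_mem' := by intro v _; simp
  smul_mem' := by
    intro c x hx v hv
    rw [Algebra.smul_def, map_mul]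
    calc v.val (algebraMap (ZMod p) F c) * v.val x ≤ 1 * exp (D v) :=
          mul_le_mul' (v.val_algebraMap_le c) (hx v hv)
      _ = exp (D v) := one_mul _

theorem mem_RR {T : Set (Place F)} {D : Place F →₀ ℤ} {f : F} :
    f ∈ RR p T D ↔ ∀ v ∈ T, v.val f ≤ exp (D v) := Iff.rfl

theorem RR_mono {T : Set (Place F)} {D D' : Place F →₀ ℤ} (h : ∀ v ∈ T, D v ≤ D' v) :
    RR p T D ≤ RR p T D' := fun _ hf v hv => (hf v hv).trans (exp_le_exp.2 (h v hv))

/-- The leading coefficient map. -/
theorem exists_lead (v : Place F) (n : ℤ) : ∃ φ : ((RR p {v} (Finsupp.single v (n + 1))).toAddSubgroup) →+ v.Res,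
    (∀ f, φ f = 0 ↔ v.val (f : F) ≤ exp n) ∧ Function.Surjective φ := by
  classical
  obtain ⟨π, hπ0, hπ⟩ := v.exists_uniformizer
  have hπn : v.val (π ^ (n + 1)) = exp (-(n + 1)) := by
    rw [v.val_eq (zpow_ne_zero _ hπ0), v.ord_zpow, hπ, mul_one]
  have hmem : ∀ f : F, v.val f ≤ exp (n + 1) → v.val (f * π ^ (n + 1)) ≤ 1 := by
    intro f hf
    rw [map_mul, hπn]
    calc v.val f * exp (-(n + 1)) ≤ exp (n + 1) * exp (-(n + 1)) := mul_le_mul_left hf _
      _ = 1 := by rw [← exp_add]; simp
  have hf' : ∀ f : ((RR p {v} (Finsupp.single v (n + 1))).toAddSubgroup), v.val (f : F) ≤ exp (n + 1) := by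
    intro f
    have := (mem_RR p).1 f.2 v rfl
    simpa using this
  let ψ : ((RR p {v} (Finsupp.single v (n + 1))).toAddSubgroup) →+ v.ring :=
    { toFun := fun f => ⟨(f : F) * π ^ (n + 1), hmem f (hf' f)⟩
      map_zero' := by ext; simp
      map_add' := by
        intro a b
        ext
        simp [add_mul] }
  refine ⟨(IsLocalRing.residue v.ring).toAddMonoidHom.comp ψ, ?_, ?_⟩
  · intro f
    have h1 : ((IsLocalRing.residue v.ring).toAddMonoidHom.comp ψ) f = 0 ↔
        ψ f ∈ IsLocalRing.maximalIdeal v.ring := by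
      rw [← IsLocalRing.residue_eq_zero_iff]; rfl
    rw [h1, Valuation.mem_maximalIdeal_iff, v.val_lt_one_iff_le]
    change v.val ((f : F) * π ^ (n + 1)) ≤ exp (-1) ↔ _
    rw [map_mul, hπn]
    have h2 : (exp (-1 : ℤ) : ℤᵐ⁰) = exp n * exp (-(n + 1)) := by
      rw [← exp_add]; congr 1; ring
    rw [h2]
    constructor
    · intro h
      have h3 : (0 : ℤᵐ⁰) < exp (-(n + 1)) := by simp
      exact le_of_mul_le_mul_right h h3
    · intro h; exact mul_le_mul_left h _
  · intro y
    obtain ⟨z, rfl⟩ := IsLocalRing.residue_surjective y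
    have hz : v.val (z : F) ≤ 1 := z.2
    refine ⟨⟨(z : F) * π ^ (-(n + 1)), ?_⟩, ?_⟩
    · intro w hw
      rw [Set.mem_singleton_iff] at hw
      subst hw
      simp only [Finsupp.single_eq_same]
      rw [map_mul, w.val_eq (zpow_ne_zero _ hπ0), w.ord_zpow, hπ]
      calc w.val (z : F) * exp (-(-(n + 1) * 1)) ≤ 1 * exp (-(-(n + 1) * 1)) := mul_le_mul_left hz _
        _ = exp (n + 1) := by rw [one_mul]; congr 1; ring
    · change IsLocalRing.residue v.ring _ = IsLocalRing.residue v.ring z
      congr 1
      ext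
      change (z : F) * π ^ (-(n + 1)) * π ^ (n + 1) = z
      rw [mul_assoc, ← zpow_add₀ hπ0]
      simp

/-- One step: the quotient of consecutive Riemann-Roch spaces embeds in the residue field. -/
theorem exists_lead' {T : Set (Place F)} {v : Place F} (hv : v ∈ T) (D D' : Place F →₀ ℤ)
    (hD : D' = D + Finsupp.single v 1) :
    ∃ φ : (RR p T D').toAddSubgroup →+ v.Res,
      (∀ f, φ f = 0 ↔ (f : F) ∈ RR p T D) ∧ (T.Finite → Function.Surjective φ) := by
  classical
  obtain ⟨φ, hφ, hφs⟩ := exists_lead p v (D v)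
  have hD'v : D' v = D v + 1 := by rw [hD]; simp
  have hD'w : ∀ w, w ≠ v → D' w = D w := by
    intro w hw; rw [hD]; simp [Finsupp.single_apply, hw.symm]
  have hle : (RR p T D').toAddSubgroup ≤ (RR p {v} (Finsupp.single v (D v + 1))).toAddSubgroup := by
    intro f hf w hw
    rw [Set.mem_singleton_iff] at hw
    subst hw
    have := hf w hv
    rw [hD'v] at this
    simpa using this
  refine ⟨φ.comp (AddSubgroup.inclusion hle), ?_, ?_⟩
  · intro f
    rw [AddMonoidHom.comp_apply, hφ]
    constructor
    · intro h w hw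
      by_cases hwv : w = v
      · subst hwv; exact h
      · have := f.2 w hw
        rw [hD'w w hwv] at this
        exact this
    · intro h; exact h v hv
  · intro hT y
    obtain ⟨g, hg⟩ := hφs y
    -- approximate `g` at `v` and `0` at the other places of `T`
    let a : Place F → F := fun w => if w = v then (g : F) else 0
    obtain ⟨N, hN⟩ : ∃ N : ℤ, ∀ w ∈ hT.toFinset, -N ≤ D w := by
      refine ⟨∑ w ∈ hT.toFinset, |D w|, fun w hw => ?_⟩
      have h1 : |D w| ≤ ∑ w ∈ hT.toFinset, |D w| :=
        Finset.single_le_sum (f := fun w => |D w|) (fun i _ => abs_nonneg _) hw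
      have h2 := neg_abs_le (D w)
      linarith
    obtain ⟨z, hz⟩ := Place.weak_approx hT.toFinset a N
    have hzv : v.val (z - g) ≤ exp (D v) := by
      have := hz v ((Set.Finite.mem_toFinset hT).2 hv)
      simp only [a, if_true] at this
      exact this.trans (exp_le_exp.2 (hN v ((Set.Finite.mem_toFinset hT).2 hv)))
    have hgv : v.val (g : F) ≤ exp (D v + 1) := by
      have := g.2 v rfl
      simpa using this
    have hzmem : z ∈ (RR p T D').toAddSubgroup := by
      intro w hw
      by_cases hwv : w = v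
      · subst hwv
        rw [hD'v]
        have : z = (z - g) + g := by ring
        rw [this]
        refine (w.val.map_add _ _).trans (max_le (hzv.trans (exp_le_exp.2 (by linarith))) hgv)
      · have h1 := hz w ((Set.Finite.mem_toFinset hT).2 hw)
        simp only [a, hwv, if_false, sub_zero] at h1
        rw [hD'w w hwv]
        exact h1.trans (exp_le_exp.2 (hN w ((Set.Finite.mem_toFinset hT).2 hw)))
    refine ⟨⟨z, hzmem⟩, ?_⟩
    rw [← hg, AddMonoidHom.comp_apply]
    rw [← sub_eq_zero, ← map_sub, hφ]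
    exact hzv

theorem RR_step {T : Set (Place F)} {v : Place F} (hv : v ∈ T) [Finite v.Res]
    (D D' : Place F →₀ ℤ) (hD : D' = D + Finsupp.single v 1) :
    (RR p T D).toAddSubgroup.relIndex (RR p T D').toAddSubgroup ≠ 0 ∧
    (RR p T D).toAddSubgroup.relIndex (RR p T D').toAddSubgroup ≤ Nat.card v.Res ∧
    (T.Finite → (RR p T D).toAddSubgroup.relIndex (RR p T D').toAddSubgroup =
      Nat.card v.Res) := by
  obtain ⟨φ, hφ, hφs⟩ := exists_lead' p hv D D' hD
  have hker : φ.ker = (RR p T D).toAddSubgroup.addSubgroupOf (RR p T D').toAddSubgroup := by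
    ext f
    rw [AddMonoidHom.mem_ker, hφ, AddSubgroup.mem_addSubgroupOf]
    rfl
  have hidx : (RR p T D).toAddSubgroup.relIndex (RR p T D').toAddSubgroup =
      Nat.card φ.range := by
    rw [AddSubgroup.relIndex, ← hker, AddSubgroup.index_ker]
  refine ⟨?_, ?_, ?_⟩
  · rw [hidx]
    exact Nat.card_pos.ne'
  · rw [hidx]
    exact Nat.card_le_card_of_injective _ Subtype.val_injective
  · intro hT
    rw [hidx]
    have : φ.range = ⊤ := AddMonoidHom.range_eq_top.2 (hφs hT)
    rw [this]
    exact Nat.card_congr AddSubgroup.topEquiv.toEquiv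

end RR

end Pool.Agent.Helper47.Wan
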