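import Pool.Agent.Helper47.Wan.GalPlace
import Pool.Agent.Helper47.Wan.Poly
import Pool.Agent.Helper47.Wan.RedW
import Pool.Agent.Helper13.WanW

open scoped WithZero
open WithZero IsLocalRing

namespace Pool.Agent.Helper47.Wan

section RedW

variable {p : ℕ} [hp : Fact p.Prime] {M : Type*} [Field M]

theorem redW_eq_map (x : Place M) (z : WittVector p x.ring) :
    redW x (WittVector.map (x.ring.subtype) z) = WittVector.map (IsLocalRing.residue x.ring) z := by
  ext i
  have h : x.val ((WittVector.map (x.ring.subtype) z).coeff i) ≤ 1 := by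
    rw [WittVector.map_coeff]
    exact (z.coeff i).2
  rw [redW_coeff x _ i h]
  have h2 : (⟨(WittVector.map (x.ring.subtype) z).coeff i, h⟩ : x.ring) = z.coeff i := by
    apply Subtype.ext
    exact WittVector.map_coeff _ _ _
  have h3 : (WittVector.map (IsLocalRing.residue x.ring) z).coeff i
      = IsLocalRing.residue x.ring (z.coeff i) := WittVector.map_coeff _ _ _
  rw [h3]
  exact congrArg _ h2

theorem exists_lift (x : Place M) (b : WittVector p M) (hb : ∀ i, x.val (b.coeff i) ≤ 1) :
    ∃ z : WittVector p x.ring, WittVector.map (x.ring.subtype) z = b := by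
  refine ⟨WittVector.mk p fun i => ⟨b.coeff i, hb i⟩, ?_⟩
  ext i
  rw [WittVector.map_coeff, WittVector.coeff_mk]
  rfl

theorem redW_sum (x : Place M) {ι : Type*} (s : Finset ι) (b : ι → WittVector p M)
    (hb : ∀ j ∈ s, ∀ i, x.val ((b j).coeff i) ≤ 1) :
    (∀ i, x.val ((∑ j ∈ s, b j).coeff i) ≤ 1) ∧
      redW x (∑ j ∈ s, b j) = ∑ j ∈ s, redW x (b j) := by
  classical
  have hex : ∀ j, ∃ z : WittVector p x.ring, j ∈ s → WittVector.map (x.ring.subtype) z = b j := by
    intro j
    by_cases hj : j ∈ s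
    · obtain ⟨z, hz⟩ := exists_lift x (b j) (hb j hj)
      exact ⟨z, fun _ => hz⟩
    · exact ⟨0, fun h => absurd h hj⟩
  choose z hz using hex
  have hsum : ∑ j ∈ s, b j = WittVector.map (x.ring.subtype) (∑ j ∈ s, z j) := by
    rw [map_sum]
    exact Finset.sum_congr rfl fun j hj => (hz j hj).symm
  constructor
  · intro i
    rw [hsum, WittVector.map_coeff]
    exact ((∑ j ∈ s, z j).coeff i).2
  · rw [hsum, redW_eq_map, map_sum]
    refine Finset.sum_congr rfl fun j hj => ?_
    rw [← hz j hj, redW_eq_map]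

end RedW

section Gen

variable (p : ℕ) [hp : Fact p.Prime] {E : Type*} [Field E] [Algebra (ZMod p) E]

/-- In a rational function field a generator has exactly one zero, of order and degree one. -/
theorem exists_place_of_gen (hE : IsFunctionField (ZMod p) E) (y : E)
    (hy : Transcendental (ZMod p) y) (htop : IntermediateField.adjoin (ZMod p) {y} = ⊤) :
    ∃ P : Place E, P.ord y = 1 ∧ P.deg p = 1 ∧ ∀ P', 0 < P'.ord y → P' = P := by
  have hfin : Module.finrank (IntermediateField.adjoin (ZMod p) {y}) E = 1 := by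
    rw [htop]
    exact IntermediateField.finrank_top
  have hdeg := degD_zeroD p hE hy
  rw [hfin] at hdeg
  obtain ⟨P, hP⟩ := exists_zero p hE hy
  have hy0 : y ≠ 0 := by
    intro h0
    rw [h0] at hy
    exact hy (isAlgebraic_zero (R := ZMod p))
  rw [P.val_lt_one_iff hy0] at hP
  have hdpos : ∀ v : Place E, 0 < v.deg p := fun v => (v.card_res p hE).2
  -- the degree of the zero divisor
  have hsum : ∀ s : Finset (Place E), (∀ v ∈ s, 0 < v.ord y) →
      ∑ v ∈ s, v.ord y * (v.deg p : ℤ) ≤ 1 := by
    intro s hs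
    rw [degD, Finsupp.sum] at hdeg
    push_cast at hdeg
    rw [← hdeg]
    have hsub : s ⊆ (zeroD p hE y).support := by
      intro v hv
      rw [Finsupp.mem_support_iff, zeroD_apply]
      have := hs v hv
      omega
    have h1 : ∑ v ∈ s, v.ord y * (v.deg p : ℤ) = ∑ v ∈ s, (zeroD p hE y) v * (v.deg p : ℤ) := by
      refine Finset.sum_congr rfl fun v hv => ?_
      rw [zeroD_apply, max_eq_left (hs v hv).le]
    rw [h1]
    exact Finset.sum_le_sum_of_subset_of_nonneg hsub fun v _ _ =>
      mul_nonneg (zeroD_nonneg p hE y v) (Int.natCast_nonneg _)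
  have h1 := hsum {P} (by simpa using hP)
  rw [Finset.sum_singleton] at h1
  have h2 : (1 : ℤ) ≤ (P.deg p : ℤ) := by exact_mod_cast hdpos P
  have h3 : P.ord y = 1 := by nlinarith
  have h4 : (P.deg p : ℤ) = 1 := by
    rw [h3] at h1
    linarith
  refine ⟨P, h3, by exact_mod_cast h4, fun P' hP' => ?_⟩
  by_contra hne
  classical
  have h5 := hsum {P', P} (by
    intro v hv
    rcases Finset.mem_insert.mp hv with rfl | hv
    · exact hP'
    · rw [Finset.mem_singleton.mp hv]; exact hP)
  rw [Finset.sum_pair hne, h3, h4] at h5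
  have h6 : (1 : ℤ) ≤ (P'.deg p : ℤ) := by exact_mod_cast hdpos P'
  nlinarith

end Gen

end Pool.Agent.Helper47.Wan
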