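import Pool.Agent.Helper47.Wan.Recip1
import Pool.Agent.Helper47.Wan.EmbSum

open scoped WithZero
open WithZero IsLocalRing

namespace Pool.Agent.Helper47.Wan

open Pool.Agent.Helper13.Wan

theorem map_comp_iterateFrobenius (p : ℕ) [hp : Fact p.Prime] {k l : Type*} [Field k] [Field l]
    [CharP k p] [CharP l p] (ι : k →+* l) (b : WittVector p k) (j : ℕ) :
    WittVector.map ((iterateFrobenius l p j).comp ι) b
      = WittVector.map ι ((WittVector.frobenius^[j]) b) := by
  ext i
  rw [WittVector.map_coeff, WittVector.map_coeff, WittVector.iterate_frobenius_coeff,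
    RingHom.comp_apply, iterateFrobenius_def, map_pow]

theorem truncate_map_congr (p : ℕ) [hp : Fact p.Prime] (n : ℕ) {k l : Type*} [CommRing k]
    [CommRing l] (ι : k →+* l) (b c : WittVector p k) (h : ∀ i < n, b.coeff i = c.coeff i) :
    WittVector.truncate n (WittVector.map ι b) = WittVector.truncate n (WittVector.map ι c) := by
  rw [truncate_eq_iff]
  intro i hi
  rw [WittVector.map_coeff, WittVector.map_coeff, h i hi]

theorem redW_map {p : ℕ} [hp : Fact p.Prime] {K L : Type*} [Field K] [Field L] {φ : K →+* L}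
    {w : Place L} {v : Place K} (h : Over φ w v) (a : WittVector p K)
    (ha : ∀ i, v.val (a.coeff i) ≤ 1) :
    redW w (WittVector.map φ a) = WittVector.map h.res (redW v a) := by
  ext i
  have h1 : w.val ((WittVector.map φ a).coeff i) ≤ 1 := by
    rw [WittVector.map_coeff]
    exact (h (a.coeff i)).mpr (ha i)
  rw [redW_coeff w _ i h1]
  have h2 : (⟨(WittVector.map φ a).coeff i, h1⟩ : w.ring) = h.ringMap ⟨a.coeff i, ha i⟩ := by
    apply Subtype.ext
    rw [h.coe_ringMap]
    exact WittVector.map_coeff _ _ _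
  have h3 : (WittVector.map h.res (redW v a)).coeff i = h.res ((redW v a).coeff i) :=
    WittVector.map_coeff _ _ _
  rw [h3, redW_coeff v a i (ha i), h.res_residue]
  exact congrArg _ h2

section Value

variable (p : ℕ) [hp : Fact p.Prime] {E F M : Type*} [Field E] [Field F] [Field M]
  [Algebra (ZMod p) E] [Algebra (ZMod p) F] [Algebra (ZMod p) M]
  [Algebra E F] [Algebra E M] [IsScalarTower (ZMod p) E F] [IsScalarTower (ZMod p) E M]
  [FiniteDimensional E F] [FiniteDimensional E M]

omit [Algebra (ZMod p) M] [IsScalarTower (ZMod p) E M] in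
/-- every embedding has a place below -/
theorem exists_under_embedding (hE : IsFunctionField (ZMod p) E) (x : Place M)
    (τ : F →ₐ[E] M) : ∃ v : Place F, Over (τ : F →+* M) x v := by
  have hF : IsFunctionField (ZMod p) F := hE.of_finite p (L := F)
  apply Place.exists_of_comap p hF
  intro z
  have h1 : (algebraMap E M).IsIntegral := algebraMap_isIntegral_iff.mpr inferInstance
  have h2 : (τ : F →+* M).comp (algebraMap E F) = algebraMap E M := τ.comp_algebraMap
  have h3 : ((τ : F →+* M).comp (algebraMap E F)).IsIntegral := by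
    rw [h2]
    exact h1
  exact RingHom.IsIntegral.tower_top (algebraMap E F) (τ : F →+* M) h3 z

omit [FiniteDimensional E F] [FiniteDimensional E M] in
theorem over_of_embedding {x : Place M} {P : Place E} (hx : Over (algebraMap E M) x P)
    (τ : F →ₐ[E] M) {v : Place F} (hv : Over (τ : F →+* M) x v) :
    Over (algebraMap E F) v P := by
  apply hv.of_comp
  have h2 : (τ : F →+* M).comp (algebraMap E F) = algebraMap E M := τ.comp_algebraMap
  rw [h2]
  exact hx

variable [IsGalois E M]

theorem witt_value (n : ℕ) (hE : IsFunctionField (ZMod p) E) (P : Place E) (hP : P.deg p = 1)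
    (x : Place M) (hx : Over (algebraMap E M) x P) (a : WittVector p F) (f : Place F → ℕ)
    (hint : ∀ v : Place F, Over (algebraMap E F) v P → ∀ i, v.val (a.coeff i) ≤ 1)
    (hf : ∀ v : Place F, Over (algebraMap E F) v P → haveI := v.charP_res p; ∀ i < n,
        (∑ j ∈ Finset.range (v.deg p), (WittVector.frobenius^[j]) (redW v a)).coeff i =
          ((f v : ℕ) : WittVector p v.Res).coeff i)
    [Fintype (F →ₐ[E] M)] [Nonempty (F →ₐ[E] M)] :
    (∀ i, x.val ((∑ τ : F →ₐ[E] M, WittVector.map (τ : F →+* M) a).coeff i) ≤ 1) ∧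
    WittVector.truncate n (redW x (∑ τ : F →ₐ[E] M, WittVector.map (τ : F →+* M) a)) =
      ((∑ v ∈ (finite_fiber (L := F) p hE P).toFinset, ramE (algebraMap E F) v P * f v : ℕ) :
        TruncatedWittVector p n x.Res) := by
  classical
  have hcx := x.charP_res p
  have hF : IsFunctionField (ZMod p) F := hE.of_finite p (L := F)
  choose vt hvt using fun τ : F →ₐ[E] M => exists_under_embedding p hE x τ
  have hvP : ∀ τ, Over (algebraMap E F) (vt τ) P := fun τ => over_of_embedding hx τ (hvt τ)
  have hb : ∀ τ ∈ (Finset.univ : Finset (F →ₐ[E] M)), ∀ i,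
      x.val ((WittVector.map (τ : F →+* M) a).coeff i) ≤ 1 := by
    intro τ _ i
    rw [WittVector.map_coeff]
    exact (hvt τ (a.coeff i)).mpr (hint (vt τ) (hvP τ) i)
  obtain ⟨h1, h2⟩ := redW_sum x Finset.univ (fun τ : F →ₐ[E] M => WittVector.map (τ : F →+* M) a) hb
  refine ⟨h1, ?_⟩
  rw [h2, map_sum]
  have hmaps : ∀ τ ∈ (Finset.univ : Finset (F →ₐ[E] M)), vt τ ∈
      (finite_fiber (L := F) p hE P).toFinset := by
    intro τ _
    rw [Set.Finite.mem_toFinset]
    exact hvP τ
  rw [← Finset.sum_fiberwise_of_maps_to hmaps]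
  push_cast
  refine Finset.sum_congr rfl fun v hv => ?_
  have hv' : Over (algebraMap E F) v P := by
    rw [Set.Finite.mem_toFinset] at hv
    exact hv
  have hcv := v.charP_res p
  have hmem : ∀ τ : F →ₐ[E] M, τ ∈ (Finset.univ.filter (fun τ => vt τ = v)) ↔
      Over (τ : F →+* M) x v := by
    intro τ
    rw [Finset.mem_filter]
    constructor
    · rintro ⟨-, h⟩
      rw [← h]
      exact hvt τ
    · intro h
      exact ⟨Finset.mem_univ _, (hvt τ).unique h⟩
  have : Fintype {τ : F →ₐ[E] M // Over (τ : F →+* M) x v} := Fintype.ofFinite _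
  rw [Finset.sum_subtype _ hmem]
  obtain ⟨τ₀⟩ := ‹Nonempty (F →ₐ[E] M)›
  have hcount := card_embeddings p hE P hP x hx v hv' τ₀
  have hpos : 0 < Nat.card {τ : F →ₐ[E] M // Over (τ : F →+* M) x v} := by
    rw [hcount]
    exact Nat.mul_pos hv'.ramE_pos (v.card_res p hF).2
  obtain ⟨τ₁⟩ : Nonempty {τ : F →ₐ[E] M // Over (τ : F →+* M) x v} :=
    (Nat.card_pos_iff.mp hpos).1
  have key := sum_embeddings p hE P hP x hx v hv' τ₁.2.res
    (fun ρ => WittVector.truncate n (WittVector.map ρ (redW v a)))
  have e1 : ∑ τ : {τ : F →ₐ[E] M // Over (τ : F →+* M) x v},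
      WittVector.truncate n (redW x (WittVector.map ((τ : F →ₐ[E] M) : F →+* M) a))
      = ∑ τ : {τ : F →ₐ[E] M // Over (τ : F →+* M) x v},
        WittVector.truncate n (WittVector.map τ.2.res (redW v a)) := by
    refine Finset.sum_congr rfl fun τ _ => ?_
    rw [redW_map τ.2 a (hint v hv')]
  rw [e1]
  refine key.trans ?_
  have e2 : ∑ i ∈ Finset.range (v.deg p), WittVector.truncate n (WittVector.map
      ((iterateFrobenius x.Res p i).comp τ₁.2.res) (redW v a))
      = ((f v : ℕ) : TruncatedWittVector p n x.Res) := by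
    have e3 : ∀ i ∈ Finset.range (v.deg p), WittVector.truncate n (WittVector.map
        ((iterateFrobenius x.Res p i).comp τ₁.2.res) (redW v a))
        = WittVector.truncate n (WittVector.map τ₁.2.res ((WittVector.frobenius^[i]) (redW v a))) := by
      intro i _
      rw [map_comp_iterateFrobenius p]
    rw [Finset.sum_congr rfl e3, ← map_sum, ← map_sum, truncate_map_congr p n _ _ _ (hf v hv'),
      map_natCast, map_natCast]
  rw [e2, nsmul_eq_mul]

end Value

end Pool.Agent.Helper47.Wan
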