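import Pool.Agent.Helper47.Wan.Recip2

open scoped WithZero
open WithZero IsLocalRing

namespace Pool.Agent.Helper47.Wan

open Pool.Agent.Helper13.Wan

section Const

variable (p : ℕ) [hp : Fact p.Prime] {E : Type*} [Field E] [Algebra (ZMod p) E]

/-- the structure map from the prime field to the valuation ring -/
noncomputable def toRing (x : Place E) : ZMod p →+* x.ring :=
  RingHom.codRestrict (algebraMap (ZMod p) E) x.ring.toSubring
    (fun c => algebraMap_mem_valuationSubring p x.ring c)

theorem coe_toRing (x : Place E) (c : ZMod p) : ((toRing p x c : x.ring) : E) =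
    algebraMap (ZMod p) E c := rfl

theorem exists_const (hE : IsFunctionField (ZMod p) E) (P : Place E) (hP : P.deg p = 1) (t : E)
    (ht : IsAlgebraic (ZMod p) t) : ∃ c : ZMod p, t = algebraMap (ZMod p) E c := by
  classical
  have hfin := P.finite_res p hE
  have : Fintype P.Res := Fintype.ofFinite _
  have hcard : Fintype.card P.Res = p := by
    rw [← Nat.card_eq_fintype_card, (P.card_res p hE).1, hP, pow_one]
  have hval : P.val t ≤ 1 := by
    by_cases h0 : t = 0
    · rw [h0, map_zero]
      exact zero_le_one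
    · exact (val_eq_one_of_isAlgebraic p P.val h0 ht).le
  set g : ZMod p →+* P.Res := (IsLocalRing.residue P.ring).comp (toRing p P) with hg
  have hsurj : Function.Surjective g := by
    have hbij : Function.Bijective g := by
      rw [Fintype.bijective_iff_injective_and_card]
      exact ⟨g.injective, by rw [ZMod.card, hcard]⟩
    exact hbij.2
  obtain ⟨c, hc⟩ := hsurj (IsLocalRing.residue P.ring ⟨t, hval⟩)
  refine ⟨c, ?_⟩
  by_contra hne
  have hne' : t - algebraMap (ZMod p) E c ≠ 0 := sub_ne_zero.mpr hne
  have halg : IsAlgebraic (ZMod p) (t - algebraMap (ZMod p) E c) :=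
    ht.sub (isAlgebraic_algebraMap c)
  have h1 := val_eq_one_of_isAlgebraic p P.val hne' halg
  have h2 : IsLocalRing.residue P.ring ((⟨t, hval⟩ : P.ring) - toRing p P c) = 0 := by
    rw [map_sub, ← hc]
    simp [hg]
  rw [IsLocalRing.residue_eq_zero_iff, Valuation.mem_maximalIdeal_iff] at h2
  have h3 : P.val (((⟨t, hval⟩ : P.ring) - toRing p P c : P.ring) : E) < 1 := h2
  have h4 : (((⟨t, hval⟩ : P.ring) - toRing p P c : P.ring) : E)
      = t - algebraMap (ZMod p) E c := rfl
  rw [h4, h1] at h3
  exact lt_irrefl _ h3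

end Const

section Main

variable (p : ℕ) [hp : Fact p.Prime] {E F M : Type*} [Field E] [Field F] [Field M]
  [Algebra (ZMod p) E] [Algebra (ZMod p) F] [Algebra (ZMod p) M]
  [Algebra E F] [Algebra E M] [IsScalarTower (ZMod p) E F] [IsScalarTower (ZMod p) E M]
  [FiniteDimensional E F] [FiniteDimensional E M]

/-- The trace-like sum of a Witt vector over all embeddings is fixed by the Galois group. -/
theorem sum_embeddings_fixed (a : WittVector p F) [Fintype (F →ₐ[E] M)] (σ : M ≃ₐ[E] M) (i : ℕ) :
    σ ((∑ τ : F →ₐ[E] M, WittVector.map (τ : F →+* M) a).coeff i) =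
      (∑ τ : F →ₐ[E] M, WittVector.map (τ : F →+* M) a).coeff i := by
  have h1 : WittVector.map (σ : M →+* M) (∑ τ : F →ₐ[E] M, WittVector.map (τ : F →+* M) a)
      = ∑ τ : F →ₐ[E] M, WittVector.map (τ : F →+* M) a := by
    rw [map_sum]
    refine Fintype.sum_equiv ((AlgEquiv.refl (R := E) (A₁ := F)).arrowCongr σ) _ _ ?_
    intro τ
    ext i
    rw [WittVector.map_coeff, WittVector.map_coeff, WittVector.map_coeff]
    rfl
  have h2 := congrArg (fun w : WittVector p M => w.coeff i) h1
  simp only [WittVector.map_coeff] at h2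
  exact h2

variable [IsGalois E M]

/-- The coefficients have no poles. -/
theorem coeff_integral (n : ℕ) (hE : IsFunctionField (ZMod p) E) (S : Set (Place F))
    (a : WittVector p F) (ha : ∀ v ∉ S, ∀ i, v.val (a.coeff i) ≤ 1)
    (y : E) (hy : Transcendental (ZMod p) (y - 1))
    (htop : IntermediateField.adjoin (ZMod p) {y - 1} = ⊤)
    (hS1 : ∀ v ∈ S, v.val (algebraMap E F y - 1) < 1)
    (hS2 : ∀ v ∈ S, ∀ i < n,
      v.val ((algebraMap E F y - 1) ^ (p ^ i) * (a.coeff i) ^ (p ^ n)) ≤ 1)
    [Fintype (F →ₐ[E] M)] (t : ℕ → E)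
    (ht : ∀ i, algebraMap E M (t i) =
      (∑ τ : F →ₐ[E] M, WittVector.map (τ : F →+* M) a).coeff i)
    (P : Place E) (i : ℕ) (hi : i < n) : P.val (t i) ≤ 1 := by
  classical
  have : CharP M p := charP_of_injective_algebraMap (algebraMap (ZMod p) M).injective p
  obtain ⟨x, hx⟩ := exists_over (L := M) p hE P
  choose vt hvt using fun τ : F →ₐ[E] M => exists_under_embedding p hE x τ
  have hvP : ∀ τ, Over (algebraMap E F) (vt τ) P := fun τ => over_of_embedding hx τ (hvt τ)
  by_cases hP : P.val (y - 1) < 1
  · -- the point `y = 1`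
    obtain ⟨P1, hP1, -, huniq⟩ := exists_place_of_gen p hE (y - 1) hy htop
    have hy0 : y - 1 ≠ 0 := by
      intro h0
      rw [h0] at hy
      exact hy (isAlgebraic_zero (R := ZMod p))
    have hPP1 : P = P1 := huniq P ((P.val_lt_one_iff hy0).mp hP)
    have hord : P.ord (y - 1) = 1 := by rw [hPP1, hP1]
    have hmem := witt_sum_mem p x.ring.toSubring (algebraMap E M (y - 1)) n n Finset.univ
      (fun τ : F →ₐ[E] M => WittVector.map (τ : F →+* M) a) (by
        intro τ _ i hi
        rw [WittVector.map_coeff]
        have e : (algebraMap E M (y - 1)) ^ (p ^ i) * ((τ : F →+* M) (a.coeff i)) ^ (p ^ n)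
            = (τ : F →+* M) ((algebraMap E F y - 1) ^ (p ^ i) * (a.coeff i) ^ (p ^ n)) := by
          rw [map_mul, map_pow, map_pow, map_sub, map_one, map_sub, map_one]
          congr 3
          exact (τ.commutes y).symm
        rw [e]
        change x.val _ ≤ 1
        rw [hvt τ]
        by_cases hvS : vt τ ∈ S
        · exact hS2 _ hvS i hi
        · rw [map_mul, map_pow, map_pow]
          have h1 : (vt τ).val (algebraMap E F y - 1) ≤ 1 := by
            have := ((hvP τ).val_lt_one_iff (y - 1)).mpr hP
            rw [map_sub, map_one] at this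
            exact this.le
          exact mul_le_one' (pow_le_one' h1 _) (pow_le_one' (ha _ hvS i) _)) i hi
    change x.val _ ≤ 1 at hmem
    rw [← ht i, ← map_pow, ← map_pow, ← map_mul, hx] at hmem
    by_cases ht0 : t i = 0
    · rw [ht0, map_zero]
      exact zero_le_one
    · rw [P.val_le_one_iff (mul_ne_zero (pow_ne_zero _ hy0) (pow_ne_zero _ ht0)),
        P.ord_mul (pow_ne_zero _ hy0) (pow_ne_zero _ ht0), P.ord_pow, P.ord_pow, hord] at hmem
      rw [P.val_le_one_iff ht0]
      by_contra hneg
      have h1 : P.ord (t i) ≤ -1 := by omega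
      have h2 : (p : ℤ) ^ i < (p : ℤ) ^ n :=
        pow_lt_pow_right₀ (by exact_mod_cast hp.out.one_lt) hi
      push_cast at hmem
      have h3 : (0 : ℤ) < (p : ℤ) ^ n := by
        have := hp.out.pos
        positivity
      nlinarith
  · have hmem := witt_sum_mem p x.ring.toSubring (1 : M) n 0 Finset.univ
      (fun τ : F →ₐ[E] M => WittVector.map (τ : F →+* M) a) (by
        intro τ _ i hi
        rw [WittVector.map_coeff, one_pow, one_mul, pow_zero, pow_one]
        change x.val _ ≤ 1
        rw [hvt τ]
        apply ha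
        intro hvS
        apply hP
        have := hS1 _ hvS
        rw [← (hvP τ).val_lt_one_iff, map_sub, map_one]
        exact this) i hi
    rw [one_pow, one_mul, pow_zero, pow_one, ← ht i] at hmem
    change x.val _ ≤ 1 at hmem
    rw [hx] at hmem
    exact hmem

end Main

end Pool.Agent.Helper47.Wan
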