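import Pool.Agent.Helper47.Wan.Recip3
import Pool.Agent.Helper13.WanS

open scoped WithZero
open WithZero IsLocalRing

namespace Pool.Agent.Helper47.Wan

open Pool.Agent.Helper13.Wan

theorem natCast_coeff (p : ℕ) [hp : Fact p.Prime] {k : Type*} [CommRing k] (g : ZMod p →+* k)
    (N i : ℕ) : ((N : ℕ) : WittVector p k).coeff i = g (((N : ℕ) : WittVector p (ZMod p)).coeff i) := by
  rw [← WittVector.map_coeff, map_natCast]

section Main

variable (p : ℕ) [hp : Fact p.Prime] {E F M : Type*} [Field E] [Field F] [Field M]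
  [Algebra (ZMod p) E] [Algebra (ZMod p) F] [Algebra (ZMod p) M]
  [Algebra E F] [Algebra E M] [IsScalarTower (ZMod p) E F] [IsScalarTower (ZMod p) E M]
  [FiniteDimensional E F] [FiniteDimensional E M] [IsGalois E M]

/-- comparison of the value at a place of degree one with the constants -/
theorem value_eq_const (n : ℕ) (hE : IsFunctionField (ZMod p) E)
    (a : WittVector p F) (f : Place F → ℕ)
    [Fintype (F →ₐ[E] M)] [Nonempty (F →ₐ[E] M)] (c : ℕ → ZMod p)
    (hc : ∀ i < n, algebraMap E M (algebraMap (ZMod p) E (c i)) =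
      (∑ τ : F →ₐ[E] M, WittVector.map (τ : F →+* M) a).coeff i)
    (P : Place E) (hP : P.deg p = 1)
    (hint : ∀ v : Place F, Over (algebraMap E F) v P → ∀ i, v.val (a.coeff i) ≤ 1)
    (hf : ∀ v : Place F, Over (algebraMap E F) v P → haveI := v.charP_res p; ∀ i < n,
        (∑ j ∈ Finset.range (v.deg p), (WittVector.frobenius^[j]) (redW v a)).coeff i =
          ((f v : ℕ) : WittVector p v.Res).coeff i) :
    ∀ i < n, (((∑ v ∈ (finite_fiber (L := F) p hE P).toFinset,
      ramE (algebraMap E F) v P * f v : ℕ)) : WittVector p (ZMod p)).coeff i = c i := by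
  intro i hi
  obtain ⟨x, hx⟩ := exists_over (L := M) p hE P
  obtain ⟨h1, h2⟩ := witt_value p n hE P hP x hx a f hint hf
  set N : ℕ := ∑ v ∈ (finite_fiber (L := F) p hE P).toFinset, ramE (algebraMap E F) v P * f v
    with hN
  set T := ∑ τ : F →ₐ[E] M, WittVector.map (τ : F →+* M) a with hT
  have h3 : WittVector.truncate n (redW x T) =
      WittVector.truncate n ((N : ℕ) : WittVector p x.Res) := by
    rw [h2, map_natCast]
  rw [truncate_eq_iff] at h3
  have h4 := h3 i hi
  set g : ZMod p →+* x.Res := (IsLocalRing.residue x.ring).comp (toRing p x) with hg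
  rw [natCast_coeff p g N i, redW_coeff x T i (h1 i)] at h4
  have h5 : (⟨T.coeff i, h1 i⟩ : x.ring) = toRing p x (c i) := by
    apply Subtype.ext
    rw [coe_toRing]
    change T.coeff i = _
    rw [← hc i hi, ← IsScalarTower.algebraMap_apply]
  rw [h5] at h4
  exact (g.injective h4).symm

theorem recip_galois (n : ℕ) (hE : IsFunctionField (ZMod p) E) (hF : IsFunctionField (ZMod p) F)
    (S : Set (Place F)) (f : Place F → ℕ)
    (a : WittVector p F) (ha : ∀ v ∉ S, ∀ i, v.val (a.coeff i) ≤ 1)
    (hf : ∀ v ∉ S, haveI := v.charP_res p; ∀ i < n,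
        (∑ j ∈ Finset.range (v.deg p), (WittVector.frobenius^[j]) (redW v a)).coeff i =
          ((f v : ℕ) : WittVector p v.Res).coeff i)
    (y : E) (hy : Transcendental (ZMod p) y)
    (htop : IntermediateField.adjoin (ZMod p) {y} = ⊤)
    (hS1 : ∀ v ∈ S, v.val (algebraMap E F y - 1) < 1)
    (hS2 : ∀ v ∈ S, ∀ i < n,
      v.val ((algebraMap E F y - 1) ^ (p ^ i) * (a.coeff i) ^ (p ^ n)) ≤ 1)
    [Fintype (F →ₐ[E] M)] [Nonempty (F →ₐ[E] M)] :
    (p ^ n : ℤ) ∣ wt (fun v => (f v : ℤ)) (divF p hF (algebraMap E F y)) := by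
  classical
  have hy0 : y ≠ 0 := by
    intro h0
    rw [h0] at hy
    exact hy (isAlgebraic_zero (R := ZMod p))
  -- `y - 1` is also a generator
  have hy1 : Transcendental (ZMod p) (y - 1) := by
    intro h
    apply hy
    have := h.add (isAlgebraic_one (R := ZMod p) (A := E))
    rwa [sub_add_cancel] at this
  have htop1 : IntermediateField.adjoin (ZMod p) {y - 1} = ⊤ := by
    rw [eq_top_iff, ← htop, IntermediateField.adjoin_simple_le_iff]
    have h1 : y - 1 ∈ IntermediateField.adjoin (ZMod p) {y - 1} :=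
      IntermediateField.mem_adjoin_simple_self _ _
    have h2 := add_mem h1 (one_mem (IntermediateField.adjoin (ZMod p) {y - 1}))
    rwa [sub_add_cancel] at h2
  -- the coefficients lie in `E`
  have hex : ∀ i, ∃ t : E, algebraMap E M t =
      (∑ τ : F →ₐ[E] M, WittVector.map (τ : F →+* M) a).coeff i := by
    intro i
    have := (IsGalois.mem_range_algebraMap_iff_fixed (F := E)
      ((∑ τ : F →ₐ[E] M, WittVector.map (τ : F →+* M) a).coeff i)).mpr
      (fun σ => sum_embeddings_fixed p a σ i)
    exact this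
  choose t ht using hex
  obtain ⟨P0, hP0, hP0d, hP0u⟩ := exists_place_of_gen p hE y hy htop
  obtain ⟨Pi, hPi, hPid, hPiu⟩ := exists_place_of_gen p hE y⁻¹ (transcendental_inv p hy)
    (by rw [adjoin_inv, htop])
  rw [Place.ord_inv] at hPi
  have halg : ∀ i < n, IsAlgebraic (ZMod p) (t i) := fun i hi =>
    isAlgebraic_of_forall p hE fun P =>
      coeff_integral p n hE S a ha y hy1 htop1 hS1 hS2 t ht P i hi
  have hc : ∀ i, ∃ c : ZMod p, i < n → t i = algebraMap (ZMod p) E c := by
    intro i
    by_cases hi : i < n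
    · obtain ⟨c, hc⟩ := exists_const p hE P0 hP0d (t i) (halg i hi)
      exact ⟨c, fun _ => hc⟩
    · exact ⟨0, fun h => absurd h hi⟩
  choose c hc using hc
  have hc' : ∀ i < n, algebraMap E M (algebraMap (ZMod p) E (c i)) =
      (∑ τ : F →ₐ[E] M, WittVector.map (τ : F →+* M) a).coeff i := by
    intro i hi
    rw [← hc i hi, ht i]
  -- places above a zero or pole of `y` are not in `S`
  have hnS : ∀ P : Place E, P.ord y ≠ 0 → ∀ v : Place F, Over (algebraMap E F) v P → v ∉ S := by
    intro P hPy v hv hvS
    have h1 := hS1 v hvS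
    have h2 : P.val (y - 1) < 1 := by
      rw [← hv.val_lt_one_iff, map_sub, map_one]
      exact h1
    apply hPy
    rw [← P.val_eq_one_iff hy0]
    have h3 : y = (y - 1) + 1 := by ring
    rw [h3]
    have := Valuation.map_add_eq_of_lt_right P.val (x := y - 1) (y := 1) (by rwa [map_one])
    rw [this, map_one]
  have v0 := value_eq_const p n hE a f c hc' P0 hP0d
    (fun v hv => ha v (hnS P0 (by rw [hP0]; norm_num) v hv))
    (fun v hv => hf v (hnS P0 (by rw [hP0]; norm_num) v hv))
  have vi := value_eq_const p n hE a f c hc' Pi hPid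
    (fun v hv => ha v (hnS Pi (by omega) v hv))
    (fun v hv => hf v (hnS Pi (by omega) v hv))
  set N0 : ℕ := ∑ v ∈ (finite_fiber (L := F) p hE P0).toFinset, ramE (algebraMap E F) v P0 * f v
    with hN0
  set Ni : ℕ := ∑ v ∈ (finite_fiber (L := F) p hE Pi).toFinset, ramE (algebraMap E F) v Pi * f v
    with hNi
  have hmod : N0 ≡ Ni [MOD p ^ n] := by
    rw [← natCast_truncated_eq_iff p n (B := ZMod p), ← map_natCast (WittVector.truncate n),
      ← map_natCast (WittVector.truncate n), truncate_eq_iff]
    intro i hi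
    rw [v0 i hi, vi i hi]
  -- the weight of the divisor
  have hwt : wt (fun v => (f v : ℤ)) (divF p hF (algebraMap E F y)) = (N0 : ℤ) - (Ni : ℤ) := by
    set s0 := (finite_fiber (L := F) p hE P0).toFinset with hs0
    set si := (finite_fiber (L := F) p hE Pi).toFinset with hsi
    have hne : P0 ≠ Pi := by
      intro h
      rw [h] at hP0
      omega
    have hdisj : Disjoint s0 si := by
      rw [Finset.disjoint_left]
      intro v h0 hi
      rw [hs0, Set.Finite.mem_toFinset] at h0
      rw [hsi, Set.Finite.mem_toFinset] at hi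
      exact hne (Over.unique h0 hi)
    have hsupp : (divF p hF (algebraMap E F y)).support ⊆ s0 ∪ si := by
      intro v hv
      rw [Finsupp.mem_support_iff, divF_apply] at hv
      obtain ⟨P, hP⟩ := exists_under (L := F) p hE v
      rw [hP.ord_eq] at hv
      have h1 : P.ord y ≠ 0 := fun h => hv (by rw [h, mul_zero])
      rw [Finset.mem_union]
      rcases lt_or_gt_of_ne h1 with h | h
      · right
        rw [hsi, Set.Finite.mem_toFinset]
        have : P = Pi := hPiu P (by rw [Place.ord_inv]; omega)
        rw [← this]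
        exact hP
      · left
        rw [hs0, Set.Finite.mem_toFinset]
        have : P = P0 := hP0u P h
        rw [← this]
        exact hP
    rw [wt, Finsupp.sum_of_support_subset _ hsupp _ (fun v _ => by simp),
      Finset.sum_union hdisj, hN0, hNi]
    push_cast
    have e0 : ∀ v ∈ s0, (divF p hF (algebraMap E F y)) v * (f v : ℤ)
        = (ramE (algebraMap E F) v P0 : ℤ) * f v := by
      intro v hv
      rw [hs0, Set.Finite.mem_toFinset] at hv
      have hv' : Over (algebraMap E F) v P0 := hv
      rw [divF_apply, hv'.ord_eq, hP0, mul_one]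
    have ei : ∀ v ∈ si, (divF p hF (algebraMap E F y)) v * (f v : ℤ)
        = -((ramE (algebraMap E F) v Pi : ℤ) * f v) := by
      intro v hv
      rw [hsi, Set.Finite.mem_toFinset] at hv
      have hv' : Over (algebraMap E F) v Pi := hv
      have : Pi.ord y = -1 := by omega
      rw [divF_apply, hv'.ord_eq, this]
      ring
    rw [Finset.sum_congr rfl e0, Finset.sum_congr rfl ei, Finset.sum_neg_distrib]
    ring
  rw [hwt]
  have := (Nat.modEq_iff_dvd.mp hmod.symm)
  exact_mod_cast this

end Main

/-- The main case of the reciprocity law. -/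
theorem recip_main (p : ℕ) [hp : Fact p.Prime] (n : ℕ) {F : Type*} [Field F]
    [Algebra (ZMod p) F] (hF : IsFunctionField (ZMod p) F) (S : Set (Place F))
    (f : Place F → ℕ) (a : WittVector p F) (ha : ∀ v ∉ S, ∀ i, v.val (a.coeff i) ≤ 1)
    (hf : ∀ v ∉ S, haveI := v.charP_res p; ∀ i < n,
        (∑ j ∈ Finset.range (v.deg p), (WittVector.frobenius^[j]) (redW v a)).coeff i =
          ((f v : ℕ) : WittVector p v.Res).coeff i)
    (u : F) (hu : Transcendental (ZMod p) u) (hup : ∀ w : F, w ^ p ≠ u)
    (hS1 : ∀ v ∈ S, v.val (u - 1) < 1)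
    (hS2 : ∀ v ∈ S, ∀ i < n, v.val ((u - 1) ^ (p ^ i) * (a.coeff i) ^ (p ^ n)) ≤ 1) :
    (p ^ n : ℤ) ∣ wt (fun v => (f v : ℤ)) (divF p hF u) := by
  classical
  obtain ⟨t, ht, htfin⟩ := id hF
  obtain ⟨hfin, hsep⟩ := isSeparable_adjoin p F t ht u hu hup
  set E := IntermediateField.adjoin (ZMod p) {u} with hEdef
  let y : E := ⟨u, IntermediateField.mem_adjoin_simple_self _ u⟩
  have hyu : algebraMap E F y = u := rfl
  have hy : Transcendental (ZMod p) y := by
    intro h
    apply hu
    have := h.algebraMap (A := F)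
    rwa [hyu] at this
  have htop : IntermediateField.adjoin (ZMod p) {y} = ⊤ := by
    apply IntermediateField.map_injective E.val
    rw [IntermediateField.adjoin_map, Set.image_singleton, ← AlgHom.fieldRange_eq_map,
      IntermediateField.fieldRange_val]
    rfl
  have hE : IsFunctionField (ZMod p) E := by
    refine ⟨y, hy, ?_⟩
    rw [htop]
    exact FiniteDimensional.of_finrank_pos (by rw [IntermediateField.finrank_top]; norm_num)
  let M := IntermediateField.normalClosure E F (AlgebraicClosure F)
  have : FiniteDimensional E M := inferInstance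
  have : Algebra.IsAlgebraic E (AlgebraicClosure F) := Algebra.IsAlgebraic.trans E F _
  have : IsAlgClosure E (AlgebraicClosure F) := ⟨inferInstance, inferInstance⟩
  have : Normal E (AlgebraicClosure F) := IsAlgClosure.normal E _
  have hn : Normal E M := inferInstance
  have hs : Algebra.IsSeparable E M := by
    have : ∀ g : F →ₐ[E] AlgebraicClosure F, Algebra.IsSeparable E g.fieldRange := fun g =>
      _root_.AlgEquiv.Algebra.isSeparable (AlgEquiv.ofInjectiveField g)
    exact IntermediateField.isSeparable_iSup E (AlgebraicClosure F)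
  have : IsGalois E M := ⟨⟩
  have : Nonempty (F →ₐ[E] M) := ⟨IsScalarTower.toAlgHom E F M⟩
  have : Fintype (F →ₐ[E] M) := Fintype.ofFinite _
  have key := recip_galois p (M := M) n hE hF S f a ha hf y hy htop (by rw [hyu]; exact hS1)
    (by rw [hyu]; exact hS2)
  rw [hyu] at key
  exact key

end Pool.Agent.Helper47.Wan
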