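import Pool.Agent.Helper47.Wan.DegEq

open scoped WithZero NNReal Polynomial
open WithZero IsLocalRing

namespace Pool.Agent.Helper47.Wan

variable (p : ℕ) [hp : Fact p.Prime] {F : Type*} [Field F] [Algebra (ZMod p) F]

/-- Riemann's theorem (weak form). -/
theorem exists_riemann (hF : IsFunctionField (ZMod p) F) :
    ∃ γ c : ℤ, ∀ D : Place F →₀ ℤ, c ≤ degD p D → (ell p D : ℤ) = degD p D - γ := by
  classical
  obtain ⟨t, ht, _⟩ := id hF
  have hfd := hF.finiteDimensional ht
  obtain ⟨C, hC0, hC⟩ := exists_bound p hF ht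
  set n := Module.finrank (IntermediateField.adjoin (ZMod p) {t}) F with hn
  have hn0 : 0 < n := Module.finrank_pos
  set B := zeroD p hF t⁻¹ with hB
  have hBn : degD p B = n := by
    rw [hB, degD_zeroD p hF (transcendental_inv p ht), adjoin_inv p t]
  set g : (Place F →₀ ℤ) → ℤ := fun D => degD p D - ell p D with hg
  have gmono : ∀ D D' : Place F →₀ ℤ, (∀ v, D v ≤ D' v) → g D ≤ g D' := by
    intro D D' h
    have := (ell_mono p hF h).2
    simp only [hg]
    linarith
  have ginv : ∀ (D : Place F →₀ ℤ) (x : F), x ≠ 0 → g (D + divF p hF x) = g D := by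
    intro D x hx
    simp only [hg]
    rw [ell_add_divF p hF hx, degD_add_divF]
  have hlB : ∀ l : ℕ, (n : ℤ) * (l + 1) - degD p C ≤ ell p (l • B) := by
    intro l
    have h1 := (ell_mono p hF (D := l • B) (D' := l • B + C) (fun v => by
      rw [Finsupp.add_apply (l • B) C]; have := hC0 v; linarith)).2
    rw [degD_add] at h1
    have h2 := hC l
    linarith
  have gl : ∀ l : ℕ, g (l • B) ≤ degD p C - n := by
    intro l
    simp only [hg]
    rw [degD_smul, hBn]
    have := hlB l
    linarith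
  have gbd : ∀ D, g D ≤ degD p C - n := by
    intro D
    let D' : Place F →₀ ℤ := D.mapRange (fun n => max n 0) (by simp)
    have hD' : ∀ v, D' v = max (D v) 0 := fun v => rfl
    have hD'0 : ∀ v, 0 ≤ D' v := fun v => by rw [hD']; exact le_max_right _ _
    have h1 : g D ≤ g D' := gmono _ _ (fun v => by rw [hD']; exact le_max_left _ _)
    refine h1.trans ?_
    set l : ℕ := (degD p C + degD p D').toNat with hl
    have hlc : (l : ℤ) = degD p C + degD p D' :=
      Int.toNat_of_nonneg (add_nonneg (degD_nonneg p hC0) (degD_nonneg p hD'0))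
    have h2 : 0 < ell p (l • B - D') := by
      have h3 := (ell_mono p hF (D := l • B - D') (D' := l • B) (fun v => by
        rw [Finsupp.sub_apply]; have := hD'0 v; linarith)).2
      rw [degD_sub] at h3
      have h4 := hlB l
      have h5 : (1 : ℤ) ≤ n := by omega
      have h6 : (0 : ℤ) ≤ l := Int.natCast_nonneg l
      have h7 : (0 : ℤ) < ell p (l • B - D') := by nlinarith
      exact_mod_cast h7
    obtain ⟨z, hz, hz0⟩ : ∃ z ∈ LL p (l • B - D'), z ≠ 0 := by
      apply Submodule.exists_mem_ne_zero_of_ne_bot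
      intro hbot
      rw [ell, hbot, finrank_bot] at h2
      exact absurd h2 (lt_irrefl 0)
    rw [← ginv D' z⁻¹ (inv_ne_zero hz0)]
    refine (gmono _ (l • B) ?_).trans (gl l)
    intro v
    have h3 := hz v (Set.mem_univ v)
    rw [v.val_le_exp_iff hz0, Finsupp.sub_apply] at h3
    rw [Finsupp.add_apply, divF_apply, v.ord_inv]
    linarith
  obtain ⟨γ, ⟨D₀, hD₀⟩, hγ⟩ := Int.exists_greatest_of_bdd (P := fun z => ∃ D, g D = z)
    ⟨degD p C - n, by rintro z ⟨D, rfl⟩; exact gbd D⟩ ⟨g 0, 0, rfl⟩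
  refine ⟨γ, degD p D₀ + γ + 1, fun D hD => ?_⟩
  have h1 : 0 < ell p (D - D₀) := by
    have h2 : g (D - D₀) ≤ γ := hγ _ ⟨_, rfl⟩
    simp only [hg] at h2
    rw [degD_sub] at h2
    have : (0 : ℤ) < ell p (D - D₀) := by linarith
    exact_mod_cast this
  obtain ⟨z, hz, hz0⟩ : ∃ z ∈ LL p (D - D₀), z ≠ 0 := by
    apply Submodule.exists_mem_ne_zero_of_ne_bot
    intro hbot
    rw [ell, hbot, finrank_bot] at h1
    exact absurd h1 (lt_irrefl 0)
  have h2 : γ ≤ g D := by
    rw [← hD₀, ← ginv D z hz0]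
    apply gmono
    intro v
    have h3 := hz v (Set.mem_univ v)
    rw [v.val_le_exp_iff hz0, Finsupp.sub_apply] at h3
    rw [Finsupp.add_apply, divF_apply]
    linarith
  have h3 : g D ≤ γ := hγ _ ⟨D, rfl⟩
  have h4 : g D = γ := le_antisymm h3 h2
  simp only [hg] at h4
  linarith

theorem exists_ne_zero_of_ell_pos {D : Place F →₀ ℤ} (h : 0 < ell p D) :
    ∃ z ∈ LL p D, z ≠ 0 := by
  apply Submodule.exists_mem_ne_zero_of_ne_bot
  intro hbot
  rw [ell, hbot, finrank_bot] at h
  exact absurd h (lt_irrefl 0)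

/-- There are only finitely many places of bounded degree. -/
theorem finite_places_le (hF : IsFunctionField (ZMod p) F) (d : ℕ) :
    {v : Place F | v.deg p ≤ d}.Finite := by
  classical
  obtain ⟨t, ht, _⟩ := id hF
  have ht0 : t ≠ 0 := by rintro rfl; exact ht isAlgebraic_zero
  have htr : ∀ m : ℕ, 0 < m → Transcendental (ZMod p) (t ^ (p ^ m) - t) := by
    intro m hm h
    apply ht
    have h1 : (Polynomial.aeval t) (Polynomial.X ^ (p ^ m) - Polynomial.X : (ZMod p)[X]) =
        t ^ (p ^ m) - t := by simp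
    rw [← h1] at h
    obtain ⟨r, hr0, hr⟩ := h
    refine ⟨r.comp (Polynomial.X ^ (p ^ m) - Polynomial.X), ?_, ?_⟩
    · intro h0
      rw [Polynomial.comp_eq_zero_iff] at h0
      rcases h0 with h0 | ⟨_, h0⟩
      · exact hr0 h0
      · have h2 := congrArg (fun q : (ZMod p)[X] => q.coeff (p ^ m)) h0
        simp only [Polynomial.coeff_sub, Polynomial.coeff_X_pow, if_true, Polynomial.coeff_X,
          Polynomial.coeff_C] at h2
        have h3 : p ^ m ≠ 0 := pow_ne_zero _ hp.out.ne_zero
        have h4 : 1 ≠ p ^ m := by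
          have := Nat.one_lt_pow hm.ne' hp.out.one_lt
          omega
        rw [if_neg h4, if_neg h3] at h2
        simp at h2
    · rw [Polynomial.aeval_comp]; exact hr
  have hsub : {v : Place F | v.deg p ≤ d} ⊆ {v : Place F | 0 < v.ord t⁻¹} ∪
      ⋃ m ∈ Finset.Icc 1 d, {v : Place F | 0 < v.ord (t ^ (p ^ m) - t)} := by
    intro v hv
    rw [Set.mem_ofPred_eq] at hv
    by_cases h : 0 < v.ord t⁻¹
    · exact Or.inl h
    · right
      rw [v.ord_inv] at h
      obtain ⟨hc, hc0⟩ := v.card_res p hF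
      have := v.finite_res p hF
      have : Fintype v.Res := Fintype.ofFinite _
      simp only [Set.mem_iUnion, Finset.mem_Icc]
      refine ⟨v.deg p, ⟨hc0, hv⟩, ?_⟩
      have hti : v.val t ≤ 1 := by rw [v.val_le_one_iff ht0]; omega
      have h1 : (IsLocalRing.residue v.ring ⟨t, hti⟩) ^ (p ^ (v.deg p)) =
          IsLocalRing.residue v.ring ⟨t, hti⟩ := by
        rw [← hc, Nat.card_eq_fintype_card]
        exact FiniteField.pow_card _
      rw [← map_pow, ← sub_eq_zero, ← map_sub, IsLocalRing.residue_eq_zero_iff,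
        Valuation.mem_maximalIdeal_iff] at h1
      change v.val (t ^ (p ^ (v.deg p)) - t) < 1 at h1
      have h0 : t ^ (p ^ (v.deg p)) - t ≠ 0 := by
        intro h0
        have := htr _ hc0
        rw [h0] at this
        exact this isAlgebraic_zero
      exact (v.val_lt_one_iff h0).1 h1
  apply Set.Finite.subset _ hsub
  apply Set.Finite.union (finite_zeros p hF (transcendental_inv p ht))
  apply Set.Finite.biUnion (Finset.finite_toSet _)
  intro m hm
  rw [Finset.mem_coe, Finset.mem_Icc] at hm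
  exact finite_zeros p hF (htr m hm.1)

/-- There are only finitely many effective divisors of bounded degree. -/
theorem finite_effective (hF : IsFunctionField (ZMod p) F) (d : ℤ) :
    {D : Place F →₀ ℤ | (∀ v, 0 ≤ D v) ∧ degD p D ≤ d}.Finite := by
  classical
  set s := (finite_places_le p hF d.toNat).toFinset with hs
  set M : Place F →₀ ℤ := ∑ v ∈ s, Finsupp.single v d with hM
  have hMv : ∀ v ∈ s, M v = d := by
    intro v hv
    rw [hM, Finsupp.finsetSum_apply, Finset.sum_eq_single v]
    · simp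
    · intro w _ hw; simp [hw]
    · intro h; exact absurd hv h
  apply Set.Finite.subset (Finset.finite_toSet (Finset.Icc (0 : Place F →₀ ℤ) M))
  rintro D ⟨hD0, hDd⟩
  rw [Finset.mem_coe, Finset.mem_Icc]
  refine ⟨fun v => by simpa using hD0 v, fun v => ?_⟩
  have h1 : ∀ v, D v * v.deg p ≤ degD p D := by
    intro v
    rw [degD, Finsupp.sum]
    by_cases hv : v ∈ D.support
    · exact Finset.single_le_sum (f := fun v => D v * (v.deg p : ℤ))
        (fun w _ => mul_nonneg (hD0 w) (Int.natCast_nonneg _)) hv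
    · rw [Finsupp.notMem_support_iff] at hv
      rw [hv, zero_mul]
      exact Finset.sum_nonneg (fun w _ => mul_nonneg (hD0 w) (Int.natCast_nonneg _))
  have hdeg0 := (v.card_res p hF).2
  by_cases hv : D v = 0
  · rw [hv]
    by_cases hvs : v ∈ s
    · rw [hMv v hvs]
      exact (degD_nonneg p hD0).trans hDd
    · rw [hM, Finsupp.finsetSum_apply]
      apply Finset.sum_nonneg
      intro w _
      rw [Finsupp.single_apply]
      split_ifs
      · exact (degD_nonneg p hD0).trans hDd
      · exact le_refl _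
  · have h2 := h1 v
    have h3 := hD0 v
    have h4 : 1 ≤ D v := by omega
    have h5 : (v.deg p : ℤ) ≤ d := by
      have : (v.deg p : ℤ) ≤ D v * v.deg p := by nlinarith
      linarith
    have hvs : v ∈ s := by
      rw [hs, Set.Finite.mem_toFinset, Set.mem_ofPred_eq]
      omega
    rw [hMv v hvs]
    have : D v ≤ D v * v.deg p := by
      have : (1 : ℤ) ≤ v.deg p := by omega
      nlinarith
    linarith

/-- The group of divisor classes of degree zero has finite exponent. -/
theorem exists_exponent (hF : IsFunctionField (ZMod p) F) :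
    ∃ e : ℕ, 0 < e ∧ ∀ D : Place F →₀ ℤ, degD p D = 0 → ∃ z : F, z ≠ 0 ∧
      divF p hF z = e • D := by
  classical
  obtain ⟨γ, c, hc⟩ := exists_riemann p hF
  obtain ⟨v₀⟩ := exists_place p hF
  have hv₀ := (v₀.card_res p hF).2
  -- a divisor of large degree
  obtain ⟨D₀, hD₀⟩ : ∃ D₀ : Place F →₀ ℤ, max c (γ + 1) ≤ degD p D₀ := by
    refine ⟨Finsupp.single v₀ (|max c (γ + 1)|), ?_⟩
    rw [degD_single]
    have h1 : max c (γ + 1) ≤ |max c (γ + 1)| := le_abs_self _
    have h2 : (1 : ℤ) ≤ v₀.deg p := by omega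
    have h3 : 0 ≤ |max c (γ + 1)| := abs_nonneg _
    nlinarith
  set d₀ := degD p D₀ with hd₀
  set A := (finite_effective p hF d₀).toFinset with hA
  refine ⟨(A.card).factorial, Nat.factorial_pos _, fun D hD => ?_⟩
  have key : ∀ k : ℕ, ∃ E ∈ A, ∃ z : F, z ≠ 0 ∧ E = k • D + D₀ + divF p hF z := by
    intro k
    have h1 : degD p (k • D + D₀) = d₀ := by rw [degD_add, degD_smul, hD, mul_zero, zero_add]
    have h2 : 0 < ell p (k • D + D₀) := by
      have h3 := hc (k • D + D₀) (by rw [h1]; exact (le_max_left _ _).trans hD₀)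
      have h4 : γ + 1 ≤ d₀ := (le_max_right _ _).trans hD₀
      rw [h1] at h3
      have : (0 : ℤ) < ell p (k • D + D₀) := by linarith
      exact_mod_cast this
    obtain ⟨z, hz, hz0⟩ := exists_ne_zero_of_ell_pos p h2
    refine ⟨k • D + D₀ + divF p hF z, ?_, z, hz0, rfl⟩
    rw [hA, Set.Finite.mem_toFinset, Set.mem_ofPred_eq]
    refine ⟨fun v => ?_, ?_⟩
    · have h3 := hz v (Set.mem_univ v)
      rw [v.val_le_exp_iff hz0] at h3
      rw [Finsupp.add_apply (k • D + D₀) (divF p hF z), divF_apply]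
      linarith
    · rw [degD_add_divF, h1]
  choose E hEA z hz0 hE using key
  obtain ⟨i, hi, j, hj, hij, hEij⟩ := Finset.exists_ne_map_eq_of_card_lt_of_maps_to
    (s := Finset.range (A.card + 1)) (t := A) (by simp) (f := E) (fun k _ => hEA k)
  rw [Finset.mem_range] at hi hj
  -- wlog i < j
  obtain ⟨i, j, hi, hj, hij, hEij⟩ : ∃ i j : ℕ, i < A.card + 1 ∧ j < A.card + 1 ∧ i < j ∧
      E i = E j := by
    rcases lt_or_gt_of_ne hij with h | h
    · exact ⟨i, j, hi, hj, h, hEij⟩
    · exact ⟨j, i, hj, hi, h, hEij.symm⟩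
  rw [hE i, hE j] at hEij
  have h1 : divF p hF (z i / z j) = (j - i) • D := by
    rw [div_eq_mul_inv, divF_mul p hF (hz0 i) (inv_ne_zero (hz0 j)), divF_inv]
    ext v
    have h2 := DFunLike.congr_fun hEij v
    simp only [Finsupp.add_apply, Finsupp.smul_apply, nsmul_eq_mul, Finsupp.neg_apply] at h2 ⊢
    rw [Nat.cast_sub hij.le]
    linarith
  have h2 : (j - i) ∣ (A.card).factorial := Nat.dvd_factorial (by omega) (by omega)
  obtain ⟨q, hq⟩ := h2
  refine ⟨(z i / z j) ^ q, pow_ne_zero _ (div_ne_zero (hz0 i) (hz0 j)), ?_⟩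
  ext v
  have h3 := DFunLike.congr_fun h1 v
  rw [divF_apply] at h3 ⊢
  rw [v.ord_pow, h3, hq, Finsupp.smul_apply, Finsupp.smul_apply, nsmul_eq_mul, nsmul_eq_mul]
  push_cast
  ring

end Pool.Agent.Helper47.Wan
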