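import Pool.Agent.Helper47.Wan.Nk

open scoped WithZero NNReal Polynomial
open WithZero IsLocalRing
open Pool.Agent.Helper18.Wan

namespace Pool.Agent.Helper47.Wan

theorem dvd_aux (N d k f : ℕ) (hd : 0 < d) (hdk : d ∣ k) :
    addOrderOf (f : ZMod N) * d ∣ k ↔ N ∣ f * (k / d) := by
  obtain ⟨k', rfl⟩ := hdk
  rw [Nat.mul_div_cancel_left _ hd, mul_comm (addOrderOf _) d, Nat.mul_dvd_mul_iff_left hd,
    addOrderOf_dvd_iff_nsmul_eq_zero, nsmul_eq_mul, ← Nat.cast_mul,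
    ZMod.natCast_eq_zero_iff, mul_comm]

section
variable (p : ℕ) [hp : Fact p.Prime] {K L : Type*} [Field K] [Field L] [Algebra (ZMod p) K]
  [Algebra (ZMod p) L] [Algebra K L] [IsScalarTower (ZMod p) K L] [FiniteDimensional K L]
  [IsGalois K L]

omit [Algebra (ZMod p) K] [Algebra (ZMod p) L] [IsScalarTower (ZMod p) K L] in
theorem card_gal (n : ℕ) (e : (L ≃ₐ[K] L) ≃* Multiplicative (ZMod (p ^ n))) :
    Nat.card (L ≃ₐ[K] L) = p ^ n := by
  rw [Nat.card_congr e.toEquiv, Nat.card_congr Multiplicative.toAdd, Nat.card_zmod]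

theorem fibSum_unram' (hK : IsFunctionField (ZMod p) K) (n : ℕ)
    (e : (L ≃ₐ[K] L) ≃* Multiplicative (ZMod (p ^ n))) (r : ℕ) (hr : 0 < r)
    (dX : Place K → ℕ) (dY : Place L → ℕ) (hdX : ∀ v, v.deg p = r * dX v)
    (hdY : ∀ w, w.deg p = r * dY w) (k : ℕ) (v : Place K) (hk : dX v ∣ k)
    (he : ∀ w : Place L, Over (algebraMap K L) w v → ramE (algebraMap K L) w v = 1) (f : ℕ)
    (hf : ∀ w : Place L, Over (algebraMap K L) w v → ∀ σ : L ≃ₐ[K] L, IsFrob σ w v →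
      Multiplicative.toAdd (e σ) = (f : ZMod (p ^ n))) :
    fibSum (L := L) p hK dY v k =
      (dX v : ℤ) * (if p ^ n ∣ f * (k / dX v) then (p ^ n : ℤ) else 0) := by
  have hdv : 0 < dX v := by
    have := (v.card_res p hK).2
    rw [hdX] at this
    exact Nat.pos_of_mul_pos_left this
  have h1 := fibSum_unram p hK r hr dX dY hdX hdY k v he (addOrderOf (f : ZMod (p ^ n)))
    (fun w hw σ hσ => by
      rw [← MulEquiv.orderOf_eq e σ, ← hf w hw σ hσ]
      exact orderOf_ofAdd_eq_addOrderOf (Multiplicative.toAdd (e σ)))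
  rw [h1, ← IsGalois.card_aut_eq_finrank, card_gal p n e]
  by_cases hdiv : p ^ n ∣ f * (k / dX v)
  · rw [if_pos hdiv, if_pos ((dvd_aux _ _ _ _ hdv hk).2 hdiv)]
    push_cast
    ring
  · rw [if_neg hdiv, if_neg (fun h => hdiv ((dvd_aux _ _ _ _ hdv hk).1 h)), mul_zero]

end

section
variable (p : ℕ) [hp : Fact p.Prime] {K K₁ L : Type*} [Field K] [Field K₁] [Field L]
  [Algebra (ZMod p) K] [Algebra (ZMod p) K₁] [Algebra (ZMod p) L]
  [Algebra K K₁] [Algebra K₁ L] [Algebra K L] [IsScalarTower K K₁ L]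
  [IsScalarTower (ZMod p) K K₁] [IsScalarTower (ZMod p) K₁ L] [IsScalarTower (ZMod p) K L]
  [FiniteDimensional K K₁] [FiniteDimensional K₁ L] [FiniteDimensional K L] [IsGalois K L]

include p in
theorem ramE_of_tower (hK : IsFunctionField (ZMod p) K) {v : Place K}
    (hunr : ∀ w : Place L, Over (algebraMap K L) w v → ramE (algebraMap K L) w v = 1)
    (w : Place K₁) (hw : Over (algebraMap K K₁) w v) : ramE (algebraMap K K₁) w v = 1 := by
  have hK₁ := hK.of_finite p (L := K₁)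
  obtain ⟨x, hx⟩ := exists_over (L := L) p hK₁ w
  have h1 := hx.ramE_comp hw
  have h2 := hx.comp hw
  rw [algebraMap_comp] at h1 h2
  rw [hunr x h2] at h1
  exact Nat.eq_one_of_mul_eq_one_left h1.symm

/-- The point counts of two consecutive layers of a `ℤ_p`-tower. -/
theorem pSum_tower [IsGalois K K₁] (n : ℕ) (hn : 1 ≤ n)
    (eL : (L ≃ₐ[K] L) ≃* Multiplicative (ZMod (p ^ n)))
    (eK₁ : (K₁ ≃ₐ[K] K₁) ≃* Multiplicative (ZMod (p ^ (n - 1))))
    (hK : IsFunctionField (ZMod p) K) (S : Set (Place K)) (f : Place K → ℕ)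
    (hunr : ∀ v ∉ S, ∀ w : Place L, Over (algebraMap K L) w v → ramE (algebraMap K L) w v = 1)
    (hfL : ∀ v ∉ S, ∀ w : Place L, Over (algebraMap K L) w v → ∀ σ : L ≃ₐ[K] L,
      IsFrob σ w v → Multiplicative.toAdd (eL σ) = (f v : ZMod (p ^ n)))
    (hfK₁ : ∀ v ∉ S, ∀ w : Place K₁, Over (algebraMap K K₁) w v → ∀ σ : K₁ ≃ₐ[K] K₁,
      IsFrob σ w v → Multiplicative.toAdd (eK₁ σ) = (f v : ZMod (p ^ (n - 1))))
    (hram : ∀ v ∈ S, ∀ w : Place L, Over (algebraMap K L) w v →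
      1 < ramE (algebraMap K L) w v)
    (r : ℕ) (hr : 0 < r) (dX : Place K → ℕ) (dY : Place L → ℕ) (dY₁ : Place K₁ → ℕ)
    (hdX : ∀ v, v.deg p = r * dX v) (hdY : ∀ w, w.deg p = r * dY w)
    (hdY₁ : ∀ w, w.deg p = r * dY₁ w) (k : ℕ) (hk : 1 ≤ k) :
    pSum dY (fun _ => (1 : ℤ)) k = pSum dY₁ (fun _ => (1 : ℤ)) k +
      ∑ᶠ x ∈ {x : {v : Place K // v ∉ S} | dX x.1 ∣ k}, (dX x.1 : ℤ) *
        ((if p ^ n ∣ f x.1 * (k / dX x.1) then (p ^ n : ℤ) else 0) -
          (if p ^ (n - 1) ∣ f x.1 * (k / dX x.1) then (p ^ (n - 1) : ℤ) else 0)) := by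
  classical
  have hVfin : {v : Place K | dX v ∣ k}.Finite := by
    apply Set.Finite.subset (finite_places_le p hK (r * k))
    intro w hw
    rw [Set.mem_ofPred_eq] at hw ⊢
    rw [hdX]
    exact Nat.mul_le_mul_left r (Nat.le_of_dvd (by omega) hw)
  set V := hVfin.toFinset with hV
  have hVm : ∀ v, v ∈ V ↔ dX v ∣ k := by
    intro v; rw [hV, Set.Finite.mem_toFinset]; rfl
  rw [pSum_eq_fibSum p hK r hr dX dY hdX hdY k hk V (fun v hv => (hVm v).2 hv),
    pSum_eq_fibSum p hK r hr dX dY₁ hdX hdY₁ k hk V (fun v hv => (hVm v).2 hv)]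
  have hcyc : IsCyclic (L ≃ₐ[K] L) := isCyclic_of_surjective eL.symm eL.symm.surjective
  have hcard := card_gal p n eL
  have hfin : Module.finrank K₁ L = p := by
    have h1 := Module.finrank_mul_finrank K K₁ L
    rw [← IsGalois.card_aut_eq_finrank K L, ← IsGalois.card_aut_eq_finrank K K₁, hcard,
      card_gal p (n - 1) eK₁] at h1
    obtain ⟨j, rfl⟩ : ∃ j, n = j + 1 := ⟨n - 1, by omega⟩
    rw [Nat.add_sub_cancel, pow_succ] at h1
    exact Nat.eq_of_mul_eq_mul_left (pow_pos hp.out.pos j) h1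
  set g : Place K → ℤ := fun v => (dX v : ℤ) *
        ((if p ^ n ∣ f v * (k / dX v) then (p ^ n : ℤ) else 0) -
          (if p ^ (n - 1) ∣ f v * (k / dX v) then (p ^ (n - 1) : ℤ) else 0)) with hg
  have h1 : ∑ᶠ x ∈ {x : {v : Place K // v ∉ S} | dX x.1 ∣ k}, g x.1 =
      ∑ v ∈ V.filter (fun v => v ∉ S), g v := by
    rw [← finsum_mem_finset_eq_sum]
    apply finsum_mem_eq_of_bijOn (fun x : {v : Place K // v ∉ S} => x.1)
    · refine ⟨?_, Subtype.val_injective.injOn, ?_⟩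
      · intro x hx
        rw [Finset.mem_coe, Finset.mem_filter, hVm]
        exact ⟨hx, x.2⟩
      · intro v hv
        rw [Finset.mem_coe, Finset.mem_filter, hVm] at hv
        exact ⟨⟨v, hv.2⟩, hv.1, rfl⟩
    · intro x _
      rfl
  rw [h1, Finset.sum_filter, ← Finset.sum_add_distrib]
  apply Finset.sum_congr rfl
  intro v hv
  rw [hVm] at hv
  by_cases hvS : v ∈ S
  · rw [if_neg (not_not.2 hvS), add_zero]
    exact fibSum_ram p n hcard hfin hK v r hr dY dY₁ hdY hdY₁ (hram v hvS) k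
  · rw [if_pos hvS, fibSum_unram' p hK n eL r hr dX dY hdX hdY k v hv (hunr v hvS) (f v)
      (hfL v hvS), fibSum_unram' p hK (n - 1) eK₁ r hr dX dY₁ hdX hdY₁ k v hv
      (fun w hw => ramE_of_tower (L := L) p hK (hunr v hvS) w hw) (f v) (hfK₁ v hvS), hg]
    ring

end

end Pool.Agent.Helper47.Wan
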