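import Pool.Agent.Helper47.Wan.Degree

open scoped WithZero NNReal Polynomial
open WithZero IsLocalRing

namespace Pool.Agent.Helper47.Wan

variable (p : ℕ) [hp : Fact p.Prime] {F : Type*} [Field F] [Algebra (ZMod p) F]

/-- The degree of a divisor (over the prime field). -/
noncomputable def degD (D : Place F →₀ ℤ) : ℤ := D.sum (fun v n => n * (v.deg p : ℤ))

theorem degD_zero : degD p (0 : Place F →₀ ℤ) = 0 := by simp [degD]

theorem degD_single (v : Place F) (n : ℤ) : degD p (Finsupp.single v n) = n * v.deg p := by
  simp [degD]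

theorem degD_add (D E : Place F →₀ ℤ) : degD p (D + E) = degD p D + degD p E := by
  classical
  rw [degD, degD, degD, Finsupp.sum_add_index']
  · simp
  · intro v a b; ring

theorem degD_neg (D : Place F →₀ ℤ) : degD p (-D) = - degD p D := by
  have := degD_add p D (-D)
  rw [add_neg_cancel, degD_zero] at this
  linarith

theorem degD_sub (D E : Place F →₀ ℤ) : degD p (D - E) = degD p D - degD p E := by
  rw [sub_eq_add_neg, degD_add, degD_neg]; ring

/-- The divisor of a multiset of places. -/
noncomputable def msD (E : Multiset (Place F)) : Place F →₀ ℤ :=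
  (E.map (fun v => Finsupp.single v (1 : ℤ))).sum

theorem msD_zero : msD (0 : Multiset (Place F)) = 0 := by simp [msD]

theorem msD_cons (v : Place F) (E : Multiset (Place F)) :
    msD (v ::ₘ E) = Finsupp.single v 1 + msD E := by simp [msD]

theorem exists_ms (D : Place F →₀ ℤ) (hD : ∀ v, 0 ≤ D v) :
    ∃ E : Multiset (Place F), msD E = D ∧ ∀ v ∈ E, D v ≠ 0 := by
  classical
  induction D using Finsupp.induction with
  | zero => exact ⟨0, by simp [msD]⟩
  | single_add a b f ha hb ih =>
    have hfa : f a = 0 := by simpa using ha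
    have hb0 : 0 ≤ b := by
      have := hD a
      simpa [hfa] using this
    have hf : ∀ v, 0 ≤ f v := by
      intro v
      by_cases hv : v = a
      · rw [hv, hfa]
      · have := hD v
        simpa [Ne.symm hv] using this
    obtain ⟨E, hE, hE2⟩ := ih hf
    refine ⟨Multiset.replicate b.toNat a + E, ?_, ?_⟩
    · have h1 : msD (Multiset.replicate b.toNat a + E) =
          msD (Multiset.replicate b.toNat a) + msD E := by simp [msD]
      rw [h1, hE]
      congr 1
      simp only [msD, Multiset.map_replicate, Multiset.sum_replicate]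
      ext v
      simp only [Finsupp.smul_apply, Finsupp.single_apply]
      split_ifs
      · simp [hb0]
      · simp
    · intro v hv
      rw [Multiset.mem_add] at hv
      rcases hv with hv | hv
      · have := Multiset.eq_of_mem_replicate hv
        subst this
        simp [hfa, hb]
      · have h2 := hE2 v hv
        by_cases hva : v = a
        · subst hva; exact absurd hfa h2
        · simpa [Ne.symm hva] using h2

theorem relIndex_ms (hF : IsFunctionField (ZMod p) F) (T : Set (Place F))
    (E : Multiset (Place F)) (hE : ∀ v ∈ E, v ∈ T) : ∀ D : Place F →₀ ℤ,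
    ∃ n : ℕ, (RR p T D).toAddSubgroup.relIndex (RR p T (D + msD E)).toAddSubgroup = n ∧
    n ≠ 0 ∧ (n : ℝ) ≤ (p : ℝ) ^ (degD p (msD E)) ∧ 0 ≤ degD p (msD E) ∧
    (T.Finite → (n : ℝ) = (p : ℝ) ^ (degD p (msD E))) := by
  classical
  induction E using Multiset.induction with
  | empty =>
    intro D
    refine ⟨1, ?_, by norm_num, ?_, ?_, ?_⟩
    · rw [msD_zero, add_zero]; exact AddSubgroup.relIndex_self _
    · rw [msD_zero, degD_zero]; simp
    · rw [msD_zero, degD_zero]
    · intro _; rw [msD_zero, degD_zero]; simp
  | cons v E ih =>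
    intro D
    have hv : v ∈ T := hE v (Multiset.mem_cons_self v E)
    obtain ⟨n, hn, hn0, hn1, hn2, hn3⟩ := ih (fun w hw => hE w (Multiset.mem_cons_of_mem hw))
      (D + Finsupp.single v 1)
    have := v.finite_res p hF
    obtain ⟨hc, hc0⟩ := v.card_res p hF
    obtain ⟨h1, h2, h3⟩ := RR_step p hv D (D + Finsupp.single v 1) rfl
    have hpos : (0 : ℝ) < p := by exact_mod_cast hp.out.pos
    have heq : D + msD (v ::ₘ E) = D + Finsupp.single v 1 + msD E := by
      rw [msD_cons, add_assoc]
    have hdeg : degD p (msD (v ::ₘ E)) = v.deg p + degD p (msD E) := by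
      rw [msD_cons, degD_add, degD_single, one_mul]
    have hchain := AddSubgroup.relIndex_mul_relIndex (RR p T D).toAddSubgroup
      (RR p T (D + Finsupp.single v 1)).toAddSubgroup
      (RR p T (D + Finsupp.single v 1 + msD E)).toAddSubgroup
      (RR_mono p (fun w _ => by
        rw [Finsupp.add_apply, Finsupp.single_apply]; split_ifs <;> omega))
      (RR_mono p (fun w _ => by
        have hms : ∀ (E : Multiset (Place F)) w, 0 ≤ msD E w := by
          intro E w
          induction E using Multiset.induction with
          | empty => simp [msD_zero]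
          | cons u E ih =>
            rw [msD_cons, Finsupp.add_apply, Finsupp.single_apply]
            split_ifs <;> omega
        have := hms E w
        rw [Finsupp.add_apply (D + Finsupp.single v 1) (msD E)]
        omega))
    rw [heq, ← hchain, hn]
    refine ⟨_, rfl, mul_ne_zero h1 hn0, ?_, ?_, ?_⟩
    · rw [hdeg, zpow_add₀ hpos.ne']
      push_cast
      refine mul_le_mul ?_ hn1 (Nat.cast_nonneg _) (by positivity)
      rw [zpow_natCast]
      have h4 : ((RR p T D).toAddSubgroup.relIndex
        (RR p T (D + Finsupp.single v 1)).toAddSubgroup : ℝ) ≤ (Nat.card v.Res : ℝ) := by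
        exact_mod_cast h2
      refine h4.trans ?_
      rw [hc]; push_cast; exact le_refl _
    · rw [hdeg]; positivity
    · intro hT
      rw [hdeg, zpow_add₀ hpos.ne', ← hn3 hT, zpow_natCast]
      push_cast
      rw [h3 hT, hc]
      push_cast
      rfl

theorem relIndex_eq (hF : IsFunctionField (ZMod p) F) (T : Set (Place F))
    (D D' : Place F →₀ ℤ) (hle : ∀ v, D v ≤ D' v) (hT : ∀ v, D v ≠ D' v → v ∈ T) :
    ∃ n : ℕ, (RR p T D).toAddSubgroup.relIndex (RR p T D').toAddSubgroup = n ∧
    n ≠ 0 ∧ (n : ℝ) ≤ (p : ℝ) ^ (degD p D' - degD p D) ∧ degD p D ≤ degD p D' ∧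
    (T.Finite → (n : ℝ) = (p : ℝ) ^ (degD p D' - degD p D)) := by
  obtain ⟨E, hE, hE2⟩ := exists_ms (D' - D) (fun v => by
    rw [Finsupp.sub_apply]; have := hle v; omega)
  have h1 := relIndex_ms p hF T E (fun v hv => hT v (fun h => hE2 v hv (by
    rw [Finsupp.sub_apply, h]; simp))) D
  rw [hE, add_sub_cancel, degD_sub] at h1
  obtain ⟨n, a, b, c, d, e⟩ := h1
  exact ⟨n, a, b, c, by linarith, e⟩

end Pool.Agent.Helper47.Wan
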